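import Pool.Agent.W2helper64.BH.Final

set_option autoImplicit false
set_option linter.unusedSectionVars false

/-!
The polynomials `n ^ 2 + b`: the main term and the factors of the product.
-/

namespace Pool.Agent.W2helper64.BH

open Finset Filter Topology Polynomial MeasureTheory Pool.Agent.W2helper64.RS Pool.Agent.W2helper64.RK

theorem abs_log_one_add {y : ℝ} (h : |y| ≤ 1 / 2) : |Real.log (1 + y)| ≤ 2 * |y| := by
  obtain ⟨h1, h2⟩ := abs_le.mp h
  have h0 : 0 < 1 + y := by linarith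
  have h3 : Real.log (1 + y) ≤ y := by
    have := Real.log_le_sub_one_of_pos h0
    linarith
  have h4 := Real.one_sub_inv_le_log_of_pos h0
  have h5 : 1 - (1 + y)⁻¹ = y / (1 + y) := by field_simp; ring
  rw [h5] at h4
  have h6 : -(2 * |y|) ≤ y / (1 + y) := by
    rw [le_div_iff₀ h0]
    have := neg_abs_le y
    have := abs_nonneg y
    nlinarith
  rw [abs_le]
  constructor
  · linarith
  · have := le_abs_self y
    have := abs_nonneg y
    linarith

theorem li_close (b : ℤ) : ∃ C : ℝ, ∀ᶠ x : ℕ in atTop,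
    |∑ n ∈ @Finset.filter ℕ (fun n : ℕ => 8 ≤ (n : ℤ) ^ 2 + b) (Classical.decPred _) (Icc 1 x),
        1 / Real.log (((n : ℤ) ^ 2 + b : ℤ) : ℝ) - 1 / 2 * ∫ t in (2 : ℝ)..(x : ℝ), 1 / Real.log t| ≤ C := by
  classical
  set B : ℕ := b.natAbs with hB
  have hBr : |(b : ℝ)| = B := by
    rw [hB, Nat.cast_natAbs, Int.cast_abs]
  have hbB : -(B : ℤ) ≤ b ∧ b ≤ B := by
    constructor <;> omega
  set m : ℕ := 2 * B + 10 with hm
  refine ⟨m + 4 * B + (1 + |∫ t in (2 : ℝ)..(m : ℝ), 1 / Real.log t|), ?_⟩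
  filter_upwards [eventually_ge_atTop m] with x hx
  have hmr : (10 : ℝ) ≤ m := by exact_mod_cast (by omega : 10 ≤ m)
  -- splitting the sum
  have hbig : ∀ n : ℕ, m ≤ n → 8 ≤ (n : ℤ) ^ 2 + b ∧ (2 * B : ℤ) ≤ (n : ℤ) ^ 2 := by
    intro n hn
    have h1 : (2 * B + 10 : ℤ) ≤ n := by exact_mod_cast hn
    constructor
    · nlinarith [hbB.1]
    · nlinarith
  have hsplit : @Finset.filter ℕ (fun n : ℕ => 8 ≤ (n : ℤ) ^ 2 + b) (Classical.decPred _) (Icc 1 x) =
      @Finset.filter ℕ (fun n : ℕ => 8 ≤ (n : ℤ) ^ 2 + b) (Classical.decPred _) (Icc 1 m) ∪ Ioc m x := by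
    ext n
    simp only [Finset.mem_union, mf', mem_Icc, mem_Ioc]
    constructor
    · rintro ⟨h7, h8⟩
      rcases le_or_gt n m with h9 | h9
      · exact Or.inl ⟨⟨h7.1, h9⟩, h8⟩
      · exact Or.inr ⟨h9, h7.2⟩
    · rintro (⟨h7, h8⟩ | h7)
      · exact ⟨⟨h7.1, by omega⟩, h8⟩
      · exact ⟨⟨by omega, h7.2⟩, (hbig n h7.1.le).1⟩
  rw [hsplit, sum_union]
  swap
  · rw [Finset.disjoint_left]
    intro n h7 h8
    rw [mf', mem_Icc] at h7
    rw [mem_Ioc] at h8
    omega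
  -- the first part
  have p1 : |∑ n ∈ @Finset.filter ℕ (fun n : ℕ => 8 ≤ (n : ℤ) ^ 2 + b) (Classical.decPred _) (Icc 1 m),
      1 / Real.log (((n : ℤ) ^ 2 + b : ℤ) : ℝ)| ≤ m := by
    have h2 : ∀ n ∈ @Finset.filter ℕ (fun n : ℕ => 8 ≤ (n : ℤ) ^ 2 + b) (Classical.decPred _) (Icc 1 m),
        |1 / Real.log (((n : ℤ) ^ 2 + b : ℤ) : ℝ)| ≤ 1 := by
      intro n hn
      have h3 := (mf'.mp hn).2
      have h4 : 2 ≤ Real.log (((n : ℤ) ^ 2 + b : ℤ) : ℝ) := by
        refine log8.trans (Real.log_le_log (by norm_num) ?_)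
        exact_mod_cast h3
      rw [abs_of_nonneg (by positivity), div_le_one (by linarith)]
      linarith
    refine (abs_sum_le_sum_abs _ _).trans ((sum_le_sum h2).trans ?_)
    rw [sum_const, nsmul_eq_mul, mul_one]
    have h5 : (@Finset.filter ℕ (fun n : ℕ => 8 ≤ (n : ℤ) ^ 2 + b) (Classical.decPred _) (Icc 1 m)).card ≤
        (Icc 1 m).card := card_le_card fun n hn => (mf'.mp hn).1
    rw [Nat.card_Icc, Nat.add_sub_cancel] at h5
    exact_mod_cast h5
  -- the comparison with 2 log n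
  have p2 : |∑ n ∈ Ioc m x, 1 / Real.log (((n : ℤ) ^ 2 + b : ℤ) : ℝ) - ∑ n ∈ Ioc m x, 1 / (2 * Real.log (n : ℝ))| ≤
      4 * B := by
    rw [← sum_sub_distrib]
    have h1 : ∀ n ∈ Ioc m x, |1 / Real.log (((n : ℤ) ^ 2 + b : ℤ) : ℝ) - 1 / (2 * Real.log (n : ℝ))| ≤
        2 * B * ((n : ℝ) ^ 2)⁻¹ := by
      intro n hn
      rw [mem_Ioc] at hn
      obtain ⟨h8, h2B⟩ := hbig n hn.1.le
      have hn0 : (10 : ℝ) ≤ n := by exact_mod_cast (by omega : 10 ≤ n)
      have hn2 : 0 < (n : ℝ) ^ 2 := by positivity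
      have hval : (((n : ℤ) ^ 2 + b : ℤ) : ℝ) = (n : ℝ) ^ 2 * (1 + b / (n : ℝ) ^ 2) := by
        push_cast
        field_simp
      have hy : |(b : ℝ) / (n : ℝ) ^ 2| = B / (n : ℝ) ^ 2 := by
        rw [abs_div, hBr, abs_of_pos hn2]
      have h2B' : (2 * B : ℝ) ≤ (n : ℝ) ^ 2 := by exact_mod_cast h2B
      have hy2 : |(b : ℝ) / (n : ℝ) ^ 2| ≤ 1 / 2 := by
        rw [hy, div_le_div_iff₀ hn2 (by norm_num)]
        linarith
      have h3 := abs_log_one_add hy2
      have h4 : 2 ≤ Real.log (((n : ℤ) ^ 2 + b : ℤ) : ℝ) := by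
        refine log8.trans (Real.log_le_log (by norm_num) ?_)
        exact_mod_cast h8
      have h5 : 2 ≤ Real.log (n : ℝ) := log8.trans (Real.log_le_log (by norm_num) (by linarith))
      have h6 : Real.log (((n : ℤ) ^ 2 + b : ℤ) : ℝ) = 2 * Real.log n + Real.log (1 + b / (n : ℝ) ^ 2) := by
        rw [hval, Real.log_mul (by positivity) (by
          have := (abs_le.mp hy2).1
          linarith), Real.log_pow]
        push_cast; ring
      set u := Real.log (((n : ℤ) ^ 2 + b : ℤ) : ℝ)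
      set v := 2 * Real.log (n : ℝ) with hv
      have h7 : 1 / u - 1 / v = (v - u) / (u * v) := by
        have : u ≠ 0 := by linarith
        have : v ≠ 0 := by linarith
        field_simp
      have huv : 1 ≤ u * v := by nlinarith
      rw [h7, abs_div, abs_of_pos (by linarith : 0 < u * v)]
      have h9 : |v - u| ≤ 2 * B * ((n : ℝ) ^ 2)⁻¹ := by
        rw [h6, sub_add_cancel_left, abs_neg]
        refine h3.trans (le_of_eq ?_)
        rw [hy]; ring
      refine le_trans (div_le_self (abs_nonneg _) huv) h9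
    refine (abs_sum_le_sum_abs _ _).trans ((sum_le_sum h1).trans ?_)
    rw [← mul_sum]
    have h2 : ∑ n ∈ Ioc m x, ((n : ℝ) ^ 2)⁻¹ ≤ 1 := by
      have h3 : Ioc m x = Ioo m (x + 1) := by
        ext n; rw [mem_Ioc, mem_Ioo]; omega
      rw [h3]
      refine (sum_Ioo_inv_sq_le (α := ℝ) m (x + 1)).trans ?_
      rw [div_le_one (by linarith)]
      linarith
    have hB0 : (0 : ℝ) ≤ B := Nat.cast_nonneg _
    nlinarith
  -- the comparison with the integral
  have p3 : |∑ n ∈ Ioc m x, 1 / Real.log (n : ℝ) - ∫ t in (m : ℝ)..(x : ℝ), 1 / Real.log t| ≤ 1 := by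
    have hanti : AntitoneOn (fun t : ℝ => 1 / Real.log t) (Set.Icc (m : ℝ) (x : ℝ)) := by
      intro s hs t _ hst
      have h1 : (1 : ℝ) < s := by linarith [hs.1]
      exact one_div_le_one_div_of_le (Real.log_pos h1) (Real.log_le_log (by linarith) hst)
    have h1 := AntitoneOn.integral_le_sum_Ico hx hanti
    have h2 := AntitoneOn.sum_le_integral_Ico hx hanti
    have h3 : ∑ n ∈ Ioc m x, 1 / Real.log (n : ℝ) = ∑ n ∈ Ico m x, 1 / Real.log ((n + 1 : ℕ) : ℝ) := by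
      rw [Finset.sum_Ico_add' (fun n : ℕ => 1 / Real.log (n : ℝ)) m x 1]
      refine sum_congr ?_ fun _ _ => rfl
      ext n; rw [mem_Ioc, mem_Ico]; omega
    have h4 : ∑ n ∈ Ico m x, 1 / Real.log (n : ℝ) ≤ ∑ n ∈ Ioc m x, 1 / Real.log (n : ℝ) + 1 := by
      rcases hx.eq_or_lt with h5 | h5
      · rw [h5]; simp
      · have h6 : Ico m x = insert m (Ioo m x) := by
          ext n; rw [mem_Ico, mem_insert, mem_Ioo]; omega
        have h7 : Ioo m x ⊆ Ioc m x := Ioo_subset_Ioc_self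
        rw [h6, sum_insert (by simp)]
        have h8 : 1 / Real.log (m : ℝ) ≤ 1 := by
          have : 2 ≤ Real.log (m : ℝ) := log8.trans (Real.log_le_log (by norm_num) (by linarith))
          rw [div_le_one (by linarith)]; linarith
        have h9 : ∑ n ∈ Ioo m x, 1 / Real.log (n : ℝ) ≤ ∑ n ∈ Ioc m x, 1 / Real.log (n : ℝ) :=
          sum_le_sum_of_subset_of_nonneg h7 fun n hn _ => by
            rw [mem_Ioc] at hn
            have : 0 ≤ Real.log (n : ℝ) := Real.log_natCast_nonneg _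
            positivity
        linarith
    rw [h3] at h4 ⊢
    rw [abs_le]
    constructor <;> linarith
  have p4 : ∑ n ∈ Ioc m x, 1 / (2 * Real.log (n : ℝ)) = 1 / 2 * ∑ n ∈ Ioc m x, 1 / Real.log (n : ℝ) := by
    rw [mul_sum]
    refine sum_congr rfl fun n _ => ?_
    rw [one_div_mul_one_div]
  have hint : ∀ u v : ℝ, 2 ≤ u → 2 ≤ v → IntervalIntegrable (fun t : ℝ => 1 / Real.log t) volume u v := by
    intro u v hu hv
    apply AntitoneOn.intervalIntegrable
    intro s hs t _ hst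
    have h1 : 2 ≤ s := (le_inf hu hv).trans hs.1
    exact one_div_le_one_div_of_le (Real.log_pos (by linarith)) (Real.log_le_log (by linarith) hst)
  have p5 : ∫ t in (2 : ℝ)..(x : ℝ), 1 / Real.log t = (∫ t in (2 : ℝ)..(m : ℝ), 1 / Real.log t) +
      ∫ t in (m : ℝ)..(x : ℝ), 1 / Real.log t := by
    rw [intervalIntegral.integral_add_adjacent_intervals]
    · exact hint _ _ le_rfl (by linarith)
    · have : (m : ℝ) ≤ x := by exact_mod_cast hx
      exact hint _ _ (by linarith) (by linarith)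
  rw [p5]
  rw [p4] at p2
  set A1 := ∑ n ∈ @Finset.filter ℕ (fun n : ℕ => 8 ≤ (n : ℤ) ^ 2 + b) (Classical.decPred _) (Icc 1 m),
      1 / Real.log (((n : ℤ) ^ 2 + b : ℤ) : ℝ)
  set A2 := ∑ n ∈ Ioc m x, 1 / Real.log (((n : ℤ) ^ 2 + b : ℤ) : ℝ)
  set A3 := ∑ n ∈ Ioc m x, 1 / Real.log (n : ℝ)
  set I1 := ∫ t in (2 : ℝ)..(m : ℝ), 1 / Real.log t
  set I2 := ∫ t in (m : ℝ)..(x : ℝ), 1 / Real.log t
  have q := le_abs_self I1
  have q' := neg_abs_le I1
  rw [abs_le] at p1 p2 p3 ⊢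
  constructor <;> linarith

end Pool.Agent.W2helper64.BH
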