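import Pool.Agent.W2helper64.BH.Prob

set_option autoImplicit false
set_option linter.unusedSectionVars false

/-!
From the predicted number of survivors to the singular series.
-/

namespace Pool.Agent.W2helper64.BH

open Finset Filter Topology Polynomial MeasureTheory Pool.Agent.W2helper64.RS Pool.Agent.W2helper64.RK
open Pool.Agent.H373R2.T7 (pz nuB PerB sys_count nuB_le mem_pz)

/-- the class of `n` modulo the prime `p` hits the deleted class -/
def Hit {g : ℕ} (f : Fin g → ℤ[X]) (a : (p : Nat.Primes) → ZMod (p : ℕ)) (p n : ℕ) : Prop :=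
  ∃ h : p.Prime, ∃ i, (((f i).eval (n : ℤ) : ℤ) : ZMod p) = a ⟨p, h⟩

/-- the product of the inverse logarithms -/
noncomputable def hh {g : ℕ} (f : Fin g → ℤ[X]) (n : ℕ) : ℝ := ∏ i, (1 / lam f i n)

/-- the density of the first phase -/
noncomputable def PP {g : ℕ} (f : Fin g → ℤ[X]) (a : (p : Nat.Primes) → ZMod (p : ℕ)) (z : ℕ) : ℝ :=
  ∏ p ∈ pz z, (1 - (nuB (Hit f a) p : ℝ) / p)

theorem hit_per {g : ℕ} (f : Fin g → ℤ[X]) (a : (p : Nat.Primes) → ZMod (p : ℕ)) (p n : ℕ) :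
    Hit f a p n ↔ Hit f a p (n % p) := by
  refine exists_congr fun h => exists_congr fun i => ?_
  have : (((f i).eval ((n % p : ℕ) : ℤ) : ℤ) : ZMod p) = (((f i).eval (n : ℤ) : ℤ) : ZMod p) := by
    rw [← val_nat, ← val_nat, ZMod.natCast_mod]
  rw [this]

theorem nu_le {g : ℕ} (f : Fin g → ℤ[X]) (k : ℕ) (hd : ∀ i, 0 < (f i).natDegree)
    (hk : ∑ i, (f i).natDegree ≤ k) (a : (p : Nat.Primes) → ZMod (p : ℕ)) {p : ℕ} (hp : p.Prime)
    (hlc : ∀ i, ¬ (p : ℤ) ∣ (f i).leadingCoeff) : nuB (Hit f a) p ≤ k := by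
  classical
  unfold nuB
  have h3 : (range p).filter (fun m => Hit f a p m) ⊆ univ.biUnion fun i : Fin g => (range p).filter fun m =>
      (((f i).eval (m : ℤ) : ℤ) : ZMod p) = a ⟨p, hp⟩ := by
    intro m hm
    rw [Finset.mem_filter] at hm
    obtain ⟨hm1, _, i, hi⟩ := hm
    rw [mem_biUnion]
    exact ⟨i, Finset.mem_univ _, Finset.mem_filter.mpr ⟨hm1, hi⟩⟩
  refine le_trans (le_of_eq ?_) ((card_le_card h3).trans (card_biUnion_le.trans (le_trans (sum_le_sum fun i _ => ?_) hk)))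
  · congr
  refine few_val (f i) hp (hd i) (hlc i) (a ⟨p, hp⟩) _ fun m hm => ?_
  rw [Finset.mem_filter, mem_range] at hm
  exact hm

/-- the bound for the leading coefficients -/
def lcs {g : ℕ} (f : Fin g → ℤ[X]) : ℕ := ∑ i, (f i).leadingCoeff.natAbs

theorem lcs_ndvd {g : ℕ} (f : Fin g → ℤ[X]) (hl : ∀ i, 0 < (f i).leadingCoeff) {p : ℕ} (hp : lcs f < p) (i : Fin g) :
    ¬ (p : ℤ) ∣ (f i).leadingCoeff := by
  intro hdvd
  have h1 : p ≤ (f i).leadingCoeff.natAbs :=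
    Nat.le_of_dvd (Int.natAbs_pos.mpr (hl i).ne') (Int.natCast_dvd.mp hdvd)
  have h2 : (f i).leadingCoeff.natAbs ≤ lcs f :=
    single_le_sum (f := fun i => (f i).leadingCoeff.natAbs) (fun _ _ => Nat.zero_le _) (Finset.mem_univ i)
  omega

theorem perB {g : ℕ} (f : Fin g → ℤ[X]) (k : ℕ) (hd : ∀ i, 0 < (f i).natDegree)
    (hl : ∀ i, 0 < (f i).leadingCoeff)
    (hk : ∑ i, (f i).natDegree ≤ k) (a : (p : Nat.Primes) → ZMod (p : ℕ)) : PerB (Hit f a) (k + lcs f + 1) := by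
  refine ⟨hit_per f a, fun p hp => ?_⟩
  by_cases h : lcs f < p
  · have := nu_le f k hd hk a hp (lcs_ndvd f hl h)
    omega
  · have := nuB_le (Hit f a) p
    omega

open Classical in
/-- summation by parts -/
theorem abel (h : ℕ → ℝ) (m : ℕ) (h0 : ∀ n, m ≤ n → 0 ≤ h n) (hanti : ∀ n, m ≤ n → h (n + 1) ≤ h n) (P : ℕ → Prop)
    (c Δ : ℝ) (x : ℕ) (hmx : m ≤ x)
    (hcount : ∀ y, m ≤ y → y ≤ x → |(((Ioc m y).filter P).card : ℝ) - ((y : ℝ) - m) * c| ≤ Δ) :
    |∑ n ∈ (Ioc m x).filter P, h n - c * ∑ n ∈ Ioc m x, h n| ≤ Δ * h m := by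
  have key : ∀ x, m ≤ x → (∀ y, m ≤ y → y ≤ x → |(((Ioc m y).filter P).card : ℝ) - ((y : ℝ) - m) * c| ≤ Δ) →
      |(∑ n ∈ (Ioc m x).filter P, h n - c * ∑ n ∈ Ioc m x, h n) -
        ((((Ioc m x).filter P).card : ℝ) - ((x : ℝ) - m) * c) * h x| ≤ Δ * (h m - h x) := by
    intro x hx
    induction x, hx using Nat.le_induction with
    | base => intro _; simp
    | succ x hx ih =>
      intro hc
      have h1 := ih fun y h2 h3 => hc y h2 (by omega)
      have h2 := hc x hx (by omega)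
      have hins : Ioc m (x + 1) = insert (x + 1) (Ioc m x) := by
        ext n; simp only [mem_Ioc, mem_insert]; omega
      have hnot : x + 1 ∉ Ioc m x := by simp
      have e1 : ∑ n ∈ (Ioc m (x + 1)).filter P, h n = ∑ n ∈ (Ioc m x).filter P, h n +
          (if P (x + 1) then 1 else 0) * h (x + 1) := by
        rw [sum_filter, sum_filter, hins, sum_insert hnot]
        split_ifs <;> ring
      have e2 : (((Ioc m (x + 1)).filter P).card : ℝ) = ((Ioc m x).filter P).card + (if P (x + 1) then 1 else 0) := by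
        rw [← sum_boole, ← sum_boole, hins, sum_insert hnot]
        ring
      have e3 : ∑ n ∈ Ioc m (x + 1), h n = ∑ n ∈ Ioc m x, h n + h (x + 1) := by
        rw [hins, sum_insert hnot]; ring
      rw [e1, e2, e3]
      push_cast
      have e4 : (∑ n ∈ (Ioc m x).filter P, h n + (if P (x + 1) then 1 else 0) * h (x + 1) -
          c * (∑ n ∈ Ioc m x, h n + h (x + 1))) -
          (((Ioc m x).filter P).card + (if P (x + 1) then 1 else 0) - ((x : ℝ) + 1 - m) * c) * h (x + 1) =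
          ((∑ n ∈ (Ioc m x).filter P, h n - c * ∑ n ∈ Ioc m x, h n) -
            ((((Ioc m x).filter P).card : ℝ) - ((x : ℝ) - m) * c) * h x) +
          ((((Ioc m x).filter P).card : ℝ) - ((x : ℝ) - m) * c) * (h x - h (x + 1)) := by ring
      rw [e4]
      refine (abs_add_le _ _).trans ?_
      rw [abs_mul, abs_of_nonneg (sub_nonneg.mpr (hanti x hx))]
      have h3 := mul_le_mul_of_nonneg_right h2 (sub_nonneg.mpr (hanti x hx))
      linarith
  have h1 := key x hmx hcount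
  have h2 := hcount x hmx le_rfl
  have h3 := mul_le_mul_of_nonneg_right h2 (h0 x hmx)
  rw [← abs_of_nonneg (h0 x hmx), ← abs_mul, abs_of_nonneg (h0 x hmx)] at h3
  have h4 := abs_add_le ((∑ n ∈ (Ioc m x).filter P, h n - c * ∑ n ∈ Ioc m x, h n) -
        ((((Ioc m x).filter P).card : ℝ) - ((x : ℝ) - m) * c) * h x)
        (((((Ioc m x).filter P).card : ℝ) - ((x : ℝ) - m) * c) * h x)
  rw [sub_add_cancel] at h4
  linarith

theorem mz_facts {x : ℕ} (hx : 4 ≤ x) : mz x ≤ x ∧ Nat.sqrt x < mz x ∧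
    ∀ n : ℕ, mz x ≤ n → Real.log x / 2 ≤ Real.log n := by
  refine ⟨?_, Nat.lt_succ_self _, fun n hn => ?_⟩
  · unfold mz
    have h1 := Nat.sqrt_le x
    have h2 : Nat.sqrt x < x := Nat.sqrt_lt_self (by omega)
    omega
  · have h1 : x < (mz x) ^ 2 := Nat.lt_succ_sqrt' x
    have h2 : x < n ^ 2 := h1.trans_le (Nat.pow_le_pow_left hn 2)
    have h3 : (x : ℝ) ≤ (n : ℝ) ^ 2 := by exact_mod_cast h2.le
    have h4 := Real.log_le_log (by exact_mod_cast (by omega : 0 < x)) h3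
    rw [Real.log_pow] at h4
    push_cast at h4
    linarith

/-- the count of the first phase -/
theorem count_phase {g : ℕ} (f : Fin g → ℤ[X]) (k : ℕ) (hd : ∀ i, 0 < (f i).natDegree)
    (hl : ∀ i, 0 < (f i).leadingCoeff)
    (hk : ∑ i, (f i).natDegree ≤ k) (E U : ℕ) : ∀ᶠ x : ℕ in atTop,
    ∀ a : (p : Nat.Primes) → ZMod (p : ℕ), ∀ y, mz x ≤ y → y ≤ x →
      |(((@Finset.filter ℕ (fun n => ∀ p ∈ pz (zz E x), ¬ Hit f a p n) (Classical.decPred _) (Ioc (mz x) y)).card : ℕ) : ℝ) -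
        ((y : ℝ) - mz x) * PP f a (zz E x)| ≤ 2 ^ (U + 1) * (x / Real.log x ^ U) := by
  classical
  obtain ⟨N0, hN0⟩ := sys_count (k + lcs f + 1) (E + 1) U (by omega)
  filter_upwards [ev_log (2 * N0 + 2 * 2 ^ E + 4), eventually_ge_atTop 4] with x hL hx4 a y hy1 hy2
  obtain ⟨hm1, hm2, hm3⟩ := mz_facts hx4
  set L : ℝ := Real.log x with hLdef
  have hN0' : (0 : ℝ) ≤ N0 := Nat.cast_nonneg _
  have h2E : (0 : ℝ) < 2 ^ E := by positivity
  have hL0 : 0 < L := by linarith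
  have hL1 : 1 ≤ L := by linarith
  have hz1 : 1 ≤ zz E x := by
    unfold zz
    apply Nat.le_floor
    push_cast
    exact one_le_pow₀ hL1
  have hmain : ∀ N : ℕ, mz x ≤ N → N ≤ x →
      |(((@Finset.filter ℕ (fun n => ∀ p ∈ pz (zz E x), ¬ Hit f a p n) (Classical.decPred _) (Icc 1 N)).card : ℕ) : ℝ) -
        N * PP f a (zz E x)| ≤ 2 ^ U * (x / L ^ U) := by
    intro N h1 h2
    have hlN := hm3 N h1
    have hNpos : (0 : ℝ) < N := by
      have : 0 < N := by unfold mz at h1; omega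
      exact_mod_cast this
    have hlN' : Real.log N ≤ N := (Real.log_le_sub_one_of_pos hNpos).trans (by linarith)
    have hN : N0 ≤ N := by
      have : (N0 : ℝ) ≤ N := by linarith
      exact_mod_cast this
    have hlN0 : 0 < Real.log N := by linarith
    have h3 := hN0 N hN (zz E x) hz1 (by
      have e1 : (zz E x : ℝ) ≤ L ^ E := Nat.floor_le (by positivity)
      refine e1.trans ?_
      calc L ^ E ≤ (2 * Real.log N) ^ E := pow_le_pow_left₀ hL0.le (by linarith) E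
        _ = 2 ^ E * Real.log N ^ E := by rw [mul_pow]
        _ ≤ Real.log N * Real.log N ^ E := by
            apply mul_le_mul_of_nonneg_right _ (by positivity)
            linarith
        _ = Real.log N ^ (E + 1) := by ring) (Hit f a) (perB f k hd hl hk a)
    have h4 : (N : ℝ) / Real.log N ^ U ≤ 2 ^ U * (x / L ^ U) := by
      have e2 : (L / 2) ^ U ≤ Real.log N ^ U := pow_le_pow_left₀ (by positivity) hlN U
      calc (N : ℝ) / Real.log N ^ U ≤ x / (L / 2) ^ U := by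
            apply div_le_div₀ (Nat.cast_nonneg _) (by exact_mod_cast h2) (by positivity) e2
        _ = 2 ^ U * (x / L ^ U) := by rw [div_pow]; field_simp
    unfold PP
    have h5 := h3.trans h4
    obtain ⟨M, hM1, hM2⟩ : ∃ M : ℕ, M = (@Finset.filter ℕ (fun n => ∀ p ∈ pz (zz E x), ¬ Hit f a p n)
        (Classical.decPred _) (Icc 1 N)).card ∧
        |(M : ℝ) - N * ∏ p ∈ pz (zz E x), (1 - (nuB (Hit f a) p : ℝ) / p)| ≤ 2 ^ U * (x / L ^ U) := by
      refine ⟨_, ?_, h5⟩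
      congr
    rw [← hM1]
    exact hM2
  have h5 := hmain (mz x) le_rfl hm1
  have h6 := hmain y hy1 hy2
  have hsplit : (((@Finset.filter ℕ (fun n => ∀ p ∈ pz (zz E x), ¬ Hit f a p n) (Classical.decPred _) (Icc 1 y)).card : ℕ) : ℝ) =
      (((@Finset.filter ℕ (fun n => ∀ p ∈ pz (zz E x), ¬ Hit f a p n) (Classical.decPred _) (Icc 1 (mz x))).card : ℕ) : ℝ) +
      (((@Finset.filter ℕ (fun n => ∀ p ∈ pz (zz E x), ¬ Hit f a p n) (Classical.decPred _) (Ioc (mz x) y)).card : ℕ) : ℝ) := by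
    rw [← Nat.cast_add, ← card_union_of_disjoint]
    · congr 2
      ext n
      simp only [Finset.mem_union, mf', mem_Icc, mem_Ioc]
      constructor
      · rintro ⟨h7, h8⟩
        rcases le_or_gt n (mz x) with h9 | h9
        · exact Or.inl ⟨⟨h7.1, h9⟩, h8⟩
        · exact Or.inr ⟨⟨h9, h7.2⟩, h8⟩
      · rintro (⟨h7, h8⟩ | ⟨h7, h8⟩)
        · exact ⟨⟨h7.1, by omega⟩, h8⟩
        · exact ⟨⟨by omega, h7.2⟩, h8⟩
    · rw [Finset.disjoint_left]
      intro n h7 h8
      rw [mf', mem_Icc] at h7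
      rw [mf', mem_Ioc] at h8
      omega
  have h7 : (2 : ℝ) ^ (U + 1) * (x / L ^ U) = 2 ^ U * (x / L ^ U) + 2 ^ U * (x / L ^ U) := by ring
  rw [h7]
  rw [abs_le] at h5 h6 ⊢
  constructor <;> nlinarith

end Pool.Agent.W2helper64.BH
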