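import Pool.Agent.W2helper64.BH.Det

set_option autoImplicit false
set_option linter.unusedSectionVars false

/-!
The deterministic part.
-/

namespace Pool.Agent.W2helper64.BH

open Finset Filter Topology Polynomial MeasureTheory Pool.Agent.W2helper64.RS Pool.Agent.W2helper64.RK
open Pool.Agent.H373R2.T7 (pz nuB PerB sys_count nuB_le mem_pz)

theorem ev_invV (E g : ℕ) : ∀ᶠ x : ℕ in atTop, (1 / V (zz E x)) ^ g ≤ Real.log x := by
  obtain ⟨c, hc, hV⟩ := V_ge
  have h1 : ∀ᶠ L : ℝ in atTop, ((E : ℝ) / c) ^ g * Real.log L ^ g ≤ L := by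
    have h2 : Tendsto (fun L : ℝ => Real.log L ^ g / L) atTop (𝓝 0) := by
      have := (Real.isLittleO_pow_log_id_atTop (n := g)).tendsto_div_nhds_zero
      exact this
    have h3 := h2.const_mul (((E : ℝ) / c) ^ g)
    rw [mul_zero] at h3
    filter_upwards [h3.eventually (gt_mem_nhds (show (0 : ℝ) < 1 by norm_num)), eventually_gt_atTop 0] with L h4 h5
    rw [← mul_div_assoc, div_lt_one h5] at h4
    exact h4.le
  have hlog : Tendsto (fun x : ℕ => Real.log (x : ℝ)) atTop atTop :=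
    Real.tendsto_log_atTop.comp tendsto_natCast_atTop_atTop
  rcases Nat.eq_zero_or_pos E with hE | hE
  · subst hE
    have h2 := hlog.eventually_ge_atTop ((1 / V 1) ^ g)
    filter_upwards [h2] with x hx
    refine le_trans (le_of_eq ?_) hx
    unfold zz
    simp
  filter_upwards [hlog.eventually h1, hlog.eventually_ge_atTop 3] with x hx hL
  set L : ℝ := Real.log x
  have hL0 : 0 < L := by linarith
  have hLE : L ≤ L ^ E := le_self_pow₀ (by linarith) (by omega)
  have hz2 : 2 ≤ zz E x := by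
    unfold zz
    apply Nat.le_floor
    push_cast
    linarith
  have hz0 : (0 : ℝ) < zz E x := by exact_mod_cast (by omega : 0 < zz E x)
  have hzle : (zz E x : ℝ) ≤ L ^ E := Nat.floor_le (by positivity)
  have h2 := hV (zz E x) hz2
  have hlz : 0 < Real.log (zz E x) := Real.log_pos (by exact_mod_cast (by omega : 1 < zz E x))
  have h3 : 1 / V (zz E x) ≤ Real.log (zz E x) / c := by
    rw [div_le_div_iff₀ (V_pos _) hc, one_mul]
    rw [div_le_iff₀ hlz] at h2
    linarith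
  have h4 : Real.log (zz E x) ≤ E * Real.log L := by
    rw [← Real.log_pow]
    exact Real.log_le_log hz0 hzle
  have h5 : 1 / V (zz E x) ≤ E / c * Real.log L := by
    refine h3.trans ?_
    rw [div_mul_eq_mul_div]
    exact div_le_div_of_nonneg_right h4 hc.le
  have h6 : 0 ≤ 1 / V (zz E x) := by
    have := V_pos (zz E x)
    positivity
  calc (1 / V (zz E x)) ^ g ≤ (E / c * Real.log L) ^ g := pow_le_pow_left₀ h6 h5 g
    _ = ((E : ℝ) / c) ^ g * Real.log L ^ g := mul_pow _ _ _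
    _ ≤ L := hx

/-- the properties for large `x` which will be used -/
structure Good {g : ℕ} (f : Fin g → ℤ[X]) (k E x : ℕ) : Prop where
  L1 : 16 ≤ Real.log x
  z1 : 1 ≤ zz E x
  zg : 2 * g ≤ zz E x
  zlow : Real.log x ^ E / 2 ≤ zz E x
  invV : (1 / V (zz E x)) ^ g ≤ Real.log x
  T1 : 1 ≤ TT k x
  mzx : mz x ≤ x
  mzsq : (mz x : ℝ) ≤ 2 * √(x : ℝ)
  sys : ∀ n : ℕ, mz x ≤ n → n ≤ x → (∀ i, 8 ≤ (f i).eval (n : ℤ)) ∧
    (∀ i, 2 ≤ lam f i n ∧ lam f i n ≤ TT k x ∧ 1 ≤ V (zz E x) * lam f i n) ∧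
    (∀ i j, i ≠ j → (f i).eval (n : ℤ) - (f j).eval (n : ℤ) ≠ 0) ∧
    (∀ i j, i ≠ j → Real.log |(((f i).eval (n : ℤ) - (f j).eval (n : ℤ) : ℤ) : ℝ)| ≤ TT k x)
  mono : ∀ n : ℕ, mz x ≤ n → ∀ i, 2 ≤ lam f i n ∧ lam f i n ≤ lam f i (n + 1)

theorem ev_good {g : ℕ} (f : Fin g → ℤ[X]) (k : ℕ) (hd : ∀ i, 0 < (f i).natDegree)
    (hl : ∀ i, 0 < (f i).leadingCoeff) (hk : ∑ i, (f i).natDegree ≤ k) (hinj : Function.Injective f)
    (E : ℕ) (hE : 1 ≤ E) : ∀ᶠ x : ℕ in atTop, Good f k E x := by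
  have hki : ∀ i, (f i).natDegree ≤ k := fun i =>
    (single_le_sum (f := fun i => (f i).natDegree) (fun _ _ => Nat.zero_le _) (Finset.mem_univ i)).trans hk
  obtain ⟨n0, hn0⟩ := ev_sys f k hd hl hki hinj
  filter_upwards [ev_log (16 + 2 * g + 2 * n0), eventually_ge_atTop 4, ev_invV E g, ev_invV E 2] with x hL hx4 hV1 hV2
  obtain ⟨hm1, hm2, hm3⟩ := mz_facts hx4
  have hn00 : (0 : ℝ) ≤ n0 := Nat.cast_nonneg _
  have hg0 : (0 : ℝ) ≤ g := Nat.cast_nonneg _
  have hk0 : (0 : ℝ) ≤ k := Nat.cast_nonneg _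
  have hx0 : (0 : ℝ) < x := by exact_mod_cast (by omega : 0 < x)
  set L : ℝ := Real.log x with hLd
  have hL1 : 1 ≤ L := by linarith
  have hL0 : 0 < L := by linarith
  have hLE : L ≤ L ^ E := le_self_pow₀ hL1 (by omega)
  have hT : TT k x = (k + 1) * L := rfl
  have hVz := V_pos (zz E x)
  -- the inverse of V
  have hinv : 1 / V (zz E x) ≤ L / 4 := by
    have h1 : (1 / V (zz E x)) ^ 2 ≤ (L / 4) ^ 2 := by
      refine hV2.trans ?_
      have : 16 * L ≤ L * L := mul_le_mul_of_nonneg_right (by linarith) hL0.le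
      nlinarith
    exact le_of_sq_le_sq h1 (by positivity)
  have hnm : ∀ n : ℕ, mz x ≤ n → n0 ≤ n := by
    intro n hn
    have h1 := hm3 n hn
    have hnpos : (0 : ℝ) < n := by
      have : 0 < n := by unfold mz at hn; omega
      exact_mod_cast this
    have h2 := Real.log_le_sub_one_of_pos hnpos
    have : (n0 : ℝ) ≤ n := by linarith
    exact_mod_cast this
  refine ⟨by linarith, ?_, ?_, ?_, hV1, ?_, hm1, ?_, fun n h1 h2 => ?_, fun n h1 i => ?_⟩
  · unfold zz
    apply Nat.le_floor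
    push_cast
    linarith
  · unfold zz
    apply Nat.le_floor
    push_cast
    linarith
  · have h1 : L ^ E < (⌊L ^ E⌋₊ : ℝ) + 1 := Nat.lt_floor_add_one _
    have h2 : (zz E x : ℝ) = (⌊L ^ E⌋₊ : ℝ) := rfl
    rw [h2]
    linarith
  · rw [hT]; nlinarith
  · unfold mz
    push_cast
    have h1 : ((Nat.sqrt x : ℕ) : ℝ) ≤ √(x : ℝ) := by
      apply Real.le_sqrt_of_sq_le
      exact_mod_cast Nat.sqrt_le' x
    have h2 : 1 ≤ √(x : ℝ) := by
      rw [Real.one_le_sqrt]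
      exact_mod_cast (by omega : 1 ≤ x)
    linarith
  · obtain ⟨h3, h4, h5, h6⟩ := hn0 n (hnm n h1)
    have hln := hm3 n h1
    have hnpos : (0 : ℝ) < n := by
      have : 0 < n := by unfold mz at h1; omega
      exact_mod_cast this
    have hln2 : Real.log n ≤ L := Real.log_le_log hnpos (by exact_mod_cast h2)
    have hle : (k + 1) * Real.log n ≤ TT k x := by
      rw [hT]
      exact mul_le_mul_of_nonneg_left hln2 (by linarith)
    refine ⟨fun i => (h3 i).1, fun i => ⟨(h4 i).1, (h4 i).2.2.1.trans hle, ?_⟩, h5, fun i j hij => (h6 i j hij).trans hle⟩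
    have h7 : L / 4 ≤ lam f i n := by linarith [(h4 i).2.1]
    have h8 : 1 / V (zz E x) ≤ lam f i n := hinv.trans h7
    rw [div_le_iff₀ hVz] at h8
    linarith
  · obtain ⟨-, h4, -, -⟩ := hn0 n (hnm n h1)
    exact ⟨(h4 i).1, (h4 i).2.2.2⟩

theorem surv_K0 {g : ℕ} {f : Fin g → ℤ[X]} {k E x : ℕ} (G : Good f k E x) (a : (p : Nat.Primes) → ZMod (p : ℕ)) :
    survW (Ioc (mz x) x) (fun (p : {p // p ∈ PX (TT k x)}) n => Ph f (p : Nat.Primes) n) (K0 k E x)
      ((PX (TT k x)).restrict a) =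
    @Finset.filter ℕ (fun n => ∀ p ∈ pz (zz E x), ¬ Hit f a p n) (Classical.decPred _) (Ioc (mz x) x) := by
  classical
  ext n
  rw [mf']
  unfold survW
  rw [Finset.mem_filter]
  refine and_congr_right fun hn => ?_
  rw [mem_Ioc] at hn
  obtain ⟨-, h2, -, -⟩ := G.sys n hn.1.le hn.2
  constructor
  · rintro h p hp ⟨hpp, i, hi⟩
    obtain ⟨hpz, -⟩ := mem_pz.1 hp
    have hVp : V (zz E x) ≤ V p := V_anti hpz
    obtain ⟨l1, l2, l3⟩ := h2 i
    have hlam : 1 ≤ V p * lam f i n := l3.trans (mul_le_mul_of_nonneg_right hVp (by linarith))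
    have hPX : (⟨p, hpp⟩ : Nat.Primes) ∈ PX (TT k x) :=
      mem_PX.mpr (hlam.trans (mul_le_mul_of_nonneg_left l2 (V_nonneg _)))
    refine h ⟨⟨p, hpp⟩, hPX⟩ ?_ ?_
    · unfold K0
      rw [Finset.mem_filter]
      exact ⟨Finset.mem_univ _, not_lt.mpr hpz⟩
    · unfold Ph
      rw [Finset.mem_image]
      refine ⟨i, ?_, hi⟩
      unfold rel
      rw [Finset.mem_filter]
      exact ⟨Finset.mem_univ _, hlam⟩
  · intro h p hp hmem
    unfold K0 at hp
    rw [Finset.mem_filter] at hp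
    unfold Ph at hmem
    rw [Finset.mem_image] at hmem
    obtain ⟨i, -, hi⟩ := hmem
    refine h ((p : Nat.Primes) : ℕ) ?_ ⟨(p : Nat.Primes).2, i, hi⟩
    rw [mem_pz]
    exact ⟨not_lt.mp hp.2, (p : Nat.Primes).2⟩

theorem WW_close {g : ℕ} {f : Fin g → ℤ[X]} {k E x : ℕ} (G : Good f k E x) {u : ℝ} (hu : |u| ≤ 1)
    (a : (p : Nat.Primes) → ZMod (p : ℕ)) :
    |WW f k E x u ((PX (TT k x)).restrict a) - (1 / V (zz E x)) ^ g *
      ∑ n ∈ @Finset.filter ℕ (fun n => ∀ p ∈ pz (zz E x), ¬ Hit f a p n) (Classical.decPred _) (Ioc (mz x) x),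
        hh f n| ≤ x * (|u| * g * TT k x + g * g ^ 2 * (2 * TT k x) / zz E x + g ^ 2 * (2 / zz E x) +
          Real.log x * (g * (2 / zz E x))) := by
  classical
  unfold WW
  rw [surv_K0 G a, mul_sum, ← sum_sub_distrib]
  set S := @Finset.filter ℕ (fun n => ∀ p ∈ pz (zz E x), ¬ Hit f a p n) (Classical.decPred _) (Ioc (mz x) x)
  have hT0 : 0 < TT k x := by linarith [G.T1]
  have hz0 : (0 : ℝ) < zz E x := by exact_mod_cast G.z1
  have hL := G.L1
  set δ : ℝ := |u| * g * TT k x + g * g ^ 2 * (2 * TT k x) / zz E x + g ^ 2 * (2 / zz E x) +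
          Real.log x * (g * (2 / zz E x)) with hδ
  have hδ0 : 0 ≤ δ := by positivity
  have h1 : ∀ n ∈ S, |∏ p ∈ KK k E x, (1 - (1 - u) * ((Ph f (p : Nat.Primes) n).card : ℝ) /
      (((p : Nat.Primes) : ℕ) : ℝ)) - (1 / V (zz E x)) ^ g * hh f n| ≤ δ := by
    intro n hn
    have hn' := (mf'.mp hn).1
    rw [mem_Ioc] at hn'
    obtain ⟨-, h2, h3, h4⟩ := G.sys n hn'.1.le hn'.2
    have h5 := pointwise f (u := u) G.T1 G.z1 G.zg hT0.le (fun i => by linarith [(h2 i).1]) (fun i => (h2 i).2.1)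
      (fun i => (h2 i).2.2) h3 h4 hu
    refine h5.trans ?_
    rw [hδ]
    refine add_le_add (add_le_add_left (add_le_add_left ?_ _) _) ?_
    · apply mul_le_mul_of_nonneg_left _ (by positivity)
      have := Real.log_le_sub_one_of_pos hT0
      linarith
    · exact mul_le_mul_of_nonneg_right G.invV (by positivity)
  refine (abs_sum_le_sum_abs _ _).trans ((sum_le_sum h1).trans ?_)
  rw [sum_const, nsmul_eq_mul]
  apply mul_le_mul_of_nonneg_right _ hδ0
  have h2 : S.card ≤ x := by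
    have h3 : S.card ≤ (Ioc (mz x) x).card := card_le_card fun n hn => (mf'.mp hn).1
    rw [Nat.card_Ioc] at h3
    omega
  exact_mod_cast h2

end Pool.Agent.W2helper64.BH
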