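import Pool.Agent.W2helper64.BH.Main

set_option autoImplicit false
set_option linter.unusedSectionVars false

/-!
The asymptotic formula, almost surely: the final form.
-/

namespace Pool.Agent.W2helper64.BH

open Finset Filter Topology Polynomial MeasureTheory Pool.Agent.W2helper64.RS Pool.Agent.W2helper64.RK
open Pool.Agent.H373R2.T7 (pz nuB PerB sys_count nuB_le mem_pz)

/-- the number of `n ≤ x` all of whose values lie in the random set -/
noncomputable def cnt {g : ℕ} (f : Fin g → ℤ[X]) (a : (p : Nat.Primes) → ZMod (p : ℕ)) (x : ℕ) : ℕ :=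
  (@Finset.filter ℕ (AllR f a) (Classical.decPred _) (Icc 1 x)).card

/-- the main term -/
noncomputable def HH {g : ℕ} (f : Fin g → ℤ[X]) (x : ℕ) : ℝ :=
  ∑ n ∈ @Finset.filter ℕ (fun n => ∀ i, 8 ≤ (f i).eval (n : ℤ)) (Classical.decPred _) (Icc 1 x),
    ∏ i, (1 / Real.log (((f i).eval (n : ℤ) : ℤ) : ℝ))

theorem card_split (P : ℕ → Prop) (m x : ℕ) (hmx : m ≤ x) :
    ((@Finset.filter ℕ P (Classical.decPred _) (Icc 1 x)).card : ℝ) =
      (@Finset.filter ℕ P (Classical.decPred _) (Icc 1 m)).card +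
      (@Finset.filter ℕ P (Classical.decPred _) (Ioc m x)).card := by
  classical
  rw [← Nat.cast_add, ← card_union_of_disjoint]
  · congr 2
    ext n
    simp only [Finset.mem_union, mf', mem_Icc, mem_Ioc]
    constructor
    · rintro ⟨h7, h8⟩
      rcases le_or_gt n m with h9 | h9
      · exact Or.inl ⟨⟨h7.1, h9⟩, h8⟩
      · exact Or.inr ⟨⟨h9, h7.2⟩, h8⟩
    · rintro (⟨h7, h8⟩ | ⟨h7, h8⟩)
      · exact ⟨⟨h7.1, by omega⟩, h8⟩
      · exact ⟨⟨by omega, h7.2⟩, h8⟩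
  · rw [Finset.disjoint_left]
    intro n h7 h8
    rw [mf', mem_Icc] at h7
    rw [mf', mem_Ioc] at h8
    omega

theorem cnt_close {g : ℕ} {f : Fin g → ℤ[X]} {k E x : ℕ} (G : Good f k E x)
    (a : (p : Nat.Primes) → ZMod (p : ℕ)) :
    |(cnt f a x : ℝ) - NN f k x ((PX (TT k x)).restrict a)| ≤ mz x := by
  classical
  unfold cnt
  rw [card_split _ (mz x) x G.mzx]
  have h1 : ((@Finset.filter ℕ (AllR f a) (Classical.decPred _) (Ioc (mz x) x)).card : ℝ) =
      NN f k x ((PX (TT k x)).restrict a) := by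
    unfold NN
    congr 2
    ext n
    unfold survW
    rw [mf', Finset.mem_filter]
    refine and_congr_right fun hn => ?_
    rw [mem_Ioc] at hn
    rw [R_iff G a hn.1 hn.2]
    simp
  rw [h1, add_sub_cancel_right, abs_of_nonneg (Nat.cast_nonneg _)]
  have h2 : (@Finset.filter ℕ (AllR f a) (Classical.decPred _) (Icc 1 (mz x))).card ≤ (Icc 1 (mz x)).card :=
    card_le_card fun n hn => (mf'.mp hn).1
  rw [Nat.card_Icc, Nat.add_sub_cancel] at h2
  exact_mod_cast h2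

theorem log8 : (2 : ℝ) ≤ Real.log 8 := by
  rw [Real.le_log_iff_exp_le (by norm_num)]
  have : Real.exp 2 = Real.exp 1 * Real.exp 1 := by rw [← Real.exp_add]; norm_num
  rw [this]
  have := Real.exp_one_lt_d9
  have := Real.exp_pos 1
  nlinarith

theorem HH_close {g : ℕ} {f : Fin g → ℤ[X]} {k E x : ℕ} (G : Good f k E x) :
    |HH f x - ∑ n ∈ Ioc (mz x) x, hh f n| ≤ mz x := by
  classical
  have hsplit : @Finset.filter ℕ (fun n => ∀ i, 8 ≤ (f i).eval (n : ℤ)) (Classical.decPred _) (Icc 1 x) =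
      @Finset.filter ℕ (fun n => ∀ i, 8 ≤ (f i).eval (n : ℤ)) (Classical.decPred _) (Icc 1 (mz x)) ∪
        Ioc (mz x) x := by
    ext n
    simp only [Finset.mem_union, mf', mem_Icc, mem_Ioc]
    have hm := G.mzx
    constructor
    · rintro ⟨h7, h8⟩
      rcases le_or_gt n (mz x) with h9 | h9
      · exact Or.inl ⟨⟨h7.1, h9⟩, h8⟩
      · exact Or.inr ⟨h9, h7.2⟩
    · rintro (⟨h7, h8⟩ | h7)
      · exact ⟨⟨h7.1, by omega⟩, h8⟩
      · exact ⟨⟨by omega, h7.2⟩, (G.sys n h7.1.le h7.2).1⟩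
  unfold HH
  rw [hsplit, sum_union]
  · have h1 : ∑ n ∈ Ioc (mz x) x, ∏ i, (1 / Real.log (((f i).eval (n : ℤ) : ℤ) : ℝ)) =
        ∑ n ∈ Ioc (mz x) x, hh f n := rfl
    rw [h1, add_sub_cancel_right]
    have h2 : ∀ n ∈ @Finset.filter ℕ (fun n => ∀ i, 8 ≤ (f i).eval (n : ℤ)) (Classical.decPred _) (Icc 1 (mz x)),
        0 ≤ ∏ i, (1 / Real.log (((f i).eval (n : ℤ) : ℤ) : ℝ)) ∧
        ∏ i, (1 / Real.log (((f i).eval (n : ℤ) : ℤ) : ℝ)) ≤ 1 := by
      intro n hn
      have h3 := (mf'.mp hn).2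
      have h4 : ∀ i, 2 ≤ Real.log (((f i).eval (n : ℤ) : ℤ) : ℝ) := by
        intro i
        refine log8.trans (Real.log_le_log (by norm_num) ?_)
        exact_mod_cast h3 i
      refine ⟨prod_nonneg fun i _ => ?_, prod_le_one (fun i _ => ?_) fun i _ => ?_⟩
      · have := h4 i; positivity
      · have := h4 i; positivity
      · have := h4 i
        rw [div_le_one (by linarith)]; linarith
    rw [abs_of_nonneg (sum_nonneg fun n hn => (h2 n hn).1)]
    refine (sum_le_sum fun n hn => (h2 n hn).2).trans ?_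
    rw [sum_const, nsmul_eq_mul, mul_one]
    have h5 : (@Finset.filter ℕ (fun n => ∀ i, 8 ≤ (f i).eval (n : ℤ)) (Classical.decPred _) (Icc 1 (mz x))).card ≤
        (Icc 1 (mz x)).card := card_le_card fun n hn => (mf'.mp hn).1
    rw [Nat.card_Icc, Nat.add_sub_cancel] at h5
    exact_mod_cast h5
  · rw [Finset.disjoint_left]
    intro n h7 h8
    rw [mf', mem_Icc] at h7
    rw [mem_Ioc] at h8
    omega

theorem quarter_bound {L z : ℝ} {W : ℕ} (hL : 1 ≤ L) (hz : L ^ (4 * W) / 2 ≤ z) :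
    z ^ (-(1 / 4) : ℝ) ≤ 2 / L ^ W := by
  have hL0 : 0 < L := by linarith
  have h1 : L ^ (4 * W) / 16 ≤ z := by
    have : 0 < L ^ (4 * W) := by positivity
    linarith
  have h2 : (L ^ W / 2) ≤ z ^ (1 / 4 : ℝ) := by
    have e1 : L ^ W / 2 = ((L ^ W / 2) ^ (4 : ℕ)) ^ (1 / 4 : ℝ) := by
      rw [← Real.rpow_natCast (L ^ W / 2) 4, ← Real.rpow_mul (by positivity)]
      norm_num
    rw [e1]
    apply Real.rpow_le_rpow (by positivity) _ (by norm_num)
    refine le_trans (le_of_eq ?_) h1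
    rw [div_pow, ← pow_mul, mul_comm W 4]
    norm_num
  have hz0 : 0 < z := by
    have : 0 < L ^ (4 * W) := by positivity
    linarith
  rw [Real.rpow_neg hz0.le, ← one_div]
  rw [div_le_div_iff₀ (by positivity) (by positivity)]
  linarith

theorem ae_one {g : ℕ} (f : Fin g → ℤ[X]) (hd : ∀ i, 0 < (f i).natDegree)
    (hl : ∀ i, 0 < (f i).leadingCoeff) (hinj : Function.Injective f) (U : ℕ) :
    ∀ᵐ a ∂law, ∀ S C : ℝ, 0 ≤ C → 0 ≤ S →
      (∀ᶠ z : ℕ in atTop, |PP f a z / V z ^ g - S| ≤ C * (z : ℝ) ^ (-(1 / 4) : ℝ)) →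
      (fun x : ℕ => (cnt f a x : ℝ) - S * HH f x) =O[atTop] fun x : ℕ => (x : ℝ) / Real.log x ^ U := by
  set k : ℕ := ∑ i, (f i).natDegree + 1 with hk
  have hk1 : 1 ≤ k := by omega
  have hk2 : ∑ i, (f i).natDegree ≤ k := by omega
  set E : ℕ := 4 * (U + 2) with hE
  filter_upwards [ae_conc f k hk1 hd hl hk2 U E (by omega)] with a ha S C hC0 hS0 hrate
  obtain ⟨Z0, hZ0⟩ := eventually_atTop.mp hrate
  apply Asymptotics.IsBigO.of_bound (2 + C0 g k U + 2 * C + 2 * S)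
  filter_upwards [ha, ev_good f k hd hl hk2 hinj E (by omega), count_phase f k hd hl hk2 E (U + 1),
    ev_log (2 * Z0 + 2), ev_pow (2 * U), eventually_ge_atTop 1] with x h1 G h2 h3 h4 h5
  set L : ℝ := Real.log x with hLd
  have hL1 : 1 ≤ L := by
    have := G.L1
    linarith
  have hL0 : 0 < L := by linarith
  have hx0 : (0 : ℝ) < x := by exact_mod_cast h5
  have hLU : 0 < L ^ U := by positivity
  set X : ℝ := x / L ^ U with hX
  have hX0 : 0 ≤ X := by positivity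
  -- the starting segment
  have hsx : √(x : ℝ) ≤ X := by
    rw [hX, le_div_iff₀ hLU]
    have e1 : L ^ U ≤ √(x : ℝ) := by
      apply Real.le_sqrt_of_sq_le
      rw [← pow_mul, mul_comm U 2]
      exact h4
    calc √(x : ℝ) * L ^ U ≤ √(x : ℝ) * √(x : ℝ) := mul_le_mul_of_nonneg_left e1 (Real.sqrt_nonneg _)
      _ = x := Real.mul_self_sqrt hx0.le
  have hmX : (mz x : ℝ) ≤ 2 * X := by
    have := G.mzsq
    linarith
  have c1 := cnt_close G a
  have c2 := NN_close G (by omega : U + 1 ≤ E) a h1.1 h1.2 (h2 a)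
  have c3 := HH_close G
  set H : ℝ := ∑ n ∈ Ioc (mz x) x, hh f n with hH
  have hHx : 0 ≤ H ∧ H ≤ x := by
    constructor
    · refine sum_nonneg fun n hn => ?_
      rw [mem_Ioc] at hn
      exact (hh_facts G n hn.1.le).1
    · have e1 : H ≤ ∑ _n ∈ Ioc (mz x) x, (1 : ℝ) := sum_le_sum fun n hn => by
        rw [mem_Ioc] at hn
        exact (hh_facts G n hn.1.le).2.1
      rw [sum_const, nsmul_eq_mul, mul_one, Nat.card_Ioc] at e1
      refine e1.trans ?_
      exact_mod_cast Nat.sub_le _ _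
  -- the rate
  have hzlow := G.zlow
  have hLE : L ≤ L ^ E := le_self_pow₀ hL1 (by omega)
  have hzZ : Z0 ≤ zz E x := by
    have : (Z0 : ℝ) ≤ zz E x := by linarith
    exact_mod_cast this
  have c4 := hZ0 (zz E x) hzZ
  have c5 : ((zz E x : ℕ) : ℝ) ^ (-(1 / 4) : ℝ) ≤ 2 / L ^ (U + 2) := quarter_bound hL1 hzlow
  have c6 : |PP f a (zz E x) / V (zz E x) ^ g * H - S * H| ≤ 2 * C * X := by
    rw [← sub_mul, abs_mul, abs_of_nonneg hHx.1]
    calc |PP f a (zz E x) / V (zz E x) ^ g - S| * H ≤ (C * (2 / L ^ (U + 2))) * x :=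
          mul_le_mul (c4.trans (mul_le_mul_of_nonneg_left c5 hC0)) hHx.2 hHx.1 (by positivity)
      _ = 2 * C * (x / L ^ (U + 2)) := by ring
      _ ≤ 2 * C * X := by
          apply mul_le_mul_of_nonneg_left _ (by positivity)
          rw [hX]
          apply div_le_div_of_nonneg_left hx0.le hLU
          exact pow_le_pow_right₀ hL1 (by omega)
  have c7 : |S * H - S * HH f x| ≤ S * (2 * X) := by
    rw [← mul_sub, abs_mul, abs_of_nonneg hS0, abs_sub_comm]
    exact mul_le_mul_of_nonneg_left (c3.trans hmX) hS0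
  rw [Real.norm_eq_abs, Real.norm_eq_abs, abs_of_nonneg hX0]
  set N := NN f k x ((PX (TT k x)).restrict a)
  set Q := PP f a (zz E x) / V (zz E x) ^ g * H
  have e : (cnt f a x : ℝ) - S * HH f x = ((cnt f a x : ℝ) - N) + (N - Q) + (Q - S * H) + (S * H - S * HH f x) := by
    ring
  rw [e]
  have t1 := abs_add_le (((cnt f a x : ℝ) - N) + (N - Q) + (Q - S * H)) (S * H - S * HH f x)
  have t2 := abs_add_le (((cnt f a x : ℝ) - N) + (N - Q)) (Q - S * H)
  have t3 := abs_add_le ((cnt f a x : ℝ) - N) (N - Q)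
  have hfin : (2 + C0 g k U + 2 * C + 2 * S) * X = 2 * X + C0 g k U * X + 2 * C * X + S * (2 * X) := by ring
  rw [hfin]
  linarith

/-- the final form -/
theorem ae_final : ∀ᵐ a ∂law, ∀ (g : ℕ) (f : Fin g → ℤ[X]), Function.Injective f →
    (∀ i, 0 < (f i).natDegree) → (∀ i, 0 < (f i).leadingCoeff) →
      ∃ S : ℝ, 0 ≤ S ∧ Tendsto (fun z : ℕ => PP f a z / V z ^ g) atTop (𝓝 S) ∧
        (0 < S ↔ ∀ p : Nat.Primes, nuB (Hit f a) (p : ℕ) < (p : ℕ)) ∧
        ∀ U : ℕ, (fun x : ℕ => (cnt f a x : ℝ) - S * HH f x) =O[atTop] fun x : ℕ => (x : ℝ) / Real.log x ^ U := by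
  rw [ae_all_iff]
  intro g
  rw [ae_all_iff]
  intro f
  by_cases hf : Function.Injective f ∧ (∀ i, 0 < (f i).natDegree) ∧ (∀ i, 0 < (f i).leadingCoeff)
  swap
  · refine Eventually.of_forall fun a h1 h2 h3 => ?_
    exact absurd ⟨h1, h2, h3⟩ hf
  obtain ⟨hinj, hd, hl⟩ := hf
  have h1 : ∀ᵐ a ∂law, ∀ U : ℕ, ∀ S C : ℝ, 0 ≤ C → 0 ≤ S →
      (∀ᶠ z : ℕ in atTop, |PP f a z / V z ^ g - S| ≤ C * (z : ℝ) ^ (-(1 / 4) : ℝ)) →
      (fun x : ℕ => (cnt f a x : ℝ) - S * HH f x) =O[atTop] fun x : ℕ => (x : ℝ) / Real.log x ^ U := by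
    rw [ae_all_iff]
    exact fun U => ae_one f hd hl hinj U
  filter_upwards [h1, ae_SS f (∑ i, (f i).natDegree + 1) (by omega) hd hl (by omega) hinj] with a h2 h3 _ _ _
  obtain ⟨S, hS0, hS1, hS2, C, hC, hrate⟩ := h3
  exact ⟨S, hS0, hS1, hS2, fun U => h2 U S C hC hS0 hrate⟩

end Pool.Agent.W2helper64.BH
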