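import Pool.Agent.W2helper64.BH.Ser2

set_option autoImplicit false
set_option linter.unusedSectionVars false

/-!
The singular series of a system of polynomials, almost surely: convergence.
-/

namespace Pool.Agent.W2helper64.BH

open Finset Filter Topology Polynomial MeasureTheory Pool.Agent.W2helper64.RS Pool.Agent.W2helper64.RK
open Pool.Agent.H373R2.T7 (pz nuB PerB sys_count nuB_le mem_pz)

/-- the threshold -/
noncomputable def BB {g : ℕ} (f : Fin g → ℤ[X]) (k : ℕ) : ℕ := lcs f + dlc f + 2 * k + 2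

/-- the centered variables -/
noncomputable def Yf {g : ℕ} (f : Fin g → ℤ[X]) (k : ℕ) (p : Nat.Primes) (r : ZMod (p : ℕ)) : ℝ :=
  if BB f k < (p : ℕ) then ((nuR f (p : ℕ) r : ℝ) - (∑ s : ZMod (p : ℕ), (nuR f (p : ℕ) s : ℝ)) / (p : ℕ)) / (p : ℕ)
  else 0

theorem nuR_le {g : ℕ} (f : Fin g → ℤ[X]) (k : ℕ) (hd : ∀ i, 0 < (f i).natDegree)
    (hl : ∀ i, 0 < (f i).leadingCoeff) (hk : ∑ i, (f i).natDegree ≤ k) (p : Nat.Primes) (hp : lcs f < (p : ℕ))
    (r : ZMod (p : ℕ)) : nuR f (p : ℕ) r ≤ k := by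
  classical
  unfold nuR
  have h3 : (range (p : ℕ)).filter (fun m => r ∈ Im f (p : ℕ) m) ⊆ univ.biUnion fun i : Fin g =>
      (range (p : ℕ)).filter fun m => (((f i).eval (m : ℤ) : ℤ) : ZMod (p : ℕ)) = r := by
    intro m hm
    rw [mf', mem_Im] at hm
    obtain ⟨hm1, i, hi⟩ := hm
    rw [mem_biUnion]
    exact ⟨i, Finset.mem_univ _, Finset.mem_filter.mpr ⟨hm1, hi⟩⟩
  refine le_trans (le_of_eq ?_) ((card_le_card h3).trans (card_biUnion_le.trans (le_trans (sum_le_sum fun i _ => ?_) hk)))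
  · congr
  refine few_val (f i) p.2 (hd i) (lcs_ndvd f hl hp i) r _ fun m hm => ?_
  rw [Finset.mem_filter, mem_range] at hm
  exact hm

theorem Yf_sum {g : ℕ} (f : Fin g → ℤ[X]) (k : ℕ) (p : Nat.Primes) : ∑ r, Yf f k p r = 0 := by
  unfold Yf
  by_cases h : BB f k < (p : ℕ)
  · simp only [if_pos h]
    have hp0 : (0 : ℝ) < (p : ℕ) := by exact_mod_cast p.2.pos
    rw [← sum_div, sum_sub_distrib, sum_const, card_univ, ZMod.card, nsmul_eq_mul]
    rw [mul_div_cancel₀ _ hp0.ne', sub_self, zero_div]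
  · simp only [if_neg h, sum_const_zero]

theorem Yf_bound {g : ℕ} (f : Fin g → ℤ[X]) (k : ℕ) (hd : ∀ i, 0 < (f i).natDegree)
    (hl : ∀ i, 0 < (f i).leadingCoeff) (hk : ∑ i, (f i).natDegree ≤ k) (p : Nat.Primes) (r : ZMod (p : ℕ)) :
    |Yf f k p r| ≤ (k : ℝ) / (p : ℕ) := by
  have hp0 : (0 : ℝ) < (p : ℕ) := by exact_mod_cast p.2.pos
  unfold Yf
  split_ifs with h
  · have h1 : ∀ s, (nuR f (p : ℕ) s : ℝ) ≤ k := by
      intro s
      have : lcs f < (p : ℕ) := by unfold BB at h; omega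
      exact_mod_cast nuR_le f k hd hl hk p this s
    have h2 : (∑ s : ZMod (p : ℕ), (nuR f (p : ℕ) s : ℝ)) / (p : ℕ) ≤ k := by
      rw [div_le_iff₀ hp0]
      refine (sum_le_sum fun s _ => h1 s).trans ?_
      rw [sum_const, card_univ, ZMod.card, nsmul_eq_mul, mul_comm]
    have h3 : 0 ≤ (∑ s : ZMod (p : ℕ), (nuR f (p : ℕ) s : ℝ)) / (p : ℕ) :=
      div_nonneg (sum_nonneg fun _ _ => Nat.cast_nonneg _) hp0.le
    rw [abs_div, abs_of_pos hp0]
    apply div_le_div_of_nonneg_right _ hp0.le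
    rw [abs_le]
    have h4 := h1 r
    have h5 : (0 : ℝ) ≤ nuR f (p : ℕ) r := Nat.cast_nonneg _
    constructor <;> linarith
  · rw [abs_zero]
    positivity

theorem log_one {x : ℝ} (h0 : 0 ≤ x) (h1 : x ≤ 1 / 2) : |x + Real.log (1 - x)| ≤ 2 * x ^ 2 := by
  have h := Real.abs_log_sub_add_sum_range_le (x := x) (by rw [abs_of_nonneg h0]; linarith) 1
  simp only [sum_range_one, zero_add, pow_one, Nat.cast_zero, zero_add, div_one] at h
  refine h.trans ?_
  rw [abs_of_nonneg h0, div_le_iff₀ (by linarith)]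
  have : x ^ (1 + 1) = x ^ 2 := rfl
  rw [this]
  nlinarith [sq_nonneg x]

theorem log_expand {q ν M C1 : ℝ} {g k : ℕ} (hq : 2 * (k : ℝ) + 2 ≤ q) (hν0 : 0 ≤ ν) (hν : ν ≤ k)
    (hM : |M - g * q| ≤ C1) :
    |Real.log ((1 - ν / q) / (1 - 1 / q) ^ g) + (ν - M / q) / q| ≤ (2 * (k : ℝ) ^ 2 + 2 * g + C1) / q ^ 2 := by
  have hk0 : (0 : ℝ) ≤ k := Nat.cast_nonneg _
  have hg0 : (0 : ℝ) ≤ g := Nat.cast_nonneg _
  have hq0 : 0 < q := by linarith
  have e1 : ν / q ≤ 1 / 2 := by rw [div_le_div_iff₀ hq0 (by norm_num)]; linarith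
  have e2 : 1 / q ≤ 1 / 2 := by rw [div_le_div_iff₀ hq0 (by norm_num)]; linarith
  have e3 : 0 ≤ ν / q := by positivity
  have e4 : 0 ≤ 1 / q := by positivity
  have h1 := log_one e3 e1
  have h2 := log_one e4 e2
  have h3 : Real.log ((1 - ν / q) / (1 - 1 / q) ^ g) = Real.log (1 - ν / q) - g * Real.log (1 - 1 / q) := by
    rw [Real.log_div (by linarith) (pow_ne_zero _ (by linarith)), Real.log_pow]
  have h4 : Real.log ((1 - ν / q) / (1 - 1 / q) ^ g) + (ν - M / q) / q =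
      (ν / q + Real.log (1 - ν / q)) - g * (1 / q + Real.log (1 - 1 / q)) - (M - g * q) / q ^ 2 := by
    rw [h3]
    field_simp
    ring
  rw [h4]
  have h5 : |(M - g * q) / q ^ 2| ≤ C1 / q ^ 2 := by
    rw [abs_div, abs_of_pos (by positivity : (0 : ℝ) < q ^ 2)]
    exact div_le_div_of_nonneg_right hM (by positivity)
  have h6 : 2 * (ν / q) ^ 2 ≤ 2 * (k : ℝ) ^ 2 / q ^ 2 := by
    rw [div_pow, mul_div_assoc]
    apply mul_le_mul_of_nonneg_left _ (by norm_num)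
    exact div_le_div_of_nonneg_right (pow_le_pow_left₀ hν0 hν 2) (by positivity)
  have h7 : |(g : ℝ) * (1 / q + Real.log (1 - 1 / q))| ≤ 2 * g / q ^ 2 := by
    rw [abs_mul, abs_of_nonneg hg0]
    calc (g : ℝ) * |1 / q + Real.log (1 - 1 / q)| ≤ g * (2 * (1 / q) ^ 2) := mul_le_mul_of_nonneg_left h2 hg0
      _ = 2 * g / q ^ 2 := by field_simp
  have h8 := abs_sub (ν / q + Real.log (1 - ν / q) - g * (1 / q + Real.log (1 - 1 / q))) ((M - g * q) / q ^ 2)
  have h9 := abs_sub (ν / q + Real.log (1 - ν / q)) (g * (1 / q + Real.log (1 - 1 / q)))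
  have h10 : (2 * (k : ℝ) ^ 2 + 2 * g + C1) / q ^ 2 = 2 * (k : ℝ) ^ 2 / q ^ 2 + 2 * g / q ^ 2 + C1 / q ^ 2 := by
    rw [← add_div, ← add_div]
  rw [h10]
  linarith

/-- one factor of the singular series -/
noncomputable def FF {g : ℕ} (f : Fin g → ℤ[X]) (a : (p : Nat.Primes) → ZMod (p : ℕ)) (p : ℕ) : ℝ :=
  (1 - (nuB (Hit f a) p : ℝ) / p) / (1 - 1 / (p : ℝ)) ^ g

theorem prod_Pr (G : ℕ → ℝ) (z : ℕ) : ∏ p ∈ pz z, G p = ∏ p ∈ Pr 0 z, G (p : ℕ) := by
  symm
  refine prod_bij (fun p _ => (p : ℕ)) ?_ ?_ ?_ ?_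
  · intro p hp
    rw [mem_pz]
    exact ⟨(mem_Pr.mp hp).2, p.2⟩
  · intro p _ q _ h
    exact Subtype.ext h
  · intro p hp
    obtain ⟨h1, h2⟩ := mem_pz.1 hp
    exact ⟨⟨p, h2⟩, mem_Pr.mpr ⟨h2.pos, h1⟩, rfl⟩
  · intro p _
    rfl

theorem Pr_union {x y z : ℕ} (hxy : x ≤ y) (hyz : y ≤ z) : Pr x z = Pr x y ∪ Pr y z := by
  classical
  ext p
  rw [Finset.mem_union, mem_Pr, mem_Pr, mem_Pr]
  omega

theorem Pr_disj {x y z : ℕ} : Disjoint (Pr x y) (Pr y z) := by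
  rw [Finset.disjoint_left]
  intro p h1 h2
  rw [mem_Pr] at h1 h2
  omega

theorem PP_div {g : ℕ} (f : Fin g → ℤ[X]) (a : (p : Nat.Primes) → ZMod (p : ℕ)) (z : ℕ) :
    PP f a z / V z ^ g = ∏ p ∈ Pr 0 z, FF f a (p : ℕ) := by
  rw [← prod_Pr]
  unfold FF PP V
  rw [prod_div_distrib, prod_pow]
  rfl

theorem sq_Pr {y z : ℕ} (hy : 1 ≤ y) : ∑ p ∈ Pr y z, (1 : ℝ) / ((p : ℕ) : ℝ) ^ 2 ≤ 2 / y := by
  have h1 := sq_sum_le (F := Pr y z) hy univ (fun p _ => (mem_Pr.mp p.2).1)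
  refine le_trans (le_of_eq ?_) h1
  exact (Finset.sum_coe_sort (Pr y z) (fun p : Nat.Primes => (1 : ℝ) / ((p : ℕ) : ℝ) ^ 2)).symm

theorem one_sub_nonneg {g : ℕ} (f : Fin g → ℤ[X]) (a : (p : Nat.Primes) → ZMod (p : ℕ)) (p : ℕ) :
    0 ≤ 1 - (nuB (Hit f a) p : ℝ) / p := by
  rcases Nat.eq_zero_or_pos p with h | h
  · subst h; simp
  · have hp0 : (0 : ℝ) < p := by exact_mod_cast h
    rw [sub_nonneg, div_le_one hp0]
    exact_mod_cast nuB_le _ _

theorem ae_SS {g : ℕ} (f : Fin g → ℤ[X]) (k : ℕ) (hk1 : 1 ≤ k) (hd : ∀ i, 0 < (f i).natDegree)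
    (hl : ∀ i, 0 < (f i).leadingCoeff) (hk : ∑ i, (f i).natDegree ≤ k) (hinj : Function.Injective f) :
    ∀ᵐ a ∂law, ∃ S : ℝ, 0 ≤ S ∧ Tendsto (fun z : ℕ => PP f a z / V z ^ g) atTop (𝓝 S) ∧
      (0 < S ↔ ∀ p : Nat.Primes, nuB (Hit f a) (p : ℕ) < (p : ℕ)) ∧
      ∃ C : ℝ, 0 ≤ C ∧ ∀ᶠ z : ℕ in atTop, |PP f a z / V z ^ g - S| ≤ C * (z : ℝ) ^ (-(1 / 4) : ℝ) := by
  classical
  have hk1' : (1 : ℝ) ≤ k := by exact_mod_cast hk1
  filter_upwards [ae_series (Yf f k) hk1' (Yf_sum f k) (Yf_bound f k hd hl hk)] with a ha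
  obtain ⟨y0, hy0⟩ := eventually_atTop.mp ha
  set s : ℕ → ℝ := fun z => ∑ p ∈ Pr 0 z, Yf f k p (a p) with hs
  have hs_sub : ∀ y z, y ≤ z → s z - s y = ∑ p ∈ Pr y z, Yf f k p (a p) := by
    intro y z hyz
    simp only [hs]
    rw [Pr_union (Nat.zero_le y) hyz, sum_union Pr_disj]
    ring
  set y1 : ℕ := max (max y0 16) (BB f k) with hy1
  have hy1a : y0 ≤ y1 := (le_max_left _ _).trans (le_max_left _ _)
  have hy1b : 16 ≤ y1 := (le_max_right _ _).trans (le_max_left _ _)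
  have hy1c : BB f k ≤ y1 := le_max_right _ _
  have hchain : ∀ y, y1 ≤ y → ∀ z, y ≤ z → |s z - s y| ≤ 2 * (y : ℝ) ^ (-(1 / 4) : ℝ) := by
    intro y hy z hz
    refine chain4 s y0 (fun y hy z hz hz2 => ?_) y (by omega) (by omega) z hz
    rw [hs_sub y z hz]
    exact hy0 y hy z hz hz2
  -- the factors beyond the threshold
  have hbig : ∀ p : Nat.Primes, BB f k < (p : ℕ) → (nuB (Hit f a) (p : ℕ) : ℝ) ≤ k := by
    intro p hp
    rw [nuB_eq]
    have : lcs f < (p : ℕ) := by unfold BB at hp; omega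
    exact_mod_cast nuR_le f k hd hl hk p this (a p)
  set C2 : ℝ := 2 * (k : ℝ) ^ 2 + 2 * g + g * (g ^ 2 * k) with hC2
  have hC20 : 0 ≤ C2 := by positivity
  have hfac : ∀ p : Nat.Primes, BB f k < (p : ℕ) → 0 < FF f a (p : ℕ) ∧
      |Real.log (FF f a (p : ℕ)) + Yf f k p (a p)| ≤ C2 * (1 / ((p : ℕ) : ℝ) ^ 2) := by
    intro p hp
    have hpk : 2 * (k : ℝ) + 2 ≤ ((p : ℕ) : ℝ) := by
      unfold BB at hp
      exact_mod_cast (by omega : 2 * k + 2 ≤ (p : ℕ))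
    have hp0 : (0 : ℝ) < ((p : ℕ) : ℝ) := by linarith
    have hν := hbig p hp
    constructor
    · unfold FF
      apply div_pos
      · rw [sub_pos, div_lt_one hp0]; linarith
      · apply pow_pos
        rw [sub_pos, div_lt_one hp0]; linarith
    · have hm := mean_bounds f k hk hinj p (by unfold BB at hp; omega)
      have h1 := log_expand (g := g) (k := k) hpk (Nat.cast_nonneg _) hν hm
      unfold FF Yf
      rw [if_pos hp, ← nuB_eq]
      refine h1.trans (le_of_eq ?_)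
      rw [hC2]; ring
  set E : ℕ → ℝ := fun z => ∑ p ∈ Pr y1 z, Real.log (FF f a (p : ℕ)) with hE
  have hE_sub : ∀ y z, y1 ≤ y → y ≤ z → E z - E y = ∑ p ∈ Pr y z, Real.log (FF f a (p : ℕ)) := by
    intro y z hy hyz
    simp only [hE]
    rw [Pr_union hy hyz, sum_union Pr_disj]
    ring
  have hErate : ∀ y, y1 ≤ y → ∀ z, y ≤ z → |E z - E y| ≤ (2 + 2 * C2) * (y : ℝ) ^ (-(1 / 4) : ℝ) := by
    intro y hy z hz
    have hyr : (1 : ℝ) ≤ y := by exact_mod_cast (by omega : 1 ≤ y)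
    have h1 := hchain y hy z hz
    have h2 : |(E z - E y) + (s z - s y)| ≤ C2 * (2 / y) := by
      rw [hE_sub y z hy hz, hs_sub y z hz, ← sum_add_distrib]
      refine (abs_sum_le_sum_abs _ _).trans ?_
      have h3 : ∀ p ∈ Pr y z, |Real.log (FF f a (p : ℕ)) + Yf f k p (a p)| ≤ C2 * (1 / ((p : ℕ) : ℝ) ^ 2) := by
        intro p hp
        exact (hfac p (by have := (mem_Pr.mp hp).1; omega)).2
      refine (sum_le_sum h3).trans ?_
      rw [← mul_sum]
      exact mul_le_mul_of_nonneg_left (sq_Pr (by omega)) hC20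
    have h4 : 1 / (y : ℝ) ≤ (y : ℝ) ^ (-(1 / 4) : ℝ) := by
      have : 1 / (y : ℝ) = (y : ℝ) ^ (-1 : ℝ) := by
        rw [Real.rpow_neg_one, one_div]
      rw [this]
      exact Real.rpow_le_rpow_of_exponent_le hyr (by norm_num)
    have h5 : C2 * (2 / y) ≤ 2 * C2 * (y : ℝ) ^ (-(1 / 4) : ℝ) := by
      have : C2 * (2 / y) = 2 * C2 * (1 / (y : ℝ)) := by ring
      rw [this]
      exact mul_le_mul_of_nonneg_left h4 (by positivity)
    have h6 := abs_sub ((E z - E y) + (s z - s y)) (s z - s y)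
    rw [add_sub_cancel_right] at h6
    linarith
  obtain ⟨e, he1, he2⟩ := cauchy_rate E y1 hErate
  -- the partial products
  have hSS : ∀ z, y1 ≤ z → PP f a z / V z ^ g = PP f a y1 / V y1 ^ g * Real.exp (E z) := by
    intro z hz
    rw [PP_div, PP_div, Pr_union (Nat.zero_le y1) hz, prod_union Pr_disj]
    congr 1
    simp only [hE]
    rw [Real.exp_sum]
    refine prod_congr rfl fun p hp => ?_
    rw [Real.exp_log (hfac p (by have := (mem_Pr.mp hp).1; omega)).1]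
  set S1 : ℝ := PP f a y1 / V y1 ^ g with hS1
  have hPP0 : ∀ z, 0 ≤ PP f a z := fun z => prod_nonneg fun p _ => one_sub_nonneg f a p
  have hS10 : 0 ≤ S1 := div_nonneg (hPP0 y1) (pow_nonneg (V_nonneg _) _)
  refine ⟨S1 * Real.exp e, by positivity, ?_, ?_, ?_⟩
  · have h1 : Tendsto (fun z => S1 * Real.exp (E z)) atTop (𝓝 (S1 * Real.exp e)) :=
      ((Real.continuous_exp.tendsto e).comp he1).const_mul S1
    refine h1.congr' ?_
    filter_upwards [eventually_ge_atTop y1] with z hz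
    exact (hSS z hz).symm
  · constructor
    · intro hpos p
      by_contra hcon
      have heq : nuB (Hit f a) (p : ℕ) = (p : ℕ) := le_antisymm (nuB_le _ _) (not_lt.mp hcon)
      have hpy : (p : ℕ) ≤ y1 := by
        by_contra h2
        have h3 := hbig p (by omega)
        rw [heq] at h3
        have h4 : (p : ℕ) ≤ k := by exact_mod_cast h3
        unfold BB at hy1c
        omega
      have h5 : PP f a y1 = 0 := by
        unfold PP
        apply prod_eq_zero (i := (p : ℕ)) (mem_pz.2 ⟨hpy, p.2⟩)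
        rw [heq]
        have hp0 : (0 : ℝ) < ((p : ℕ) : ℝ) := by exact_mod_cast p.2.pos
        rw [div_self hp0.ne', sub_self]
      rw [hS1, h5, zero_div, zero_mul] at hpos
      exact lt_irrefl _ hpos
    · intro hall
      apply mul_pos _ (Real.exp_pos _)
      apply div_pos _ (pow_pos (V_pos _) _)
      unfold PP
      refine prod_pos fun p hp => ?_
      obtain ⟨-, hpp⟩ := mem_pz.1 hp
      have h1 := hall ⟨p, hpp⟩
      have h2 : nuB (Hit f a) p < p := h1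
      have hp0 : (0 : ℝ) < (p : ℝ) := by exact_mod_cast hpp.pos
      rw [sub_pos, div_lt_one hp0]
      exact_mod_cast h2
  · refine ⟨S1 * Real.exp e * (2 * (2 + 2 * C2)), by positivity, ?_⟩
    have ht : Tendsto (fun y : ℕ => (2 + 2 * C2) * (y : ℝ) ^ (-(1 / 4) : ℝ)) atTop (𝓝 0) := by
      have := ((tendsto_rpow_neg_atTop (show (0 : ℝ) < 1 / 4 by norm_num)).comp
        tendsto_natCast_atTop_atTop).const_mul (2 + 2 * C2)
      rw [mul_zero] at this
      exact this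
    filter_upwards [ht.eventually (gt_mem_nhds (show (0 : ℝ) < 1 by norm_num)), eventually_ge_atTop y1] with z hz1 hz2
    have h1 := he2 z hz2
    have h2 : |E z - e| ≤ 1 := by linarith
    have h3 := Real.abs_exp_sub_one_le h2
    have h4 : PP f a z / V z ^ g - S1 * Real.exp e = S1 * Real.exp e * (Real.exp (E z - e) - 1) := by
      rw [hSS z hz2, Real.exp_sub]
      have := (Real.exp_pos e).ne'
      field_simp
    rw [h4, abs_mul, abs_of_nonneg (by positivity : 0 ≤ S1 * Real.exp e), mul_assoc (S1 * Real.exp e)]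
    apply mul_le_mul_of_nonneg_left _ (by positivity)
    linarith

end Pool.Agent.W2helper64.BH
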