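import Pool.Agent.W2helper64.BH.Det2
import Pool.Agent.W2helper64.BH.Ser3

set_option autoImplicit false
set_option linter.unusedSectionVars false

/-!
The asymptotic formula, almost surely.
-/

namespace Pool.Agent.W2helper64.BH

open Finset Filter Topology Polynomial MeasureTheory Pool.Agent.W2helper64.RS Pool.Agent.W2helper64.RK
open Pool.Agent.H373R2.T7 (pz nuB PerB sys_count nuB_le mem_pz)

theorem hh_facts {g : ℕ} {f : Fin g → ℤ[X]} {k E x : ℕ} (G : Good f k E x) (n : ℕ) (hn : mz x ≤ n) :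
    0 ≤ hh f n ∧ hh f n ≤ 1 ∧ hh f (n + 1) ≤ hh f n := by
  unfold hh
  have h := G.mono n hn
  have h' := G.mono (n + 1) (by omega)
  refine ⟨prod_nonneg fun i _ => ?_, prod_le_one (fun i _ => ?_) (fun i _ => ?_), prod_le_prod (fun i _ => ?_) fun i _ => ?_⟩
  · have := (h i).1; positivity
  · have := (h i).1; positivity
  · have := (h i).1
    rw [div_le_one (by linarith)]; linarith
  · have := (h' i).1; positivity
  · exact one_div_le_one_div_of_le (by linarith [(h i).1]) (h i).2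

/-- the constant -/
noncomputable def C0 (g k U : ℕ) : ℝ := 1 + 2 ^ (U + 2) + (g * (k + 1) + 4 * (g * g ^ 2) * (k + 1) + 4 * g ^ 2 + 4 * g)

theorem NN_close {g : ℕ} {f : Fin g → ℤ[X]} {k E U x : ℕ} (G : Good f k E x) (hE : U + 1 ≤ E)
    (a : (p : Nat.Primes) → ZMod (p : ℕ))
    (hc1 : NN f k x ((PX (TT k x)).restrict a) ≤
        WW f k E x (1 / Real.log x ^ (U + 2)) ((PX (TT k x)).restrict a) + x / Real.log x ^ U)
    (hc2 : WW f k E x (-(1 / Real.log x ^ (U + 2))) ((PX (TT k x)).restrict a) - x / Real.log x ^ U ≤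
        NN f k x ((PX (TT k x)).restrict a))
    (hcount : ∀ y, mz x ≤ y → y ≤ x →
      |(((@Finset.filter ℕ (fun n => ∀ p ∈ pz (zz E x), ¬ Hit f a p n) (Classical.decPred _) (Ioc (mz x) y)).card : ℕ) : ℝ) -
        ((y : ℝ) - mz x) * PP f a (zz E x)| ≤ 2 ^ (U + 1 + 1) * (x / Real.log x ^ (U + 1))) :
    |NN f k x ((PX (TT k x)).restrict a) - PP f a (zz E x) / V (zz E x) ^ g * ∑ n ∈ Ioc (mz x) x, hh f n| ≤
      C0 g k U * (x / Real.log x ^ U) := by
  have hL := G.L1
  set L : ℝ := Real.log x with hLd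
  have hL0 : 0 < L := by linarith
  have hL1 : 1 ≤ L := by linarith
  have hx0 : (0 : ℝ) ≤ x := Nat.cast_nonneg _
  have hg0 : (0 : ℝ) ≤ g := Nat.cast_nonneg _
  have hk0 : (0 : ℝ) ≤ k := Nat.cast_nonneg _
  have hLU : 0 < L ^ U := by positivity
  have hz0 : (0 : ℝ) < zz E x := by exact_mod_cast G.z1
  set z := zz E x with hz
  have hVz := V_pos z
  set I : ℝ := (1 / V z) ^ g with hI
  have hI0 : 0 ≤ I := by positivity
  set M : ℝ := ∑ n ∈ @Finset.filter ℕ (fun n => ∀ p ∈ pz z, ¬ Hit f a p n) (Classical.decPred _) (Ioc (mz x) x),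
        hh f n with hM
  set H : ℝ := ∑ n ∈ Ioc (mz x) x, hh f n with hH
  -- 1 / z
  have hzinv : 1 / (z : ℝ) ≤ 2 / L ^ (U + 1) := by
    have h1 := G.zlow
    have h2 : L ^ (U + 1) ≤ L ^ E := pow_le_pow_right₀ hL1 hE
    rw [div_le_div_iff₀ hz0 (by positivity)]
    linarith
  have hpowU : L ^ (U + 1) = L ^ U * L := pow_succ _ _
  have hle1 : 1 / L ^ (U + 1) ≤ 1 / L ^ U := one_div_le_one_div_of_le hLU (by rw [hpowU]; nlinarith)
  -- the error of the weights
  have hδ : ∀ u : ℝ, |u| = 1 / L ^ (U + 2) → |u| * g * TT k x + g * g ^ 2 * (2 * TT k x) / z + g ^ 2 * (2 / z) +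
          L * (g * (2 / z)) ≤ (g * (k + 1) + 4 * (g * g ^ 2) * (k + 1) + 4 * g ^ 2 + 4 * g) * (1 / L ^ U) := by
    intro u hu
    have hT : TT k x = (k + 1) * L := rfl
    have t1 : |u| * g * TT k x ≤ g * (k + 1) * (1 / L ^ U) := by
      rw [hu, hT]
      have : 1 / L ^ (U + 2) * g * ((k + 1) * L) = g * (k + 1) * (1 / L ^ (U + 1)) := by
        rw [show L ^ (U + 2) = L ^ (U + 1) * L by ring]
        field_simp
      rw [this]
      exact mul_le_mul_of_nonneg_left hle1 (by positivity)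
    have t2 : g * g ^ 2 * (2 * TT k x) / (z : ℝ) ≤ 4 * (g * g ^ 2) * (k + 1) * (1 / L ^ U) := by
      have e1 : g * g ^ 2 * (2 * TT k x) / (z : ℝ) = g * g ^ 2 * (2 * ((k + 1) * L)) * (1 / z) := by
        rw [hT]; ring
      rw [e1]
      calc (g : ℝ) * g ^ 2 * (2 * ((k + 1) * L)) * (1 / z) ≤ g * g ^ 2 * (2 * ((k + 1) * L)) * (2 / L ^ (U + 1)) :=
            mul_le_mul_of_nonneg_left hzinv (by positivity)
        _ = 4 * (g * g ^ 2) * (k + 1) * (1 / L ^ U) := by rw [hpowU]; field_simp; ring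
    have t3 : (g : ℝ) ^ 2 * (2 / z) ≤ 4 * g ^ 2 * (1 / L ^ U) := by
      calc (g : ℝ) ^ 2 * (2 / z) = 2 * g ^ 2 * (1 / z) := by ring
        _ ≤ 2 * g ^ 2 * (2 / L ^ (U + 1)) := mul_le_mul_of_nonneg_left hzinv (by positivity)
        _ = 4 * g ^ 2 * (1 / L ^ (U + 1)) := by ring
        _ ≤ 4 * g ^ 2 * (1 / L ^ U) := mul_le_mul_of_nonneg_left hle1 (by positivity)
    have t4 : L * (g * (2 / z)) ≤ 4 * g * (1 / L ^ U) := by
      calc L * (g * (2 / z)) = 2 * g * L * (1 / z) := by ring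
        _ ≤ 2 * g * L * (2 / L ^ (U + 1)) := mul_le_mul_of_nonneg_left hzinv (by positivity)
        _ = 4 * g * (1 / L ^ U) := by rw [hpowU]; field_simp; ring
    linarith
  have hu1 : 1 / L ^ (U + 2) ≤ 1 := by
    rw [div_le_one (by positivity)]
    exact one_le_pow₀ hL1
  have hup : |1 / L ^ (U + 2)| = 1 / L ^ (U + 2) := abs_of_nonneg (by positivity)
  have hun : |-(1 / L ^ (U + 2))| = 1 / L ^ (U + 2) := by rw [abs_neg, hup]
  set D : ℝ := (g * (k + 1) + 4 * (g * g ^ 2) * (k + 1) + 4 * g ^ 2 + 4 * g) with hD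
  have w1 := (WW_close G (u := 1 / L ^ (U + 2)) (by rw [hup]; exact hu1) a).trans
    (mul_le_mul_of_nonneg_left (hδ _ hup) hx0)
  have w2 := (WW_close G (u := -(1 / L ^ (U + 2))) (by rw [hun]; exact hu1) a).trans
    (mul_le_mul_of_nonneg_left (hδ _ hun) hx0)
  have hxD : x * (D * (1 / L ^ U)) = D * (x / L ^ U) := by ring
  rw [hxD] at w1 w2
  -- summation by parts
  have hab : |M - PP f a z * H| ≤ 2 ^ (U + 1 + 1) * (x / L ^ (U + 1)) := by
    have h1 := abel (hh f) (mz x) (fun n hn => (hh_facts G n hn).1) (fun n hn => (hh_facts G n hn).2.2)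
      (fun n => ∀ p ∈ pz z, ¬ Hit f a p n) (PP f a z) (2 ^ (U + 1 + 1) * (x / L ^ (U + 1))) x G.mzx
      (fun y h1 h2 => hcount y h1 h2)
    refine h1.trans ?_
    exact mul_le_of_le_one_right (by positivity) (hh_facts G (mz x) le_rfl).2.1
  have hab2 : |I * M - I * (PP f a z * H)| ≤ 2 ^ (U + 2) * (x / L ^ U) := by
    rw [← mul_sub, abs_mul, abs_of_nonneg hI0]
    calc I * |M - PP f a z * H| ≤ L * (2 ^ (U + 1 + 1) * (x / L ^ (U + 1))) :=
          mul_le_mul G.invV hab (abs_nonneg _) hL0.le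
      _ = 2 ^ (U + 2) * (x / L ^ U) := by rw [hpowU]; field_simp
  have hSS : PP f a z / V z ^ g * H = I * (PP f a z * H) := by
    rw [hI, one_div, inv_pow]; ring
  rw [hSS]
  have hC : C0 g k U * (x / L ^ U) = x / L ^ U + 2 ^ (U + 2) * (x / L ^ U) + D * (x / L ^ U) := by
    unfold C0; rw [← hD]; ring
  rw [hC]
  rw [abs_le] at w1 w2 hab2 ⊢
  constructor <;> linarith

/-- all values lie in the random set -/
def AllR {g : ℕ} (f : Fin g → ℤ[X]) (a : (p : Nat.Primes) → ZMod (p : ℕ)) (n : ℕ) : Prop :=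
  ∀ i, ∃ r ∈ R a, (r : ℤ) = (f i).eval (n : ℤ)

theorem R_iff {g : ℕ} {f : Fin g → ℤ[X]} {k E x : ℕ} (G : Good f k E x) (a : (p : Nat.Primes) → ZMod (p : ℕ))
    {n : ℕ} (hn1 : mz x < n) (hn2 : n ≤ x) : AllR f a n ↔
      ∀ p : {p // p ∈ PX (TT k x)}, ((PX (TT k x)).restrict a) p ∉ Ph f (p : Nat.Primes) n := by
  obtain ⟨h8, h2, -, -⟩ := G.sys n hn1.le hn2
  constructor
  · intro h p hmem
    unfold Ph at hmem
    rw [Finset.mem_image] at hmem
    obtain ⟨i, hi, hia⟩ := hmem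
    unfold rel at hi
    have hi2 := (Finset.mem_filter.mp hi).2
    obtain ⟨r, hr, hreq⟩ := h i
    obtain ⟨-, hr2⟩ := hr
    have hlam : lam f i n = Real.log r := by
      unfold lam
      rw [← hreq, Int.cast_natCast]
    rw [hlam] at hi2
    apply hr2 (p : Nat.Primes) hi2
    rw [← hreq, Int.cast_natCast] at hia
    exact hia
  · intro h i
    have h8i := h8 i
    have hto : (((f i).eval (n : ℤ)).toNat : ℤ) = (f i).eval (n : ℤ) := Int.toNat_of_nonneg (by linarith)
    refine ⟨((f i).eval (n : ℤ)).toNat, ⟨?_, ?_⟩, hto⟩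
    · have e1 : Real.exp 2 ≤ 8 := by
        have : Real.exp 2 = Real.exp 1 * Real.exp 1 := by rw [← Real.exp_add]; norm_num
        rw [this]
        have := Real.exp_one_lt_d9
        have := Real.exp_pos 1
        nlinarith
      refine e1.trans ?_
      have : 8 ≤ ((f i).eval (n : ℤ)).toNat := by omega
      exact_mod_cast this
    · intro p hp heq
      have hlam : lam f i n = Real.log (((f i).eval (n : ℤ)).toNat : ℕ) := by
        unfold lam
        rw [← Int.cast_natCast (R := ℝ), hto]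
      rw [← hlam] at hp
      have hmem : p ∈ PX (TT k x) := by
        rw [mem_PX]
        exact hp.trans (mul_le_mul_of_nonneg_left (h2 i).2.1 (V_nonneg _))
      refine h ⟨p, hmem⟩ ?_
      unfold Ph
      rw [Finset.mem_image]
      refine ⟨i, ?_, ?_⟩
      · unfold rel
        rw [Finset.mem_filter]
        exact ⟨Finset.mem_univ _, hp⟩
      · rw [← hto, Int.cast_natCast]
        exact heq

end Pool.Agent.W2helper64.BH
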