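import Pool.Agent.W2helper64.BH.Sys

set_option autoImplicit false
set_option linter.unusedSectionVars false

/-!
Facts about polynomials with integer coefficients.
-/

namespace Pool.Agent.W2helper64.BH

open Finset Filter Topology Polynomial Pool.Agent.W2helper64.RS Pool.Agent.W2helper64.RK

theorem ev_nonneg (P : ℝ[X]) (h : 0 ≤ P.leadingCoeff) : ∀ᶠ x : ℝ in atTop, 0 ≤ P.eval x := by
  obtain ⟨φ, hφ, heq⟩ := (P.isEquivalent_atTop_lead).exists_eq_mul
  filter_upwards [heq, hφ.eventually (lt_mem_nhds (show (0 : ℝ) < 1 by norm_num)), eventually_ge_atTop 0] with x h1 h2 h3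
  rw [h1]
  simp only [Pi.mul_apply]
  positivity

theorem real_facts (f : ℤ[X]) :
    (∀ n : ℕ, (f.map (Int.castRingHom ℝ)).eval (n : ℝ) = ((f.eval (n : ℤ) : ℤ) : ℝ)) ∧
    (f.map (Int.castRingHom ℝ)).natDegree = f.natDegree ∧
    (f.map (Int.castRingHom ℝ)).leadingCoeff = (f.leadingCoeff : ℝ) := by
  have hinj : Function.Injective (Int.castRingHom ℝ) := Int.cast_injective
  refine ⟨fun n => ?_, natDegree_map_eq_of_injective hinj f, ?_⟩
  · rw [Polynomial.eval_natCast_map]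
    rfl
  · rw [leadingCoeff_map_of_injective hinj]
    rfl

theorem ev_mono (f : ℤ[X]) (hd : 0 < f.natDegree) (hl : 0 < f.leadingCoeff) :
    ∀ᶠ n : ℕ in atTop, f.eval (n : ℤ) ≤ f.eval ((n + 1 : ℕ) : ℤ) := by
  obtain ⟨h1, h2, h3⟩ := real_facts f
  set P : ℝ[X] := f.map (Int.castRingHom ℝ) with hP
  have hP0 : P.natDegree ≠ 0 := by rw [h2]; omega
  have hnd : (derivative P).natDegree = P.natDegree - 1 :=
    natDegree_eq_of_degree_eq_some (degree_derivative hP0)
  have hlc : 0 ≤ (derivative P).leadingCoeff := by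
    rw [leadingCoeff, hnd, coeff_derivative]
    have e1 : P.natDegree - 1 + 1 = P.natDegree := by omega
    rw [e1]
    have : P.coeff P.natDegree = P.leadingCoeff := rfl
    rw [this, h3]
    have : (0 : ℝ) < f.leadingCoeff := by exact_mod_cast hl
    positivity
  obtain ⟨N, hN⟩ := eventually_atTop.mp (ev_nonneg (derivative P) hlc)
  have hmono : MonotoneOn (fun x : ℝ => P.eval x) (Set.Ici N) := by
    apply monotoneOn_of_deriv_nonneg (convex_Ici N) P.continuous.continuousOn P.differentiable.differentiableOn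
    intro x hx
    rw [interior_Ici] at hx
    rw [Polynomial.deriv]
    exact hN x hx.le
  filter_upwards [eventually_ge_atTop ⌈N⌉₊] with n hn
  have hn' : N ≤ n := (Nat.le_ceil N).trans (by exact_mod_cast hn)
  have h4 := hmono (show (n : ℝ) ∈ Set.Ici N from hn')
    (show ((n + 1 : ℕ) : ℝ) ∈ Set.Ici N from hn'.trans (by exact_mod_cast Nat.le_succ n))
    (by exact_mod_cast Nat.le_succ n)
  simp only at h4
  rw [h1 n, h1 (n + 1)] at h4
  exact_mod_cast h4

theorem ev_sq (f : ℤ[X]) (hd : 0 < f.natDegree) : ∀ᶠ n : ℕ in atTop, (n : ℤ) ≤ f.eval (n : ℤ) ^ 2 := by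
  obtain ⟨h1, h2, h3⟩ := real_facts f
  set P : ℝ[X] := f.map (Int.castRingHom ℝ) with hP
  have hP0 : P ≠ 0 := by
    intro h0
    rw [h0, natDegree_zero] at h2
    omega
  have hdeg : (X : ℝ[X]).degree < (P ^ 2).degree := by
    rw [degree_X, degree_eq_natDegree (pow_ne_zero 2 hP0), natDegree_pow, h2]
    exact_mod_cast (by omega : 1 < 2 * f.natDegree)
  have h4 := (div_tendsto_atTop_zero_of_degree_lt X (P ^ 2) hdeg).comp tendsto_natCast_atTop_atTop
  have h5 : ∀ᶠ n : ℕ in atTop, ¬ P.IsRoot (n : ℝ) :=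
    tendsto_natCast_atTop_atTop.eventually (eventually_atTop_not_isRoot P hP0)
  filter_upwards [h4.eventually (gt_mem_nhds (show (0 : ℝ) < 1 by norm_num)), h5] with n hn hr
  simp only [Function.comp_apply, eval_X, eval_pow, h1 n] at hn
  rw [IsRoot.def, h1 n] at hr
  have h6 : (0 : ℝ) < ((f.eval (n : ℤ) : ℤ) : ℝ) ^ 2 := by positivity
  rw [div_lt_one h6] at hn
  exact_mod_cast hn.le

theorem ev_ne (h : ℤ[X]) (h0 : h ≠ 0) : ∀ᶠ n : ℕ in atTop, h.eval (n : ℤ) ≠ 0 := by
  obtain ⟨h1, -, -⟩ := real_facts h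
  have hP0 : h.map (Int.castRingHom ℝ) ≠ 0 := by
    intro h2
    exact h0 ((Polynomial.map_injective _ Int.cast_injective) (by rw [h2, Polynomial.map_zero]))
  have h5 := (tendsto_natCast_atTop_atTop (R := ℝ)).eventually (eventually_atTop_not_isRoot _ hP0)
  filter_upwards [h5] with n hn h6
  apply hn
  rw [IsRoot.def, h1 n, h6, Int.cast_zero]

/-- the properties of the values of a system for large arguments -/
theorem ev_sys {g : ℕ} (f : Fin g → ℤ[X]) (k : ℕ) (hd : ∀ i, 0 < (f i).natDegree)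
    (hl : ∀ i, 0 < (f i).leadingCoeff) (hk : ∀ i, (f i).natDegree ≤ k) (hinj : Function.Injective f) :
    ∃ n0 : ℕ, ∀ n : ℕ, n0 ≤ n → (∀ i, 8 ≤ (f i).eval (n : ℤ) ∧ (f i).eval (n : ℤ) ≤ (n : ℤ) ^ (k + 1)) ∧
      (∀ i, 2 ≤ lam f i n ∧ Real.log n / 2 ≤ lam f i n ∧ lam f i n ≤ (k + 1) * Real.log n ∧
        lam f i n ≤ lam f i (n + 1)) ∧
      (∀ i j, i ≠ j → (f i).eval (n : ℤ) - (f j).eval (n : ℤ) ≠ 0) ∧
      (∀ i j, i ≠ j → Real.log |(((f i).eval (n : ℤ) - (f j).eval (n : ℤ) : ℤ) : ℝ)| ≤ (k + 1) * Real.log n) := by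
  have e1 : ∀ᶠ n : ℕ in atTop, ∀ i, 8 ≤ (f i).eval (n : ℤ) ∧ (f i).eval (n : ℤ) ≤ (n : ℤ) ^ (k + 1) := by
    rw [eventually_all]
    exact fun i => poly_size (f i) (hd i) (hl i) (hk i)
  have e2 : ∀ᶠ n : ℕ in atTop, ∀ i, (f i).eval (n : ℤ) ≤ (f i).eval ((n + 1 : ℕ) : ℤ) := by
    rw [eventually_all]
    exact fun i => ev_mono (f i) (hd i) (hl i)
  have e3 : ∀ᶠ n : ℕ in atTop, ∀ i, (n : ℤ) ≤ (f i).eval (n : ℤ) ^ 2 := by
    rw [eventually_all]
    exact fun i => ev_sq (f i) (hd i)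
  have e4 : ∀ᶠ n : ℕ in atTop, ∀ i j, i ≠ j → (f i).eval (n : ℤ) - (f j).eval (n : ℤ) ≠ 0 := by
    rw [eventually_all]
    intro i
    rw [eventually_all]
    intro j
    by_cases hij : i = j
    · exact Eventually.of_forall fun n h => absurd hij h
    · filter_upwards [ev_ne (f i - f j) (sub_ne_zero.mpr fun h => hij (hinj h))] with n hn _
      rwa [eval_sub] at hn
  obtain ⟨n0, hn0⟩ := eventually_atTop.mp (((e1.and e2).and (e3.and e4)).and (eventually_ge_atTop 1))
  refine ⟨n0, fun n hn => ?_⟩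
  obtain ⟨⟨⟨h1, h2⟩, ⟨h3, h4⟩⟩, h5⟩ := hn0 n hn
  obtain ⟨⟨⟨h1', -⟩, -⟩, -⟩ := hn0 (n + 1) (by omega)
  have hnr : (1 : ℝ) ≤ n := by exact_mod_cast h5
  have hup : ∀ i, (((f i).eval (n : ℤ) : ℤ) : ℝ) ≤ (n : ℝ) ^ (k + 1) := by
    intro i
    exact_mod_cast (h1 i).2
  have hlo : ∀ i, (8 : ℝ) ≤ (((f i).eval (n : ℤ) : ℤ) : ℝ) := by
    intro i
    exact_mod_cast (h1 i).1
  have hlogpow : Real.log ((n : ℝ) ^ (k + 1)) = (k + 1) * Real.log n := by
    rw [Real.log_pow]; push_cast; ring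
  refine ⟨h1, fun i => ⟨?_, ?_, ?_, ?_⟩, h4, fun i j hij => ?_⟩
  · unfold lam
    rw [Real.le_log_iff_exp_le (by linarith [hlo i])]
    refine le_trans ?_ (hlo i)
    have : Real.exp 2 = Real.exp 1 * Real.exp 1 := by rw [← Real.exp_add]; norm_num
    rw [this]
    have := Real.exp_one_lt_d9
    have := Real.exp_pos 1
    nlinarith
  · unfold lam
    have h6 : (n : ℝ) ≤ (((f i).eval (n : ℤ) : ℤ) : ℝ) ^ 2 := by exact_mod_cast h3 i
    have h7 := Real.log_le_log (by linarith) h6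
    rw [Real.log_pow] at h7
    push_cast at h7
    linarith
  · unfold lam
    rw [← hlogpow]
    exact Real.log_le_log (by linarith [hlo i]) (hup i)
  · unfold lam
    apply Real.log_le_log (by linarith [hlo i])
    exact_mod_cast h2 i
  · rw [← hlogpow]
    have h6 : (((f i).eval (n : ℤ) - (f j).eval (n : ℤ) : ℤ) : ℝ) ≠ 0 := by
      exact_mod_cast h4 i j hij
    apply Real.log_le_log (abs_pos.mpr h6)
    push_cast
    have := hup i
    have := hup j
    have := hlo i
    have := hlo j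
    rw [abs_le]
    constructor <;> linarith

/-! ### counting solutions of congruences -/

theorem roots_range {p : ℕ} (hp : p.Prime) (P : (ZMod p)[X]) (hP : P ≠ 0) (S : Finset ℕ)
    (hS : ∀ m ∈ S, m < p ∧ P.eval (m : ZMod p) = 0) : S.card ≤ P.natDegree := by
  classical
  haveI : Fact p.Prime := ⟨hp⟩
  calc S.card ≤ P.roots.toFinset.card := by
        refine card_le_card_of_injOn (fun j => ((j : ℕ) : ZMod p)) ?_ ?_
        · intro j hj
          rw [mem_coe, Multiset.mem_toFinset, mem_roots hP, IsRoot.def]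
          exact (hS j hj).2
        · intro j hj l hl h2
          have h2' : ((j : ℕ) : ZMod p) = ((l : ℕ) : ZMod p) := h2
          rw [ZMod.natCast_eq_natCast_iff] at h2'
          have h3 : j % p = l % p := h2'
          rwa [Nat.mod_eq_of_lt (hS j hj).1, Nat.mod_eq_of_lt (hS l hl).1] at h3
    _ ≤ P.roots.card := Multiset.toFinset_card_le _
    _ ≤ P.natDegree := card_roots' _

theorem few_zero (h : ℤ[X]) {p : ℕ} (hp : p.Prime) (hlc : ¬ (p : ℤ) ∣ h.leadingCoeff) (S : Finset ℕ)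
    (hS : ∀ m ∈ S, m < p ∧ ((h.eval (m : ℤ) : ℤ) : ZMod p) = 0) : S.card ≤ h.natDegree := by
  have hlc' : (Int.castRingHom (ZMod p)) h.leadingCoeff ≠ 0 := by
    intro h0
    exact hlc ((ZMod.intCast_zmod_eq_zero_iff_dvd _ _).mp h0)
  have h1 : (h.map (Int.castRingHom (ZMod p))).natDegree = h.natDegree :=
    natDegree_map_of_leadingCoeff_ne_zero _ hlc'
  rw [← h1]
  refine roots_range hp _ ?_ S fun m hm => ⟨(hS m hm).1, ?_⟩
  · intro h0
    apply hlc'
    rw [← leadingCoeff_map_of_leadingCoeff_ne_zero _ hlc', h0, leadingCoeff_zero]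
  · rw [Polynomial.eval_natCast_map]
    exact (hS m hm).2

theorem few_val (h : ℤ[X]) {p : ℕ} (hp : p.Prime) (hd : 0 < h.natDegree) (hlc : ¬ (p : ℤ) ∣ h.leadingCoeff)
    (r : ZMod p) (S : Finset ℕ)
    (hS : ∀ m ∈ S, m < p ∧ ((h.eval (m : ℤ) : ℤ) : ZMod p) = r) : S.card ≤ h.natDegree := by
  have hlc' : (Int.castRingHom (ZMod p)) h.leadingCoeff ≠ 0 := by
    intro h0
    exact hlc ((ZMod.intCast_zmod_eq_zero_iff_dvd _ _).mp h0)
  have h1 : (h.map (Int.castRingHom (ZMod p))).natDegree = h.natDegree :=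
    natDegree_map_of_leadingCoeff_ne_zero _ hlc'
  have h2 : (h.map (Int.castRingHom (ZMod p)) - C r).natDegree = h.natDegree := by
    rw [natDegree_sub_C, h1]
  rw [← h2]
  refine roots_range hp _ ?_ S fun m hm => ⟨(hS m hm).1, ?_⟩
  · intro h0
    rw [h0, natDegree_zero] at h2
    omega
  · rw [eval_sub, eval_C, Polynomial.eval_natCast_map]
    have h3 : (Int.castRingHom (ZMod p)) (h.eval (m : ℤ)) = r := (hS m hm).2
    rw [h3, sub_self]

open Classical in
/-- a periodic set in an interval -/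
theorem per_count {p : ℕ} (hp : 0 < p) (P : ℕ → Prop) (hP : ∀ n, P n ↔ P (n % p)) (x : ℕ) :
    ((Icc 1 x).filter P).card ≤ (x / p + 1) * ((range p).filter P).card := by
  have h1 : ((Icc 1 x).filter P).card ≤ (range (x / p + 1) ×ˢ (range p).filter P).card := by
    refine card_le_card_of_injOn (fun n => (n / p, n % p)) ?_ ?_
    · intro n hn
      rw [mem_coe, Finset.mem_filter, mem_Icc] at hn
      rw [mem_coe, mem_product, Finset.mem_filter, mem_range, mem_range]
      refine ⟨?_, Nat.mod_lt _ hp, (hP n).mp hn.2⟩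
      have := Nat.div_le_div_right (c := p) hn.1.2
      show n / p < _
      omega
    · intro n _ m _ hnm
      have h2 : (n / p, n % p) = (m / p, m % p) := hnm
      rw [Prod.mk.injEq] at h2
      rw [← Nat.div_add_mod n p, ← Nat.div_add_mod m p, h2.1, h2.2]
  rwa [card_product, card_range] at h1

end Pool.Agent.W2helper64.BH
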