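import Pool.Agent.W2helper64.BH.Pol

set_option autoImplicit false
set_option linter.unusedSectionVars false

/-!
The concentration of the number of survivors, almost surely.
-/

namespace Pool.Agent.W2helper64.BH

open Finset Filter Topology Polynomial MeasureTheory Pool.Agent.W2helper64.RS Pool.Agent.W2helper64.RK

/-- the sieving limit of the first phase -/
noncomputable def zz (E x : ℕ) : ℕ := ⌊Real.log x ^ E⌋₊

/-- the starting point -/
def mz (x : ℕ) : ℕ := Nat.sqrt x + 1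

noncomputable def TT (k x : ℕ) : ℝ := (k + 1) * Real.log x

/-- the primes of the second phase -/
noncomputable def KK (k E x : ℕ) : Finset {p // p ∈ PX (TT k x)} :=
  (univ : Finset {p // p ∈ PX (TT k x)}).filter (fun p : {p // p ∈ PX (TT k x)} => zz E x < ((p : Nat.Primes) : ℕ))

/-- the primes of the first phase -/
noncomputable def K0 (k E x : ℕ) : Finset {p // p ∈ PX (TT k x)} :=
  (univ : Finset {p // p ∈ PX (TT k x)}).filter (fun p : {p // p ∈ PX (TT k x)} => ¬ zz E x < ((p : Nat.Primes) : ℕ))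

/-- the predicted number of survivors -/
noncomputable def WW {g : ℕ} (f : Fin g → ℤ[X]) (k E x : ℕ) (u : ℝ)
    (a : (p : {p // p ∈ PX (TT k x)}) → ZMod ((p : Nat.Primes) : ℕ)) : ℝ :=
  ∑ n ∈ survW (Ioc (mz x) x) (fun (p : {p // p ∈ PX (TT k x)}) n => Ph f (p : Nat.Primes) n) (K0 k E x) a,
    ∏ p ∈ KK k E x, (1 - (1 - u) * ((Ph f (p : Nat.Primes) n).card : ℝ) / (((p : Nat.Primes) : ℕ) : ℝ))

/-- the number of survivors -/
noncomputable def NN {g : ℕ} (f : Fin g → ℤ[X]) (k x : ℕ)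
    (a : (p : {p // p ∈ PX (TT k x)}) → ZMod ((p : Nat.Primes) : ℕ)) : ℝ :=
  ((survW (Ioc (mz x) x) (fun (p : {p // p ∈ PX (TT k x)}) n => Ph f (p : Nat.Primes) n) univ a).card : ℝ)

theorem ev_pow (E : ℕ) : ∀ᶠ x : ℕ in atTop, Real.log x ^ E ≤ (x : ℝ) := by
  have h1 := (isLittleO_log_rpow_rpow_atTop (E : ℝ) (show (0 : ℝ) < 1 by norm_num)).bound
      (show (0 : ℝ) < 1 by norm_num)
  have h2 := tendsto_natCast_atTop_atTop.eventually h1
  filter_upwards [h2, eventually_ge_atTop 1] with x hx hx1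
  have hl : 0 ≤ Real.log (x : ℝ) := Real.log_nonneg (by exact_mod_cast hx1)
  rw [Real.norm_of_nonneg (by positivity), Real.norm_of_nonneg (by positivity), Real.rpow_one, one_mul,
    Real.rpow_natCast] at hx
  exact hx

theorem ev_log (B : ℝ) : ∀ᶠ x : ℕ in atTop, B ≤ Real.log x :=
  (Real.tendsto_log_atTop.comp tendsto_natCast_atTop_atTop).eventually_ge_atTop B

/-- the number of solutions of a congruence in the interval -/
theorem fiber_Ph {g : ℕ} (f : Fin g → ℤ[X]) (k : ℕ) (hd : ∀ i, 0 < (f i).natDegree)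
    (hk : ∑ i, (f i).natDegree ≤ k) (p : Nat.Primes) (hlc : ∀ i, ¬ ((p : ℕ) : ℤ) ∣ (f i).leadingCoeff) (x : ℕ)
    (r : ZMod (p : ℕ)) (A : Finset ℕ) (hA : A ⊆ Icc 1 x) :
    (A.filter (fun n => r ∈ Ph f p n)).card ≤ (x / (p : ℕ) + 1) * k := by
  classical
  set P : ℕ → Prop := fun n => ∃ i, (((f i).eval (n : ℤ) : ℤ) : ZMod (p : ℕ)) = r with hP
  have h1 : A.filter (fun n => r ∈ Ph f p n) ⊆ (Icc 1 x).filter P := by
    intro n hn
    rw [Finset.mem_filter] at hn ⊢
    refine ⟨hA hn.1, ?_⟩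
    unfold Ph at hn
    obtain ⟨i, -, hi⟩ := Finset.mem_image.mp hn.2
    exact ⟨i, hi⟩
  refine (card_le_card h1).trans ?_
  have hper : ∀ n, P n ↔ P (n % (p : ℕ)) := by
    intro n
    refine exists_congr fun i => ?_
    have : (((f i).eval ((n % (p : ℕ) : ℕ) : ℤ) : ℤ) : ZMod (p : ℕ)) = (((f i).eval (n : ℤ) : ℤ) : ZMod (p : ℕ)) := by
      rw [← val_nat, ← val_nat, ZMod.natCast_mod]
    rw [this]
  have h2 := per_count p.2.pos P hper x
  refine le_trans (le_trans (le_of_eq ?_) h2) (Nat.mul_le_mul_left _ ?_)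
  · congr
  have h3 : (range (p : ℕ)).filter P ⊆ univ.biUnion fun i : Fin g => (range (p : ℕ)).filter fun m =>
      (((f i).eval (m : ℤ) : ℤ) : ZMod (p : ℕ)) = r := by
    intro m hm
    rw [Finset.mem_filter] at hm
    obtain ⟨hm1, i, hi⟩ := hm
    rw [mem_biUnion]
    exact ⟨i, Finset.mem_univ _, Finset.mem_filter.mpr ⟨hm1, hi⟩⟩
  refine le_trans (le_of_eq ?_) ((card_le_card h3).trans (card_biUnion_le.trans (le_trans (sum_le_sum fun i _ => ?_) hk)))
  · congr
  refine few_val (f i) p.2 (hd i) (hlc i) r _ fun m hm => ?_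
  rw [Finset.mem_filter, mem_range] at hm
  exact hm

theorem law_bad {g : ℕ} (f : Fin g → ℤ[X]) (k : ℕ) (hk1 : 1 ≤ k) (hd : ∀ i, 0 < (f i).natDegree)
    (hl : ∀ i, 0 < (f i).leadingCoeff) (hk : ∑ i, (f i).natDegree ≤ k) (U E : ℕ) (hE : 2 * U + 5 ≤ E)
    {σ : ℝ} (hσ : σ = 1 ∨ σ = -1) :
    ∀ᶠ x : ℕ in atTop, law {a | x / Real.log x ^ U ≤ σ * (NN f k x ((PX (TT k x)).restrict a) -
      WW f k E x (σ * (1 / Real.log x ^ (U + 2))) ((PX (TT k x)).restrict a))} ≤
        ENNReal.ofReal (1 * (1 / (x : ℝ) ^ 2)) := by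
  classical
  have hk0 : (1 : ℝ) ≤ k := by exact_mod_cast hk1
  filter_upwards [ev_log (4 * k + 2 * g + ∑ i, ((f i).leadingCoeff.natAbs : ℝ) + 2), ev_pow E, eventually_ge_atTop 2]
    with x hL hxE hx2
  set L : ℝ := Real.log x with hLdef
  have hx0 : (0 : ℝ) < x := by exact_mod_cast (by omega : 0 < x)
  have hS0 : 0 ≤ ∑ i, ((f i).leadingCoeff.natAbs : ℝ) := sum_nonneg fun _ _ => Nat.cast_nonneg _
  have hg0 : (0 : ℝ) ≤ g := Nat.cast_nonneg _
  have hL1 : 1 ≤ L := by linarith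
  have hL0 : 0 < L := by linarith
  have hLE : L ≤ L ^ E := le_self_pow₀ hL1 (by omega)
  set v : ℝ := L ^ E / (2 * k * x * L ^ (U + 2)) with hv
  set d : ℝ := 2 * k * x / L ^ E with hdd
  have hv0 : 0 ≤ v := by positivity
  have hd0 : 0 ≤ d := by positivity
  have hvd : v * d = 1 / L ^ (U + 2) := by
    rw [hv, hdd]; field_simp
  have hvd1 : v * d ≤ 1 := by
    rw [hvd, div_le_one (by positivity)]
    exact one_le_pow₀ hL1
  have hvy : 2 * L ≤ v * (x / L ^ U) := by
    have e1 : v * (x / L ^ U) = L ^ E / (2 * k * L ^ (2 * U + 2)) := by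
      rw [hv]; field_simp; ring
    rw [e1, le_div_iff₀ (by positivity)]
    have e2 : L ^ (2 * U + 5) ≤ L ^ E := pow_le_pow_right₀ hL1 hE
    refine le_trans ?_ e2
    have e3 : L ^ (2 * U + 5) = L ^ (2 * U + 2) * (L * (L * L)) := by ring
    rw [e3]
    have h4 : 4 * k ≤ L := by linarith
    have h5 : 0 < L ^ (2 * U + 2) := by positivity
    have h6 : 2 * L * (2 * k) ≤ L * (L * L) := by
      have : 4 * k * 1 ≤ L * L := by
        apply mul_le_mul h4 hL1 (by norm_num) hL0.le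
      nlinarith
    calc 2 * L * (2 * k * L ^ (2 * U + 2)) = L ^ (2 * U + 2) * (2 * L * (2 * k)) := by ring
      _ ≤ _ := mul_le_mul_of_nonneg_left h6 h5.le
  have hKbig : ∀ p ∈ KK k E x, L ^ E < (((p : Nat.Primes) : ℕ) : ℝ) := by
    intro p hp
    have h1 : zz E x < ((p : Nat.Primes) : ℕ) := (Finset.mem_filter.mp hp).2
    unfold zz at h1
    exact (Nat.floor_lt (by positivity)).mp h1
  have h := tailW (Ioc (mz x) x) (fun (p : {p // p ∈ PX (TT k x)}) n => Ph f (p : Nat.Primes) n) (K0 k E x)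
    (KK k E x) (disjoint_filter_filter_not _ _ _) hσ hv0 hd0 hvd1 (fun p hp r => by
      have hpE := hKbig p hp
      have hlc : ∀ i, ¬ (((p : Nat.Primes) : ℕ) : ℤ) ∣ (f i).leadingCoeff := by
        intro i hdvd
        have h1 : ((p : Nat.Primes) : ℕ) ≤ (f i).leadingCoeff.natAbs := by
          refine Nat.le_of_dvd (Int.natAbs_pos.mpr (hl i).ne') ?_
          exact Int.natCast_dvd.mp hdvd
        have h2 : ((f i).leadingCoeff.natAbs : ℝ) ≤ ∑ i, ((f i).leadingCoeff.natAbs : ℝ) :=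
          single_le_sum (f := fun i => ((f i).leadingCoeff.natAbs : ℝ)) (fun _ _ => Nat.cast_nonneg _) (Finset.mem_univ i)
        have h3 : (((p : Nat.Primes) : ℕ) : ℝ) ≤ ((f i).leadingCoeff.natAbs : ℝ) := by exact_mod_cast h1
        linarith
      have h1 := fiber_Ph f k hd hk (p : Nat.Primes) hlc x r (Ioc (mz x) x) (by
        intro n hn
        rw [mem_Ioc] at hn
        rw [mem_Icc]
        omega)
      have h2 : (((Ioc (mz x) x).filter (fun n => r ∈ Ph f (p : Nat.Primes) n)).card : ℝ) ≤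
          ((x / ((p : Nat.Primes) : ℕ) + 1) * k : ℕ) := by exact_mod_cast h1
      refine h2.trans ?_
      push_cast
      have h3 : ((x / ((p : Nat.Primes) : ℕ) : ℕ) : ℝ) ≤ x / (((p : Nat.Primes) : ℕ) : ℝ) := Nat.cast_div_le
      have h4 : x / (((p : Nat.Primes) : ℕ) : ℝ) ≤ x / L ^ E :=
        div_le_div_of_nonneg_left hx0.le (by positivity) hpE.le
      have h5 : 1 ≤ x / L ^ E := by
        rw [le_div_iff₀ (by positivity), one_mul]
        exact hxE
      calc (((x / ((p : Nat.Primes) : ℕ) : ℕ) : ℝ) + 1) * k ≤ (2 * (x / L ^ E)) * k := by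
            apply mul_le_mul_of_nonneg_right _ (by linarith)
            linarith
        _ = d := by rw [hdd]; ring)
    (fun p hp n => by
      rw [ZMod.card]
      have hpE := hKbig p hp
      have h1 : ((Ph f (p : Nat.Primes) n).card : ℝ) ≤ g := by
        exact_mod_cast (Ph_card_le f (p : Nat.Primes) n).trans (rel_card_le f _ n)
      linarith)
    (fun a => x / L ^ U ≤ σ * (NN f k x a - WW f k E x (σ * (1 / L ^ (U + 2))) a))
    (fun a ha => by
      refine ha.trans (le_of_eq ?_)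
      unfold NN WW
      have hun : KK k E x ∪ K0 k E x = univ := filter_union_filter_not_eq _ _
      rw [hun, hvd]
      simp only [ZMod.card])
    (y := x / L ^ U)
  have h2 : {a | x / L ^ U ≤ σ * (NN f k x ((PX (TT k x)).restrict a) -
      WW f k E x (σ * (1 / L ^ (U + 2))) ((PX (TT k x)).restrict a))} =
      {a : (p : Nat.Primes) → ZMod (p : ℕ) | (fun a => x / L ^ U ≤ σ * (NN f k x a -
        WW f k E x (σ * (1 / L ^ (U + 2))) a)) ((PX (TT k x)).restrict a)} := rfl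
  have h2' := law_cyl (PX (TT k x)) (fun a => x / L ^ U ≤ σ * (NN f k x a -
        WW f k E x (σ * (1 / L ^ (U + 2))) a)) (inst := Classical.decPred _)
  rw [h2, h2']
  apply ENNReal.ofReal_le_ofReal
  have h3 : Real.exp (-(v * (x / L ^ U))) ≤ 1 * (1 / (x : ℝ) ^ 2) := by
    have h4 : Real.exp (-(v * (x / L ^ U))) ≤ Real.exp (-(2 * L)) := by
      apply Real.exp_le_exp.mpr; linarith
    refine h4.trans (le_of_eq ?_)
    rw [Real.exp_neg, one_mul, one_div]
    congr 1
    rw [hLdef, ← Real.exp_log hx0, Real.log_exp, ← Real.exp_nat_mul]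
    norm_num
  refine le_trans (le_of_eq ?_) (h.trans h3)
  congr 1

theorem ae_conc {g : ℕ} (f : Fin g → ℤ[X]) (k : ℕ) (hk1 : 1 ≤ k) (hd : ∀ i, 0 < (f i).natDegree)
    (hl : ∀ i, 0 < (f i).leadingCoeff) (hk : ∑ i, (f i).natDegree ≤ k) (U E : ℕ) (hE : 2 * U + 5 ≤ E) :
    ∀ᵐ a ∂law, ∀ᶠ x : ℕ in atTop,
      NN f k x ((PX (TT k x)).restrict a) ≤
        WW f k E x (1 / Real.log x ^ (U + 2)) ((PX (TT k x)).restrict a) + x / Real.log x ^ U ∧
      WW f k E x (-(1 / Real.log x ^ (U + 2))) ((PX (TT k x)).restrict a) - x / Real.log x ^ U ≤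
        NN f k x ((PX (TT k x)).restrict a) := by
  have h1 := bc _ 1 (by norm_num) (law_bad f k hk1 hd hl hk U E hE (σ := 1) (Or.inl rfl))
  have h2 := bc _ 1 (by norm_num) (law_bad f k hk1 hd hl hk U E hE (σ := -1) (Or.inr rfl))
  filter_upwards [h1, h2] with a h3 h4
  filter_upwards [h3, h4] with x h5 h6
  simp only [not_le, one_mul, neg_mul] at h5 h6
  constructor <;> linarith

end Pool.Agent.W2helper64.BH
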