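import Pool.Agent.W2helper64.RS.Fin

set_option autoImplicit false
set_option linter.unusedSectionVars false

/-!
Weighted survivors: exponential moments of both signs.
-/

namespace Pool.Agent.W2helper64.BH

open Finset Pool.Agent.W2helper64.RS

/-- one prime -/
theorem stepW {β : Type} [Fintype β] [Nonempty β] [DecidableEq β] (S : Finset ℕ) (Φ : ℕ → Finset β)
    (w : ℕ → ℝ) {σ v d : ℝ} (hσ : σ = 1 ∨ σ = -1) (hw0 : ∀ n, 0 ≤ w n) (hwv : ∀ n, w n ≤ v)
    (hd : ∀ r, ((S.filter (fun j => r ∈ Φ j)).card : ℝ) ≤ d) (hvd : v * d ≤ 1) :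
    (∑ r : β, Real.exp (σ * ∑ n ∈ S.filter (fun j => r ∉ Φ j), w n)) / (Fintype.card β : ℝ) ≤
      Real.exp (σ * ∑ n ∈ S, w n * (1 - (1 - σ * (v * d)) * (Φ n).card / (Fintype.card β : ℝ))) := by
  have hq : (0 : ℝ) < (Fintype.card β : ℝ) := by exact_mod_cast Fintype.card_pos
  set q : ℝ := (Fintype.card β : ℝ) with hqd
  have hv0 : 0 ≤ v := (hw0 0).trans (hwv 0)
  have hσ2 : σ * σ = 1 := by rcases hσ with rfl | rfl <;> norm_num
  set W : ℝ := ∑ n ∈ S, w n with hW
  set κ : β → ℝ := fun r => ∑ n ∈ S.filter (fun j => r ∈ Φ j), w n with hκ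
  have hsplit : ∀ r : β, ∑ n ∈ S.filter (fun j => r ∉ Φ j), w n = W - κ r := by
    intro r
    have := sum_filter_add_sum_filter_not S (fun j => r ∈ Φ j) w
    simp only [hκ]
    linarith
  have hκ0 : ∀ r, 0 ≤ κ r := fun r => sum_nonneg fun n _ => hw0 n
  have hκ1 : ∀ r, κ r ≤ v * d := by
    intro r
    calc κ r ≤ ∑ _n ∈ S.filter (fun j => r ∈ Φ j), v := sum_le_sum fun n _ => hwv n
      _ = ((S.filter (fun j => r ∈ Φ j)).card : ℝ) * v := by rw [sum_const, nsmul_eq_mul]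
      _ ≤ d * v := mul_le_mul_of_nonneg_right (hd r) hv0
      _ = v * d := mul_comm _ _
  have hsum : ∑ r : β, κ r = ∑ n ∈ S, w n * (Φ n).card := by
    simp only [hκ]
    simp_rw [sum_filter]
    rw [sum_comm]
    refine sum_congr rfl fun n _ => ?_
    rw [← sum_filter, sum_const, nsmul_eq_mul, mul_comm]
    congr 3
    ext r
    simp
  have h1 : ∀ r : β, Real.exp (σ * ∑ n ∈ S.filter (fun j => r ∉ Φ j), w n) ≤
      Real.exp (σ * W) * (1 - σ * (1 - σ * (v * d)) * κ r) := by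
    intro r
    rw [hsplit r]
    have e1 : σ * (W - κ r) = σ * W + (-σ * κ r) := by ring
    rw [e1, Real.exp_add]
    refine mul_le_mul_of_nonneg_left ?_ (Real.exp_pos _).le
    have habs : |-σ * κ r| ≤ 1 := by
      rw [abs_mul, abs_of_nonneg (hκ0 r)]
      have : |-σ| = 1 := by rcases hσ with rfl | rfl <;> norm_num
      rw [this, one_mul]
      exact (hκ1 r).trans hvd
    refine (exp_le_quad habs).trans ?_
    have h3 : (-σ * κ r) ^ 2 = κ r * κ r := by
      calc (-σ * κ r) ^ 2 = (σ * σ) * (κ r * κ r) := by ring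
        _ = κ r * κ r := by rw [hσ2, one_mul]
    rw [h3]
    have h4 : κ r * κ r ≤ (v * d) * κ r := mul_le_mul_of_nonneg_right (hκ1 r) (hκ0 r)
    have h5 : σ * (1 - σ * (v * d)) * κ r = σ * κ r - (σ * σ) * (v * d) * κ r := by ring
    rw [h5, hσ2]
    linarith
  rw [div_le_iff₀ hq]
  refine (sum_le_sum fun r _ => h1 r).trans ?_
  rw [← mul_sum, sum_sub_distrib, ← mul_sum, hsum, sum_const, card_univ, nsmul_eq_mul, mul_one, ← hqd]
  have h4 : σ * ∑ n ∈ S, w n * (1 - (1 - σ * (v * d)) * (Φ n).card / q) =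
      σ * W + (-(σ * (1 - σ * (v * d)) * (∑ n ∈ S, w n * (Φ n).card)) / q) := by
    have : ∑ n ∈ S, w n * (1 - (1 - σ * (v * d)) * (Φ n).card / q) =
        W - (1 - σ * (v * d)) * (∑ n ∈ S, w n * (Φ n).card) / q := by
      rw [hW, mul_sum, sum_div, ← sum_sub_distrib]
      refine sum_congr rfl fun n _ => ?_
      ring
    rw [this]
    ring
  rw [h4, Real.exp_add, mul_assoc (Real.exp (σ * W))]
  refine mul_le_mul_of_nonneg_left ?_ (Real.exp_pos _).le
  have h5 := Real.add_one_le_exp (-(σ * (1 - σ * (v * d)) * (∑ n ∈ S, w n * (Φ n).card)) / q)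
  have h6 := mul_le_mul_of_nonneg_right h5 hq.le
  have h7 : (-(σ * (1 - σ * (v * d)) * (∑ n ∈ S, w n * (Φ n).card)) / q + 1) * q =
      q - σ * (1 - σ * (v * d)) * (∑ n ∈ S, w n * (Φ n).card) := by
    field_simp
    ring
  linarith

section
variable {ι : Type} [Fintype ι] [DecidableEq ι] {α : ι → Type} [∀ i, Fintype (α i)] [∀ i, Nonempty (α i)]
  [∀ i, DecidableEq (α i)]

/-- the candidates of `A` which survive the coordinates in `K` -/
def survW (A : Finset ℕ) (Φ : (i : ι) → ℕ → Finset (α i)) (K : Finset ι) (a : (i : ι) → α i) : Finset ℕ :=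
  A.filter fun j => ∀ i ∈ K, a i ∉ Φ i j

theorem survW_sub (A : Finset ℕ) (Φ : (i : ι) → ℕ → Finset (α i)) (K : Finset ι) (a : (i : ι) → α i) :
    survW A Φ K a ⊆ A := filter_subset _ _

theorem survW_insert (A : Finset ℕ) (Φ : (i : ι) → ℕ → Finset (α i)) (K : Finset ι) (i : ι)
    (a : (i : ι) → α i) :
    survW A Φ (insert i K) a = (survW A Φ K a).filter fun j => a i ∉ Φ i j := by
  ext j
  simp only [survW, mem_filter, mem_insert, forall_eq_or_imp]
  tauto

theorem survW_update (A : Finset ℕ) (Φ : (i : ι) → ℕ → Finset (α i)) (K : Finset ι) (i : ι) (hi : i ∉ K)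
    (a : (i : ι) → α i) (r : α i) : survW A Φ K (Function.update a i r) = survW A Φ K a := by
  unfold survW
  refine filter_congr fun j _ => ?_
  refine forall₂_congr fun k hk => ?_
  have : k ≠ i := fun h => hi (h ▸ hk)
  rw [Function.update_of_ne this]

theorem mm_survW (A : Finset ℕ) (Φ : (i : ι) → ℕ → Finset (α i)) (K : Finset ι) (i : ι) (hi : i ∉ K)
    (F : Finset ℕ → ℝ) (a : (i : ι) → α i) :
    mm i (fun a => F (survW A Φ (insert i K) a)) a =
      (∑ r : α i, F ((survW A Φ K a).filter (fun j => r ∉ Φ i j))) / (Fintype.card (α i) : ℝ) := by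
  unfold mm
  congr 1
  refine sum_congr rfl fun r _ => ?_
  simp only
  rw [survW_insert, survW_update A Φ K i hi, Function.update_self]

/-- many primes; `H` is a factor depending only on the other coordinates -/
theorem phaseW (A : Finset ℕ) (Φ : (i : ι) → ℕ → Finset (α i)) (K0 K : Finset ι) (hd : Disjoint K K0)
    {σ v d : ℝ} (hσ : σ = 1 ∨ σ = -1) (hv0 : 0 ≤ v) (hd0 : 0 ≤ d) (hvd : v * d ≤ 1)
    (hfib : ∀ i ∈ K, ∀ r, ((A.filter (fun j => r ∈ Φ i j)).card : ℝ) ≤ d)
    (hq2 : ∀ i ∈ K, ∀ n, (2 * (Φ i n).card : ℝ) ≤ Fintype.card (α i))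
    (H : ((i : ι) → α i) → ℝ) (hH0 : ∀ a, 0 ≤ H a) (hHi : ∀ i ∈ K, Indep i H) (w : ℕ → ℝ)
    (hw0 : ∀ n, 0 ≤ w n) (hwv : ∀ n, w n ≤ v) :
    avg (fun a => Real.exp (σ * ∑ n ∈ survW A Φ (K ∪ K0) a, w n) * H a) ≤
      avg (fun a => Real.exp (σ * ∑ n ∈ survW A Φ K0 a,
        w n * ∏ i ∈ K, (1 - (1 - σ * (v * d)) * (Φ i n).card / (Fintype.card (α i) : ℝ))) * H a) := by
  induction K using Finset.induction_on generalizing w with
  | empty => simp
  | insert i K hiK ih =>
    have hi0 : i ∉ K0 := fun h => disjoint_left.mp hd (mem_insert_self i K) h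
    have hd' : Disjoint K K0 := disjoint_of_subset_left (subset_insert i K) hd
    have hi : i ∉ K ∪ K0 := by
      rw [mem_union]; tauto
    have hq0 : (0 : ℝ) < (Fintype.card (α i) : ℝ) := by exact_mod_cast Fintype.card_pos
    have hc0 : 0 ≤ 1 - σ * (v * d) := by
      have : 0 ≤ v * d := mul_nonneg hv0 hd0
      rcases hσ with rfl | rfl <;> linarith
    have hc2 : 1 - σ * (v * d) ≤ 2 := by
      have : 0 ≤ v * d := mul_nonneg hv0 hd0
      rcases hσ with rfl | rfl <;> linarith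
    have hf0 : ∀ n, 0 ≤ 1 - (1 - σ * (v * d)) * (Φ i n).card / (Fintype.card (α i) : ℝ) := by
      intro n
      rw [sub_nonneg, div_le_one hq0]
      have h1 := hq2 i (mem_insert_self i K) n
      have h2 : (1 - σ * (v * d)) * ((Φ i n).card : ℝ) ≤ 2 * (Φ i n).card :=
        mul_le_mul_of_nonneg_right hc2 (Nat.cast_nonneg _)
      linarith
    have hf1 : ∀ n, 1 - (1 - σ * (v * d)) * (Φ i n).card / (Fintype.card (α i) : ℝ) ≤ 1 := by
      intro n
      have : 0 ≤ (1 - σ * (v * d)) * (Φ i n).card / (Fintype.card (α i) : ℝ) := by positivity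
      linarith
    have h1 : avg (fun a => Real.exp (σ * ∑ n ∈ survW A Φ (insert i K ∪ K0) a, w n) * H a) ≤
        avg (fun a => Real.exp (σ * ∑ n ∈ survW A Φ (K ∪ K0) a,
          w n * (1 - (1 - σ * (v * d)) * (Φ i n).card / (Fintype.card (α i) : ℝ))) * H a) := by
      rw [insert_union, ← avg_mm i, mm_mul_indep (hHi i (mem_insert_self i K))]
      refine avg_mono fun a => mul_le_mul_of_nonneg_right ?_ (hH0 a)
      rw [mm_survW A Φ (K ∪ K0) i hi (fun S => Real.exp (σ * ∑ n ∈ S, w n))]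
      exact stepW (survW A Φ (K ∪ K0) a) (Φ i) w hσ hw0 hwv (fun r => by
        refine le_trans ?_ (hfib i (mem_insert_self i K) r)
        exact_mod_cast card_le_card (filter_subset_filter _ (survW_sub A Φ _ a))) hvd
    have h2 := ih hd' (fun k hk => hfib k (mem_insert_of_mem hk)) (fun k hk => hq2 k (mem_insert_of_mem hk))
      (fun k hk => hHi k (mem_insert_of_mem hk))
      (fun n => w n * (1 - (1 - σ * (v * d)) * (Φ i n).card / (Fintype.card (α i) : ℝ)))
      (fun n => mul_nonneg (hw0 n) (hf0 n))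
      (fun n => (mul_le_of_le_one_right (hw0 n) (hf1 n)).trans (hwv n))
    refine h1.trans (h2.trans (le_of_eq ?_))
    congr 1
    funext a
    congr 3
    refine sum_congr rfl fun n _ => ?_
    rw [prod_insert hiK]
    ring

/-- the number of survivors is close to the sum of the weights, up to a small probability -/
theorem tailW (A : Finset ℕ) (Φ : (i : ι) → ℕ → Finset (α i)) (K0 K : Finset ι) (hd : Disjoint K K0)
    {σ v d y : ℝ} (hσ : σ = 1 ∨ σ = -1) (hv0 : 0 ≤ v) (hd0 : 0 ≤ d) (hvd : v * d ≤ 1)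
    (hfib : ∀ i ∈ K, ∀ r, ((A.filter (fun j => r ∈ Φ i j)).card : ℝ) ≤ d)
    (hq2 : ∀ i ∈ K, ∀ n, (2 * (Φ i n).card : ℝ) ≤ Fintype.card (α i))
    (P : ((i : ι) → α i) → Prop) [DecidablePred P]
    (hP : ∀ a, P a → y ≤ σ * (((survW A Φ (K ∪ K0) a).card : ℝ) - ∑ n ∈ survW A Φ K0 a,
      ∏ i ∈ K, (1 - (1 - σ * (v * d)) * (Φ i n).card / (Fintype.card (α i) : ℝ)))) :
    avg (fun a => if P a then (1 : ℝ) else 0) ≤ Real.exp (-(v * y)) := by
  set E : ((i : ι) → α i) → ℝ := fun a => ∑ n ∈ survW A Φ K0 a,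
      ∏ i ∈ K, (1 - (1 - σ * (v * d)) * (Φ i n).card / (Fintype.card (α i) : ℝ)) with hE
  set H : ((i : ι) → α i) → ℝ := fun a => Real.exp (-(σ * (v * E a))) with hH
  have hHi : ∀ i ∈ K, Indep i H := by
    intro i hi a r
    have hi0 : i ∉ K0 := fun h => disjoint_left.mp hd hi h
    simp only [hH, hE]
    rw [survW_update A Φ K0 i hi0]
  have h1 := phaseW A Φ K0 K hd hσ hv0 hd0 hvd hfib hq2 H (fun a => (Real.exp_pos _).le) hHi (fun _ => v)
    (fun _ => hv0) (fun _ => le_rfl)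
  have h2 : avg (fun a => Real.exp (σ * ∑ n ∈ survW A Φ K0 a,
        v * ∏ i ∈ K, (1 - (1 - σ * (v * d)) * (Φ i n).card / (Fintype.card (α i) : ℝ))) * H a) ≤ 1 := by
    refine avg_le_const fun a => ?_
    simp only [hH]
    rw [← Real.exp_add, ← mul_sum]
    simp only [hE]
    rw [add_neg_cancel, Real.exp_zero]
  have h3 : avg (fun a => if P a then (1 : ℝ) else 0) ≤
      avg (fun a => Real.exp (σ * ∑ n ∈ survW A Φ (K ∪ K0) a, v) * H a) / Real.exp (v * y) := by
    apply avg_ind_le (fun a => mul_nonneg (Real.exp_pos _).le (Real.exp_pos _).le) (Real.exp_pos _)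
    intro a ha
    have h4 := hP a ha
    show Real.exp (v * y) ≤ Real.exp (σ * ∑ n ∈ survW A Φ (K ∪ K0) a, v) * Real.exp (-(σ * (v * E a)))
    rw [← Real.exp_add, sum_const, nsmul_eq_mul]
    apply Real.exp_le_exp.mpr
    have h5 := mul_le_mul_of_nonneg_left h4 hv0
    have h6 : v * (σ * (((survW A Φ (K ∪ K0) a).card : ℝ) - E a)) =
        σ * (((survW A Φ (K ∪ K0) a).card : ℝ) * v) + -(σ * (v * E a)) := by ring
    rw [← h6]
    exact h5
  refine h3.trans ?_
  rw [Real.exp_neg, ← one_div]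
  exact div_le_div_of_nonneg_right (h1.trans h2) (Real.exp_pos _).le

end

end Pool.Agent.W2helper64.BH
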