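import Pool.Agent.W2helper64.RS.Num
import Pool.Agent.W2helper64.BH.Step

set_option autoImplicit false
set_option linter.unusedSectionVars false

/-!
Products over primes.
-/

namespace Pool.Agent.W2helper64.BH

open Finset Filter Topology Pool.Agent.W2helper64.RS

theorem abs_prod_sub {ι : Type} [DecidableEq ι] (s : Finset ι) (α β : ι → ℝ)
    (hα : ∀ i ∈ s, 0 ≤ α i ∧ α i ≤ 1) (hβ : ∀ i ∈ s, 0 ≤ β i ∧ β i ≤ 1) :
    |∏ i ∈ s, α i - ∏ i ∈ s, β i| ≤ ∑ i ∈ s, |α i - β i| := by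
  induction s using Finset.induction_on with
  | empty => simp
  | insert i s hi ih =>
    rw [prod_insert hi, prod_insert hi, sum_insert hi]
    have h1 := ih (fun j hj => hα j (mem_insert_of_mem hj)) (fun j hj => hβ j (mem_insert_of_mem hj))
    have hb0 : 0 ≤ ∏ i ∈ s, β i := prod_nonneg fun j hj => (hβ j (mem_insert_of_mem hj)).1
    have hb1 : ∏ i ∈ s, β i ≤ 1 := prod_le_one (fun j hj => (hβ j (mem_insert_of_mem hj)).1)
      fun j hj => (hβ j (mem_insert_of_mem hj)).2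
    obtain ⟨a0, a1⟩ := hα i (mem_insert_self i s)
    have e : α i * ∏ i ∈ s, α i - β i * ∏ i ∈ s, β i =
        α i * (∏ i ∈ s, α i - ∏ i ∈ s, β i) + (α i - β i) * ∏ i ∈ s, β i := by ring
    rw [e]
    refine (abs_add_le _ _).trans ?_
    rw [abs_mul, abs_mul, abs_of_nonneg a0, abs_of_nonneg hb0]
    have h2 : α i * |∏ i ∈ s, α i - ∏ i ∈ s, β i| ≤ |∏ i ∈ s, α i - ∏ i ∈ s, β i| :=
      mul_le_of_le_one_left (abs_nonneg _) a1
    have h3 : |α i - β i| * ∏ i ∈ s, β i ≤ |α i - β i| := mul_le_of_le_one_right (abs_nonneg _) hb1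
    linarith

/-- one factor -/
theorem fac_close {u q : ℝ} {k c g : ℕ} (hq : 2 * (g : ℝ) ≤ q) (hq1 : 1 ≤ q) (hck : c ≤ k) (hkg : k ≤ g)
    (hu : |u| ≤ 1) :
    (0 ≤ 1 - (1 - u) * c / q ∧ 1 - (1 - u) * c / q ≤ 1) ∧
    |(1 - (1 - u) * c / q) - (1 - 1 / q) ^ k| ≤ |u| * (g / q) + ((k : ℝ) - c) / q + (g : ℝ) ^ 2 / q ^ 2 := by
  have hq0 : 0 < q := by linarith
  obtain ⟨u1, u2⟩ := abs_le.mp hu
  have hc : (c : ℝ) ≤ k := by exact_mod_cast hck
  have hk : (k : ℝ) ≤ g := by exact_mod_cast hkg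
  have hc0 : (0 : ℝ) ≤ c := Nat.cast_nonneg _
  have hk0 : (0 : ℝ) ≤ k := Nat.cast_nonneg _
  refine ⟨⟨?_, ?_⟩, ?_⟩
  · rw [sub_nonneg, div_le_one hq0]
    nlinarith
  · have : 0 ≤ (1 - u) * c / q := by
      apply div_nonneg (mul_nonneg (by linarith) hc0) hq0.le
    linarith
  · -- Bernoulli
    have hx0 : 0 ≤ 1 / q := by positivity
    have hx1 : 1 / q ≤ 1 := by rw [div_le_one hq0]; exact hq1
    have hb : 1 - k / q ≤ (1 - 1 / q) ^ k := by
      have := one_add_mul_le_pow (a := -(1 / q)) (by linarith) k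
      have e1 : 1 + (k : ℝ) * -(1 / q) = 1 - k / q := by ring
      rw [e1, ← sub_eq_add_neg] at this
      exact this
    have hb2 : (1 - 1 / q) ^ k ≤ 1 - k / q + (k : ℝ) ^ 2 / q ^ 2 := by
      have h1 : (1 - 1 / q) ^ k ≤ Real.exp (-(k / q)) := by
        have h2 : 1 - 1 / q ≤ Real.exp (-(1 / q)) := by
          have := Real.add_one_le_exp (-(1 / q)); linarith
        calc (1 - 1 / q) ^ k ≤ (Real.exp (-(1 / q))) ^ k := pow_le_pow_left₀ (by linarith) h2 _
          _ = Real.exp (-(k / q)) := by rw [← Real.exp_nat_mul]; congr 1; ring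
      refine h1.trans ?_
      have hkq : k / q ≤ 1 := by
        rw [div_le_one hq0]; linarith
      have := exp_le_quad (y := -(k / q)) (by
        rw [abs_neg, abs_of_nonneg (by positivity)]; exact hkq)
      refine this.trans (le_of_eq ?_)
      field_simp
      ring
    have e2 : (1 - (1 - u) * c / q) - (1 - 1 / q) ^ k =
        u * c / q + ((k : ℝ) - c) / q + ((1 - k / q) - (1 - 1 / q) ^ k) := by ring
    rw [e2]
    refine (abs_add_three _ _ _).trans ?_
    refine add_le_add (add_le_add ?_ ?_) ?_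
    · rw [mul_div_assoc, abs_mul, abs_of_nonneg (by positivity : (0 : ℝ) ≤ c / q)]
      apply mul_le_mul_of_nonneg_left _ (abs_nonneg _)
      apply div_le_div_of_nonneg_right _ hq0.le
      linarith
    · rw [abs_of_nonneg]
      apply div_nonneg _ hq0.le
      linarith
    · rw [abs_le]
      have h3 : (k : ℝ) ^ 2 / q ^ 2 ≤ (g : ℝ) ^ 2 / q ^ 2 := by
        apply div_le_div_of_nonneg_right _ (by positivity)
        exact pow_le_pow_left₀ hk0 hk 2
      constructor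
      · linarith
      · have : 0 ≤ (g : ℝ) ^ 2 / q ^ 2 := by positivity
        linarith

/-- `VV t = ∏ (1 - 1 / p)` over the primes relevant for `t` -/
noncomputable def VV (t : ℝ) : ℝ := ∏ p ∈ PX t, (1 - 1 / ((p : ℕ) : ℝ))

theorem VV_nonneg (t : ℝ) : 0 ≤ VV t := prod_nonneg fun p _ => fac_nonneg p.2

theorem VV_le_one (t : ℝ) : VV t ≤ 1 := prod_le_one (fun p _ => fac_nonneg p.2) fun p _ => fac_le _

theorem V_pos (y : ℕ) : 0 < V y := by
  unfold V
  refine prod_pos fun p hp => ?_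
  have : (2 : ℝ) ≤ p := by exact_mod_cast (mem_filter.mp hp).2.two_le
  rw [sub_pos, div_lt_one (by linarith)]; linarith

theorem V_le_one (y : ℕ) : V y ≤ 1 := by
  unfold V
  exact prod_le_one (fun p hp => fac_nonneg (mem_filter.mp hp).2) fun p _ => fac_le _

/-- a product over an initial segment of the primes -/
theorem V_eq_prod (z : ℕ) (S : Finset Nat.Primes) (hS : ∀ p : Nat.Primes, p ∈ S ↔ (p : ℕ) ≤ z) :
    V z = ∏ p ∈ S, (1 - 1 / ((p : ℕ) : ℝ)) := by
  unfold V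
  symm
  refine prod_bij (fun p _ => (p : ℕ)) ?_ ?_ ?_ ?_
  · intro p hp
    rw [mem_filter, mem_Icc]
    exact ⟨⟨p.2.one_lt.le, (hS p).mp hp⟩, p.2⟩
  · intro p _ q _ h
    exact Subtype.ext h
  · intro p hp
    rw [mem_filter, mem_Icc] at hp
    exact ⟨⟨p, hp.2⟩, (hS _).mpr hp.1.2, rfl⟩
  · intro p _
    rfl

/-- the products over the relevant primes -/
theorem VV_close {t : ℝ} (ht : 1 ≤ t) {z : ℕ} (hz1 : 1 ≤ z) (hz : 1 ≤ V z * t) :
    |VV t - 1 / t| ≤ 2 / z := by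
  classical
  have ht0 : 0 < t := by linarith
  have hz0 : (0 : ℝ) < z := by exact_mod_cast hz1
  have hlow : 1 / t ≤ VV t := by
    have := prod_PX ht (univ : Finset {x // x ∈ PX t})
    refine this.trans (le_of_eq ?_)
    exact Finset.prod_coe_sort (PX t) (fun p : Nat.Primes => 1 - 1 / ((p : ℕ) : ℝ))
  -- the least prime not in PX t
  obtain ⟨q0, hq0⟩ : ∃ q : Nat.Primes, q ∉ PX t := by
    obtain ⟨q, hq⟩ := Infinite.exists_notMem_finset (PX t)
    exact ⟨q, hq⟩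
  have hex : ∃ m : ℕ, ∃ q : Nat.Primes, (q : ℕ) = m ∧ q ∉ PX t := ⟨_, q0, rfl, hq0⟩
  obtain ⟨q, hqm, hqn⟩ := Nat.find_spec hex
  have hmin : ∀ p : Nat.Primes, (p : ℕ) < (q : ℕ) → p ∈ PX t := by
    intro p hp
    by_contra hcon
    have := Nat.find_min' hex ⟨p, rfl, hcon⟩
    omega
  have hseg : ∀ p : Nat.Primes, p ∈ PX t ↔ (p : ℕ) < q := by
    intro p
    constructor
    · intro hp
      by_contra hcon
      apply hqn
      rw [mem_PX] at hp ⊢
      refine hp.trans (mul_le_mul_of_nonneg_right (V_anti (not_lt.mp hcon)) ht0.le)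
    · exact hmin p
  have hqz : z < (q : ℕ) := by
    by_contra hcon
    apply hqn
    rw [mem_PX]
    exact hz.trans (mul_le_mul_of_nonneg_right (V_anti (not_lt.mp hcon)) ht0.le)
  have hVq : V q = (1 - 1 / ((q : ℕ) : ℝ)) * VV t := by
    rw [V_eq_prod q (insert q (PX t)), prod_insert hqn]
    · rfl
    · intro p
      rw [mem_insert, hseg]
      constructor
      · rintro (rfl | h)
        · exact le_rfl
        · exact h.le
      · intro h
        rcases h.lt_or_eq with h | h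
        · exact Or.inr h
        · exact Or.inl (Subtype.ext h)
  have hqlt : V q * t < 1 := by
    by_contra hcon
    exact hqn (mem_PX.mpr (not_lt.mp hcon))
  have hqr : (z : ℝ) < (q : ℕ) := by exact_mod_cast hqz
  have hq2 : (2 : ℝ) ≤ (q : ℕ) := by exact_mod_cast q.2.two_le
  have h1 : (1 - 1 / ((q : ℕ) : ℝ)) * VV t < 1 / t := by
    rw [← hVq, lt_div_iff₀ ht0]; exact hqlt
  have hVV1 := VV_le_one t
  have hVV0 := VV_nonneg t
  rw [abs_of_nonneg (by linarith)]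
  have h2 : 1 / ((q : ℕ) : ℝ) * VV t ≤ 1 / ((q : ℕ) : ℝ) := mul_le_of_le_one_right (by positivity) hVV1
  have h3 : 1 / ((q : ℕ) : ℝ) ≤ 1 / z := one_div_le_one_div_of_le hz0 hqr.le
  have h4 : (1 : ℝ) / z ≤ 2 / z := div_le_div_of_nonneg_right (by norm_num) hz0.le
  linarith

/-- splitting off the primes `≤ z` -/
theorem VV_split {t T : ℝ} (ht : 0 ≤ t) (htT : t ≤ T) {z : ℕ} (hz : 1 ≤ V z * t) :
    V z * ∏ p ∈ (univ : Finset {x // x ∈ PX T}).filter (fun p : {x // x ∈ PX T} => z < ((p : Nat.Primes) : ℕ)),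
      (if 1 ≤ V ((p : Nat.Primes) : ℕ) * t then 1 - 1 / (((p : Nat.Primes) : ℕ) : ℝ) else 1) = VV t := by
  classical
  have hsub : PX t ⊆ PX T := by
    intro p hp
    rw [mem_PX] at hp ⊢
    exact hp.trans (mul_le_mul_of_nonneg_left htT (V_nonneg _))
  have h1 : ∏ p ∈ (univ : Finset {x // x ∈ PX T}).filter (fun p : {x // x ∈ PX T} => z < ((p : Nat.Primes) : ℕ)),
      (if 1 ≤ V ((p : Nat.Primes) : ℕ) * t then 1 - 1 / (((p : Nat.Primes) : ℕ) : ℝ) else 1) =
      ∏ p ∈ (PX t).filter (fun p : Nat.Primes => z < (p : ℕ)), (1 - 1 / ((p : ℕ) : ℝ)) := by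
    rw [prod_filter]
    have h2 := Finset.prod_coe_sort (PX T) (fun p : Nat.Primes => if z < (p : ℕ) then
      (if 1 ≤ V (p : ℕ) * t then 1 - 1 / ((p : ℕ) : ℝ) else 1) else 1)
    refine h2.trans ?_
    rw [← prod_filter, ← prod_filter]
    refine prod_congr ?_ fun _ _ => rfl
    ext p
    simp only [mem_filter, mem_PX]
    constructor
    · rintro ⟨⟨-, h3⟩, h4⟩
      exact ⟨h4, h3⟩
    · rintro ⟨h3, h4⟩
      exact ⟨⟨mem_PX.mp (hsub (mem_PX.mpr h3)), h4⟩, h3⟩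
  rw [h1, V_eq_prod z ((PX t).filter (fun p : Nat.Primes => (p : ℕ) ≤ z))]
  · unfold VV
    rw [← prod_filter_mul_prod_filter_not (PX t) (fun p : Nat.Primes => (p : ℕ) ≤ z)]
    congr 1
    refine prod_congr ?_ fun _ _ => rfl
    ext p
    simp only [mem_filter, not_le]
  · intro p
    simp only [mem_filter, mem_PX]
    constructor
    · exact fun h => h.2
    · intro h
      exact ⟨hz.trans (mul_le_mul_of_nonneg_right (V_anti h) ht), h⟩

theorem inv_sum_le {T : ℝ} (hT : 1 ≤ T) (K : Finset {x // x ∈ PX T}) :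
    ∑ p ∈ K, 1 / (((p : Nat.Primes) : ℕ) : ℝ) ≤ Real.log T := by
  have h1 := prod_PX hT K
  have h2 : ∏ p ∈ K, (1 - 1 / (((p : Nat.Primes) : ℕ) : ℝ)) ≤
      Real.exp (-∑ p ∈ K, 1 / (((p : Nat.Primes) : ℕ) : ℝ)) := by
    rw [← sum_neg_distrib, Real.exp_sum]
    refine prod_le_prod (fun p _ => fac_nonneg (p : Nat.Primes).2) fun p _ => ?_
    have := Real.add_one_le_exp (-(1 / (((p : Nat.Primes) : ℕ) : ℝ)))
    linarith
  have h3 := h1.trans h2
  have hT0 : 0 < T := by linarith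
  have h4 : Real.log (1 / T) ≤ -∑ p ∈ K, 1 / (((p : Nat.Primes) : ℕ) : ℝ) := by
    rw [Real.log_le_iff_le_exp (by positivity)]
    exact h3
  rw [one_div, Real.log_inv] at h4
  linarith

theorem sq_sum_le {F : Finset Nat.Primes} {z : ℕ} (hz : 1 ≤ z) (K : Finset {x // x ∈ F})
    (hK : ∀ p ∈ K, z < ((p : Nat.Primes) : ℕ)) :
    ∑ p ∈ K, (1 : ℝ) / (((p : Nat.Primes) : ℕ) : ℝ) ^ 2 ≤ 2 / (z : ℝ) := by
  classical
  obtain ⟨N, hN⟩ : ∃ N : ℕ, ∀ p ∈ K, ((p : Nat.Primes) : ℕ) < N := by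
    refine ⟨∑ p ∈ K, ((p : Nat.Primes) : ℕ) + 1, fun p hp => ?_⟩
    have := single_le_sum (f := fun p : {x // x ∈ F} => ((p : Nat.Primes) : ℕ)) (fun _ _ => Nat.zero_le _) hp
    have : ((p : Nat.Primes) : ℕ) ≤ ∑ p ∈ K, ((p : Nat.Primes) : ℕ) := this
    omega
  have h1 : ∑ p ∈ K, (1 : ℝ) / (((p : Nat.Primes) : ℕ) : ℝ) ^ 2 =
      ∑ m ∈ K.image (fun p : {x // x ∈ F} => ((p : Nat.Primes) : ℕ)), ((m : ℝ) ^ 2)⁻¹ := by
    rw [sum_image]
    · exact sum_congr rfl fun p _ => one_div _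
    · intro x _ y _ hxy
      exact Subtype.ext (Subtype.ext hxy)
  rw [h1]
  have h2 : K.image (fun p : {x // x ∈ F} => ((p : Nat.Primes) : ℕ)) ⊆ Ioo z N := by
    intro m hm
    rw [mem_image] at hm
    obtain ⟨p, hp, rfl⟩ := hm
    rw [mem_Ioo]
    exact ⟨hK p hp, hN p hp⟩
  refine (sum_le_sum_of_subset_of_nonneg h2 fun _ _ _ => by positivity).trans ?_
  refine (sum_Ioo_inv_sq_le (α := ℝ) z N).trans ?_
  apply div_le_div_of_nonneg_left (by norm_num) (by exact_mod_cast hz)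
  linarith

/-- the number of prime divisors -/
theorem card_dvd_le {F : Finset Nat.Primes} (K : Finset {x // x ∈ F}) {m : ℤ} (hm : m ≠ 0)
    (hK : ∀ p ∈ K, (((p : Nat.Primes) : ℕ) : ℤ) ∣ m) :
    (K.card : ℝ) ≤ 2 * Real.log |(m : ℝ)| := by
  classical
  have hm0 : m.natAbs ≠ 0 := Int.natAbs_ne_zero.mpr hm
  have h1 : K.image (fun p : {x // x ∈ F} => ((p : Nat.Primes) : ℕ)) ⊆ m.natAbs.primeFactors := by
    intro q hq
    rw [mem_image] at hq
    obtain ⟨p, hp, rfl⟩ := hq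
    rw [Nat.mem_primeFactors]
    exact ⟨(p : Nat.Primes).2, Int.natCast_dvd.mp (hK p hp), hm0⟩
  have h2 : 2 ^ K.card ≤ m.natAbs := by
    have e1 : ∏ p ∈ K.image (fun p : {x // x ∈ F} => ((p : Nat.Primes) : ℕ)), p ≤ m.natAbs := by
      refine Nat.le_of_dvd (Nat.pos_of_ne_zero hm0) ?_
      exact (prod_dvd_prod_of_subset _ _ _ h1).trans (Nat.prod_primeFactors_dvd _)
    refine le_trans ?_ e1
    have e2 : K.card = (K.image (fun p : {x // x ∈ F} => ((p : Nat.Primes) : ℕ))).card := by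
      rw [card_image_of_injective]
      intro x y hxy
      exact Subtype.ext (Subtype.ext hxy)
    rw [e2, ← prod_const]
    refine prod_le_prod' fun p hp => ?_
    exact (Nat.mem_primeFactors.mp (h1 hp)).1.two_le
  have h3 : (2 : ℝ) ^ K.card ≤ |(m : ℝ)| := by
    have : ((m.natAbs : ℕ) : ℝ) = |(m : ℝ)| := by
      rw [Nat.cast_natAbs, Int.cast_abs]
    rw [← this]
    exact_mod_cast h2
  have h4 : (K.card : ℝ) * Real.log 2 ≤ Real.log |(m : ℝ)| := by
    rw [← Real.log_pow]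
    exact Real.log_le_log (by positivity) h3
  have h5 := Real.log_two_gt_d9
  have h6 : (0 : ℝ) ≤ K.card := Nat.cast_nonneg _
  nlinarith

end Pool.Agent.W2helper64.BH
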