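import Pool.Agent.W2helper64.BH.Prod
import Pool.Agent.W2helper64.RS.Meas

set_option autoImplicit false
set_option linter.unusedSectionVars false

/-!
Almost sure convergence of random series over primes, with a rate.
-/

namespace Pool.Agent.W2helper64.BH

open Finset Filter Topology MeasureTheory Pool.Agent.W2helper64.RS

section
variable {ι : Type} [Fintype ι] [DecidableEq ι] {α : ι → Type} [∀ i, Fintype (α i)] [∀ i, Nonempty (α i)]

theorem exp_mean (c : (i : ι) → α i → ℝ) (D : ι → ℝ) (t : ℝ) (hc0 : ∀ i, ∑ r, c i r = 0)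
    (hcD : ∀ i r, |c i r| ≤ D i) (htD : ∀ i, |t| * D i ≤ 1) (K : Finset ι) :
    avg (fun a => Real.exp (t * ∑ i ∈ K, c i (a i))) ≤ Real.exp (t ^ 2 * ∑ i ∈ K, D i ^ 2) := by
  induction K using Finset.induction_on with
  | empty =>
    simp only [sum_empty, mul_zero, Real.exp_zero]
    exact (avg_const (α := α) 1).le
  | insert i K hi ih =>
    have h1 : (fun a : (i : ι) → α i => Real.exp (t * ∑ j ∈ insert i K, c j (a j))) =
        fun a => Real.exp (t * c i (a i)) * Real.exp (t * ∑ j ∈ K, c j (a j)) := by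
      funext a
      rw [sum_insert hi, mul_add, Real.exp_add]
    have hind : Indep i (fun a : (i : ι) → α i => Real.exp (t * ∑ j ∈ K, c j (a j))) := by
      intro a r
      have : ∑ j ∈ K, c j (Function.update a i r j) = ∑ j ∈ K, c j (a j) := by
        refine sum_congr rfl fun j hj => ?_
        rw [Function.update_of_ne]
        rintro rfl
        exact hi hj
      simp only [this]
    have hD0 : 0 ≤ D i := by
      obtain ⟨r⟩ : Nonempty (α i) := inferInstance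
      exact (abs_nonneg _).trans (hcD i r)
    have hmm : ∀ a : (i : ι) → α i, mm i (fun a => Real.exp (t * c i (a i))) a ≤ Real.exp (t ^ 2 * D i ^ 2) := by
      intro a
      have hn := cardi_pos (α := α) i
      unfold mm
      simp only [Function.update_self]
      rw [div_le_iff₀ hn]
      have h2 : ∀ r, Real.exp (t * c i r) ≤ 1 + t * c i r + t ^ 2 * D i ^ 2 := by
        intro r
        have h3 : |t * c i r| ≤ 1 := by
          rw [abs_mul]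
          exact (mul_le_mul_of_nonneg_left (hcD i r) (abs_nonneg _)).trans (htD i)
        have h4 : (t * c i r) ^ 2 ≤ t ^ 2 * D i ^ 2 := by
          rw [mul_pow]
          refine mul_le_mul_of_nonneg_left ?_ (sq_nonneg t)
          rw [← sq_abs (c i r)]
          exact pow_le_pow_left₀ (abs_nonneg _) (hcD i r) 2
        linarith [exp_le_quad h3]
      refine (sum_le_sum fun r _ => h2 r).trans ?_
      rw [sum_add_distrib, sum_add_distrib, ← mul_sum, hc0 i]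
      simp only [sum_const, card_univ, nsmul_eq_mul, mul_one, mul_zero, add_zero]
      have h5 := Real.add_one_le_exp (t ^ 2 * D i ^ 2)
      nlinarith
    rw [h1, ← avg_mm i, mm_mul_indep hind]
    have h6 : avg (fun a => mm i (fun a => Real.exp (t * c i (a i))) a * Real.exp (t * ∑ j ∈ K, c j (a j))) ≤
        avg (fun a => Real.exp (t ^ 2 * D i ^ 2) * Real.exp (t * ∑ j ∈ K, c j (a j))) :=
      avg_mono fun a => mul_le_mul_of_nonneg_right (hmm a) (Real.exp_pos _).le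
    refine h6.trans ?_
    rw [avg_mul, sum_insert hi, mul_add, Real.exp_add]
    exact mul_le_mul_of_nonneg_left ih (Real.exp_pos _).le

end

/-- the primes in `(y, z]` -/
def Pr (y z : ℕ) : Finset Nat.Primes := (Ioc y z).subtype Nat.Prime

theorem mem_Pr {y z : ℕ} {p : Nat.Primes} : p ∈ Pr y z ↔ y < (p : ℕ) ∧ (p : ℕ) ≤ z := by
  have h : p ∈ Pr y z ↔ (p : ℕ) ∈ Ioc y z := Finset.mem_subtype
  rw [h, mem_Ioc]

theorem law_series (Y : (p : Nat.Primes) → ZMod (p : ℕ) → ℝ) {k : ℝ} (hk : 1 ≤ k) (H0 : ∀ p, ∑ r, Y p r = 0)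
    (H1 : ∀ p r, |Y p r| ≤ k / (p : ℕ)) {σ : ℝ} (hσ : σ = 1 ∨ σ = -1) (y z : ℕ) (hy : k ^ 2 ≤ y) :
    law {a | (y : ℝ) ^ (-(1 / 4) : ℝ) ≤ σ * ∑ p ∈ Pr y z, Y p (a p)} ≤
      ENNReal.ofReal (Real.exp (2 * k ^ 2 - (y : ℝ) ^ (1 / 4 : ℝ))) := by
  classical
  have hy0 : (0 : ℝ) < y := by nlinarith
  have hy1 : 1 ≤ y := by
    have : (0 : ℝ) < y := hy0
    exact_mod_cast this
  have hsq : √(y : ℝ) * √(y : ℝ) = y := Real.mul_self_sqrt hy0.le
  have hs0 : 0 < √(y : ℝ) := Real.sqrt_pos.mpr hy0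
  have hks : k ≤ √(y : ℝ) := Real.le_sqrt_of_sq_le hy
  have hσ1 : |σ| = 1 := by rcases hσ with rfl | rfl <;> norm_num
  have hσ2 : σ ^ 2 = 1 := by rcases hσ with rfl | rfl <;> norm_num
  set F := Pr y z with hF
  set P : ((p : {x // x ∈ F}) → ZMod ((p : Nat.Primes) : ℕ)) → Prop := fun b =>
    (y : ℝ) ^ (-(1 / 4) : ℝ) ≤ σ * ∑ p : {x // x ∈ F}, Y (p : Nat.Primes) (b p) with hP
  have h1 : {a : (p : Nat.Primes) → ZMod (p : ℕ) | (y : ℝ) ^ (-(1 / 4) : ℝ) ≤ σ * ∑ p ∈ F, Y p (a p)} =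
      {a : (p : Nat.Primes) → ZMod (p : ℕ) | P (F.restrict a)} := by
    ext a
    have h2 : ∑ p : {x // x ∈ F}, Y (p : Nat.Primes) ((F.restrict a) p) = ∑ p ∈ F, Y p (a p) :=
      Finset.sum_coe_sort F (fun p => Y p (a p))
    show (y : ℝ) ^ (-(1 / 4) : ℝ) ≤ σ * ∑ p ∈ F, Y p (a p) ↔
      (y : ℝ) ^ (-(1 / 4) : ℝ) ≤ σ * ∑ p : {x // x ∈ F}, Y (p : Nat.Primes) ((F.restrict a) p)
    rw [h2]
  have h2 := law_cyl F P (inst := Classical.decPred _)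
  rw [h1, h2]
  apply ENNReal.ofReal_le_ofReal
  -- Markov
  set t : ℝ := σ * √(y : ℝ) with ht
  have h3 := exp_mean (ι := {x // x ∈ F}) (α := fun p => ZMod ((p : Nat.Primes) : ℕ))
    (fun p r => Y (p : Nat.Primes) r) (fun p => k / (((p : Nat.Primes) : ℕ) : ℝ)) t
    (fun p => H0 (p : Nat.Primes)) (fun p r => H1 (p : Nat.Primes) r) (fun p => by
      have h4 := (mem_Pr.mp p.2).1
      have h5 : (y : ℝ) < (((p : Nat.Primes) : ℕ) : ℝ) := by exact_mod_cast h4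
      rw [ht, abs_mul, hσ1, one_mul, abs_of_pos hs0, ← mul_div_assoc, div_le_one (by linarith)]
      nlinarith) univ
  have h4 : t ^ 2 * ∑ p : {x // x ∈ F}, (k / (((p : Nat.Primes) : ℕ) : ℝ)) ^ 2 ≤ 2 * k ^ 2 := by
    have h5 := sq_sum_le (F := F) hy1 univ (fun p _ => (mem_Pr.mp p.2).1)
    have h6 : ∑ p : {x // x ∈ F}, (k / (((p : Nat.Primes) : ℕ) : ℝ)) ^ 2 =
        k ^ 2 * ∑ p : {x // x ∈ F}, (1 : ℝ) / (((p : Nat.Primes) : ℕ) : ℝ) ^ 2 := by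
      rw [mul_sum]
      refine sum_congr rfl fun p _ => ?_
      rw [div_pow]; ring
    have h7 : t ^ 2 = y := by
      rw [ht, mul_pow, hσ2, one_mul, pow_two, hsq]
    rw [h6, h7]
    calc (y : ℝ) * (k ^ 2 * ∑ p : {x // x ∈ F}, (1 : ℝ) / (((p : Nat.Primes) : ℕ) : ℝ) ^ 2) ≤
          y * (k ^ 2 * (2 / y)) := by
          apply mul_le_mul_of_nonneg_left _ hy0.le
          exact mul_le_mul_of_nonneg_left h5 (by positivity)
      _ = 2 * k ^ 2 := by field_simp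
  have h5 := avg_ind_le (P := P) (c := Real.exp ((y : ℝ) ^ (1 / 4 : ℝ)))
    (G := fun a => Real.exp (t * ∑ p : {x // x ∈ F}, Y (p : Nat.Primes) (a p)))
    (fun a => (Real.exp_pos _).le) (Real.exp_pos _) (fun a ha => by
      apply Real.exp_le_exp.mpr
      have h6 : t * ∑ p : {x // x ∈ F}, Y (p : Nat.Primes) (a p) =
        √(y : ℝ) * (σ * ∑ p : {x // x ∈ F}, Y (p : Nat.Primes) (a p)) := by rw [ht]; ring
      rw [h6]
      have h7 : (y : ℝ) ^ (1 / 4 : ℝ) = √(y : ℝ) * (y : ℝ) ^ (-(1 / 4) : ℝ) := by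
        rw [Real.sqrt_eq_rpow, ← Real.rpow_add hy0]
        norm_num
      rw [h7]
      exact mul_le_mul_of_nonneg_left ha hs0.le)
  refine le_trans (le_of_eq ?_) (h5.trans ?_)
  · congr 1
  · rw [div_le_iff₀ (Real.exp_pos _), ← Real.exp_add]
    refine h3.trans (Real.exp_le_exp.mpr ?_)
    linarith

theorem ev_quarter (c : ℝ) : ∀ᶠ y : ℕ in atTop,
    ((y : ℝ) ^ 2 + 1) * Real.exp (c - (y : ℝ) ^ (1 / 4 : ℝ)) ≤ 1 * (1 / (y : ℝ) ^ 2) := by
  have h1 : Tendsto (fun w : ℝ => w ^ 16 * Real.exp (-w)) atTop (𝓝 0) :=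
    Real.tendsto_pow_mul_exp_neg_atTop_nhds_zero 16
  have h2 := h1.const_mul (2 * Real.exp c)
  rw [mul_zero] at h2
  have h3 : Tendsto (fun y : ℕ => (y : ℝ) ^ (1 / 4 : ℝ)) atTop atTop :=
    (tendsto_rpow_atTop (by norm_num)).comp tendsto_natCast_atTop_atTop
  filter_upwards [h3.eventually (h2.eventually (gt_mem_nhds (show (0 : ℝ) < 1 by norm_num))), eventually_ge_atTop 1]
    with y hy hy1
  have hy0 : (1 : ℝ) ≤ y := by exact_mod_cast hy1
  have h4 : ((y : ℝ) ^ (1 / 4 : ℝ)) ^ 16 = (y : ℝ) ^ 4 := by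
    rw [← Real.rpow_natCast, ← Real.rpow_mul (by linarith), ← Real.rpow_natCast]
    norm_num
  rw [h4] at hy
  rw [one_mul, le_div_iff₀ (by positivity), sub_eq_add_neg, Real.exp_add]
  have h5 : 0 < Real.exp c * Real.exp (-(y : ℝ) ^ (1 / 4 : ℝ)) := by positivity
  have h6 : ((y : ℝ) ^ 2 + 1) * y ^ 2 ≤ 2 * y ^ 4 := by
    have : 1 ≤ (y : ℝ) ^ 2 := one_le_pow₀ hy0
    nlinarith
  calc ((y : ℝ) ^ 2 + 1) * (Real.exp c * Real.exp (-(y : ℝ) ^ (1 / 4 : ℝ))) * y ^ 2 =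
        ((y : ℝ) ^ 2 + 1) * y ^ 2 * (Real.exp c * Real.exp (-(y : ℝ) ^ (1 / 4 : ℝ))) := by ring
    _ ≤ 2 * y ^ 4 * (Real.exp c * Real.exp (-(y : ℝ) ^ (1 / 4 : ℝ))) := mul_le_mul_of_nonneg_right h6 h5.le
    _ = 2 * Real.exp c * ((y : ℝ) ^ 4 * Real.exp (-(y : ℝ) ^ (1 / 4 : ℝ))) := by ring
    _ ≤ 1 := hy.le

theorem ae_series (Y : (p : Nat.Primes) → ZMod (p : ℕ) → ℝ) {k : ℝ} (hk : 1 ≤ k) (H0 : ∀ p, ∑ r, Y p r = 0)
    (H1 : ∀ p r, |Y p r| ≤ k / (p : ℕ)) : ∀ᵐ a ∂law, ∀ᶠ y : ℕ in atTop, ∀ z, y ≤ z → z ≤ y ^ 2 →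
      |∑ p ∈ Pr y z, Y p (a p)| ≤ (y : ℝ) ^ (-(1 / 4) : ℝ) := by
  have key : ∀ σ : ℝ, (σ = 1 ∨ σ = -1) → ∀ᵐ a ∂law, ∀ᶠ y : ℕ in atTop,
      a ∉ (⋃ z ∈ Icc y (y ^ 2), {a | (y : ℝ) ^ (-(1 / 4) : ℝ) ≤ σ * ∑ p ∈ Pr y z, Y p (a p)}) := by
    intro σ hσ
    apply bc _ 1 (by norm_num)
    have hy2 := (tendsto_natCast_atTop_atTop (R := ℝ)).eventually_ge_atTop (k ^ 2)
    filter_upwards [ev_quarter (2 * k ^ 2), hy2] with y hy1 hy2
    calc law (⋃ z ∈ Icc y (y ^ 2), {a | (y : ℝ) ^ (-(1 / 4) : ℝ) ≤ σ * ∑ p ∈ Pr y z, Y p (a p)})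
        ≤ ∑ z ∈ Icc y (y ^ 2), law {a | (y : ℝ) ^ (-(1 / 4) : ℝ) ≤ σ * ∑ p ∈ Pr y z, Y p (a p)} :=
          measure_biUnion_finset_le _ _
      _ ≤ ∑ z ∈ Icc y (y ^ 2), ENNReal.ofReal (Real.exp (2 * k ^ 2 - (y : ℝ) ^ (1 / 4 : ℝ))) :=
          Finset.sum_le_sum fun z _ => law_series Y hk H0 H1 hσ y z hy2
      _ = ENNReal.ofReal ((y ^ 2 + 1 - y : ℕ) * Real.exp (2 * k ^ 2 - (y : ℝ) ^ (1 / 4 : ℝ))) := by
          rw [sum_const, nsmul_eq_mul, Nat.card_Icc, ENNReal.ofReal_mul (by positivity), ENNReal.ofReal_natCast]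
      _ ≤ _ := by
          apply ENNReal.ofReal_le_ofReal
          refine le_trans (mul_le_mul_of_nonneg_right ?_ (Real.exp_pos _).le) hy1
          have : y ^ 2 + 1 - y ≤ y ^ 2 + 1 := Nat.sub_le _ _
          exact_mod_cast this
  filter_upwards [key 1 (Or.inl rfl), key (-1) (Or.inr rfl)] with a h1 h2
  filter_upwards [h1, h2] with y h3 h4 z hz1 hz2
  simp only [Set.mem_iUnion, exists_prop, not_exists, not_and] at h3 h4
  have h5 := h3 z (mem_Icc.mpr ⟨hz1, hz2⟩)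
  have h6 := h4 z (mem_Icc.mpr ⟨hz1, hz2⟩)
  have h5' : ¬ ((y : ℝ) ^ (-(1 / 4) : ℝ) ≤ 1 * ∑ p ∈ Pr y z, Y p (a p)) := h5
  have h6' : ¬ ((y : ℝ) ^ (-(1 / 4) : ℝ) ≤ -1 * ∑ p ∈ Pr y z, Y p (a p)) := h6
  rw [abs_le]
  constructor <;> linarith

end Pool.Agent.W2helper64.BH
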