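import Pool.Agent.W2helper64.BH.Ser1
import Pool.Agent.W2helper64.BH.Det

set_option autoImplicit false
set_option linter.unusedSectionVars false

/-!
The singular series of a system of polynomials, almost surely.
-/

namespace Pool.Agent.W2helper64.BH

open Finset Filter Topology Polynomial MeasureTheory Pool.Agent.W2helper64.RS Pool.Agent.W2helper64.RK
open Pool.Agent.H373R2.T7 (pz nuB PerB sys_count nuB_le mem_pz)

theorem chain4 (s : ℕ → ℝ) (y0 : ℕ) (h : ∀ y, y0 ≤ y → ∀ z, y ≤ z → z ≤ y ^ 2 →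
    |s z - s y| ≤ (y : ℝ) ^ (-(1 / 4) : ℝ)) (y : ℕ) (hy0 : y0 ≤ y) (hy : 16 ≤ y) (z : ℕ) (hz : y ≤ z) :
    |s z - s y| ≤ 2 * (y : ℝ) ^ (-(1 / 4) : ℝ) := by
  have key : ∀ n : ℕ, ∀ y z : ℕ, y0 ≤ y → 16 ≤ y → y ≤ z → z ≤ y ^ 2 ^ n →
      |s z - s y| ≤ 2 * (y : ℝ) ^ (-(1 / 4) : ℝ) := by
    intro n
    induction n with
    | zero =>
      intro y z _ hy hz hz2
      have : z = y := by simp at hz2; omega
      rw [this, sub_self, abs_zero]
      positivity
    | succ n ih =>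
      intro y z h1 hy hz hz2
      have hyr : (16 : ℝ) ≤ y := by exact_mod_cast hy
      have hp0 : 0 < (y : ℝ) ^ (-(1 / 4) : ℝ) := by positivity
      rcases le_or_gt z (y ^ 2) with h2 | h2
      · have := h y h1 z hz h2
        linarith
      · have e1 : y ≤ y ^ 2 := Nat.le_self_pow (by norm_num) y
        have h3 := ih (y ^ 2) z (h1.trans e1) (hy.trans e1) h2.le (by
          rw [← pow_mul]
          refine hz2.trans (le_of_eq ?_)
          congr 1
          rw [pow_succ]; ring)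
        have h4 := h y h1 (y ^ 2) e1 le_rfl
        have h5 : ((y ^ 2 : ℕ) : ℝ) ^ (-(1 / 4) : ℝ) = (y : ℝ) ^ (-(1 / 4) : ℝ) * (y : ℝ) ^ (-(1 / 4) : ℝ) := by
          push_cast
          rw [pow_two, Real.mul_rpow (by positivity) (by positivity)]
        have h6 : (y : ℝ) ^ (-(1 / 4) : ℝ) ≤ 1 / 2 := by
          have h7 : (2 : ℝ) ≤ (y : ℝ) ^ (1 / 4 : ℝ) := by
            have e2 : (2 : ℝ) = (16 : ℝ) ^ (1 / 4 : ℝ) := by
              rw [show (16 : ℝ) = (2 : ℝ) ^ (4 : ℝ) by norm_num, ← Real.rpow_mul (by norm_num)]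
              norm_num
            rw [e2]
            exact Real.rpow_le_rpow (by norm_num) hyr (by norm_num)
          rw [Real.rpow_neg (by positivity), ← one_div]
          exact one_div_le_one_div_of_le (by norm_num) h7
        rw [h5] at h3
        have h8 := abs_sub_le (s z) (s (y ^ 2)) (s y)
        nlinarith
  refine key z y z hy0 hy hz ?_
  have h1 : z < 2 ^ z := Nat.lt_two_pow_self
  have h2 : 2 ^ z ≤ y ^ 2 ^ z := by
    calc 2 ^ z ≤ y ^ z := Nat.pow_le_pow_left (by omega) z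
      _ ≤ y ^ 2 ^ z := Nat.pow_le_pow_right (by omega) h1.le
  omega

theorem cauchy_rate (E : ℕ → ℝ) {c : ℝ} (y1 : ℕ)
    (h : ∀ y, y1 ≤ y → ∀ z, y ≤ z → |E z - E y| ≤ c * (y : ℝ) ^ (-(1 / 4) : ℝ)) :
    ∃ e : ℝ, Tendsto E atTop (𝓝 e) ∧ ∀ y, y1 ≤ y → |E y - e| ≤ c * (y : ℝ) ^ (-(1 / 4) : ℝ) := by
  have ht : Tendsto (fun y : ℕ => c * (y : ℝ) ^ (-(1 / 4) : ℝ)) atTop (𝓝 0) := by
    have := ((tendsto_rpow_neg_atTop (show (0 : ℝ) < 1 / 4 by norm_num)).comp
      tendsto_natCast_atTop_atTop).const_mul c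
    rw [mul_zero] at this
    exact this
  have hcs : CauchySeq E := by
    rw [Metric.cauchySeq_iff']
    intro ε hε
    obtain ⟨N, hN⟩ := eventually_atTop.mp ((ht.eventually (gt_mem_nhds hε)).and (eventually_ge_atTop y1))
    refine ⟨N, fun n hn => ?_⟩
    rw [Real.dist_eq]
    exact (h N (hN N le_rfl).2 n hn).trans_lt (hN N le_rfl).1
  obtain ⟨e, he⟩ := cauchySeq_tendsto_of_complete hcs
  refine ⟨e, he, fun y hy => ?_⟩
  have h1 : Tendsto (fun z => |E z - E y|) atTop (𝓝 |e - E y|) := (he.sub_const _).abs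
  rw [abs_sub_comm]
  exact le_of_tendsto h1 (by
    filter_upwards [eventually_ge_atTop y] with z hz
    exact h y hy z hz)

/-! ### the classes -/

/-- the values modulo `p` -/
noncomputable def Im {g : ℕ} (f : Fin g → ℤ[X]) (p m : ℕ) : Finset (ZMod p) :=
  univ.image fun i => (((f i).eval (m : ℤ) : ℤ) : ZMod p)

theorem mem_Im {g : ℕ} {f : Fin g → ℤ[X]} {p m : ℕ} {r : ZMod p} :
    r ∈ Im f p m ↔ ∃ i, (((f i).eval (m : ℤ) : ℤ) : ZMod p) = r := by
  unfold Im
  simp

open Classical in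
noncomputable def nuR {g : ℕ} (f : Fin g → ℤ[X]) (p : ℕ) (r : ZMod p) : ℕ :=
  ((range p).filter fun m => r ∈ Im f p m).card

theorem nuB_eq {g : ℕ} (f : Fin g → ℤ[X]) (a : (p : Nat.Primes) → ZMod (p : ℕ)) (p : Nat.Primes) :
    nuB (Hit f a) (p : ℕ) = nuR f (p : ℕ) (a p) := by
  classical
  unfold nuB nuR
  congr 1
  ext m
  rw [mf', mf']
  refine and_congr_right fun _ => ?_
  rw [mem_Im]
  constructor
  · rintro ⟨_, i, hi⟩
    exact ⟨i, hi⟩
  · rintro ⟨i, hi⟩
    exact ⟨p.2, i, hi⟩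

theorem sum_nuR {g : ℕ} (f : Fin g → ℤ[X]) (p : Nat.Primes) :
    ∑ r : ZMod (p : ℕ), (nuR f (p : ℕ) r : ℝ) = ∑ m ∈ range (p : ℕ), ((Im f (p : ℕ) m).card : ℝ) := by
  classical
  unfold nuR
  have h1 : ∀ r : ZMod (p : ℕ), (((range (p : ℕ)).filter fun m => r ∈ Im f (p : ℕ) m).card : ℝ) =
      ∑ m ∈ range (p : ℕ), if r ∈ Im f (p : ℕ) m then (1 : ℝ) else 0 := by
    intro r
    rw [sum_boole]
  rw [sum_congr rfl fun r _ => h1 r, sum_comm]
  refine sum_congr rfl fun m _ => ?_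
  rw [sum_boole]
  congr 2
  ext r
  simp

/-- the bound for the leading coefficients of the differences -/
noncomputable def dlc {g : ℕ} (f : Fin g → ℤ[X]) : ℕ :=
  ∑ x : Fin g × Fin g, (f x.1 - f x.2).leadingCoeff.natAbs

theorem Im_card_le {g : ℕ} (f : Fin g → ℤ[X]) (p m : ℕ) : (Im f p m).card ≤ g := by
  unfold Im
  refine card_image_le.trans ?_
  rw [card_univ, Fintype.card_fin]

/-- the indicator of a proposition -/
noncomputable def ind (P : Prop) : ℝ := @ite ℝ P (Classical.dec P) 1 0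

theorem ind_pos {P : Prop} (h : P) : ind P = 1 := by unfold ind; rw [if_pos h]

theorem ind_neg {P : Prop} (h : ¬ P) : ind P = 0 := by unfold ind; rw [if_neg h]

theorem ind_nonneg (P : Prop) : 0 ≤ ind P := by
  by_cases h : P
  · rw [ind_pos h]; norm_num
  · rw [ind_neg h]

theorem sum_ind (s : Finset ℕ) (P : ℕ → Prop) :
    ∑ m ∈ s, ind (P m) = ((@Finset.filter ℕ P (Classical.decPred _) s).card : ℝ) := by
  classical
  rw [← sum_boole]
  refine sum_congr rfl fun m _ => ?_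
  by_cases h : P m
  · rw [ind_pos h, if_pos h]
  · rw [ind_neg h, if_neg h]

theorem Im_defect {g : ℕ} (f : Fin g → ℤ[X]) (p m : ℕ) :
    (g : ℝ) - (Im f p m).card ≤ g * ∑ x ∈ (univ : Finset (Fin g × Fin g)),
      ind (x.1 ≠ x.2 ∧ (((f x.1 - f x.2).eval (m : ℤ) : ℤ) : ZMod p) = 0) := by
  classical
  have h0 : ∀ x ∈ (univ : Finset (Fin g × Fin g)), (0 : ℝ) ≤
      ind (x.1 ≠ x.2 ∧ (((f x.1 - f x.2).eval (m : ℤ) : ℤ) : ZMod p) = 0) := by
    intro x _
    exact ind_nonneg _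
  have hg0 : (0 : ℝ) ≤ g := Nat.cast_nonneg _
  by_cases hinj : Function.Injective (fun i => (((f i).eval (m : ℤ) : ℤ) : ZMod p))
  · have : (Im f p m).card = g := by
      unfold Im
      have e1 := card_image_of_injective (univ : Finset (Fin g)) hinj
      rw [card_univ, Fintype.card_fin] at e1
      exact e1
    rw [this, sub_self]
    exact mul_nonneg hg0 (sum_nonneg h0)
  · unfold Function.Injective at hinj
    push Not at hinj
    obtain ⟨i, j, hij, hne⟩ := hinj
    have h1 := single_le_sum h0 (Finset.mem_univ (i, j))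
    rw [ind_pos] at h1
    · have h4 : (0 : ℝ) ≤ ((Im f p m).card : ℝ) := Nat.cast_nonneg _
      nlinarith
    · refine ⟨hne, ?_⟩
      rw [eval_sub, Int.cast_sub, sub_eq_zero]
      exact hij

theorem mean_bounds {g : ℕ} (f : Fin g → ℤ[X]) (k : ℕ)
    (hk : ∑ i, (f i).natDegree ≤ k) (hinj : Function.Injective f) (p : Nat.Primes) (hp : dlc f < (p : ℕ)) :
    |(∑ r : ZMod (p : ℕ), (nuR f (p : ℕ) r : ℝ)) - g * (p : ℕ)| ≤ g * (g ^ 2 * k) := by
  classical
  rw [sum_nuR]
  have h1 : ∑ m ∈ range (p : ℕ), ((Im f (p : ℕ) m).card : ℝ) ≤ g * (p : ℕ) := by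
    calc ∑ m ∈ range (p : ℕ), ((Im f (p : ℕ) m).card : ℝ) ≤ ∑ _m ∈ range (p : ℕ), (g : ℝ) :=
          sum_le_sum fun m _ => by exact_mod_cast Im_card_le f (p : ℕ) m
      _ = g * (p : ℕ) := by rw [sum_const, card_range, nsmul_eq_mul, mul_comm]
  have h2 : g * (p : ℕ) - ∑ m ∈ range (p : ℕ), ((Im f (p : ℕ) m).card : ℝ) ≤ g * (g ^ 2 * k) := by
    calc g * (p : ℕ) - ∑ m ∈ range (p : ℕ), ((Im f (p : ℕ) m).card : ℝ) =
          ∑ m ∈ range (p : ℕ), ((g : ℝ) - (Im f (p : ℕ) m).card) := by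
          rw [sum_sub_distrib, sum_const, card_range, nsmul_eq_mul, mul_comm]
      _ ≤ ∑ m ∈ range (p : ℕ), (g : ℝ) * ∑ x ∈ (univ : Finset (Fin g × Fin g)),
      ind (x.1 ≠ x.2 ∧ (((f x.1 - f x.2).eval (m : ℤ) : ℤ) : ZMod (p : ℕ)) = 0) :=
          sum_le_sum fun m _ => Im_defect f (p : ℕ) m
      _ = g * ∑ x ∈ (univ : Finset (Fin g × Fin g)), ∑ m ∈ range (p : ℕ),
      ind (x.1 ≠ x.2 ∧ (((f x.1 - f x.2).eval (m : ℤ) : ℤ) : ZMod (p : ℕ)) = 0) := by
          rw [← mul_sum, sum_comm]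
      _ ≤ g * ∑ x ∈ (univ : Finset (Fin g × Fin g)), (k : ℝ) := by
          apply mul_le_mul_of_nonneg_left _ (Nat.cast_nonneg _)
          refine sum_le_sum fun x _ => ?_
          by_cases hx : x.1 = x.2
          · rw [sum_eq_zero]
            · exact Nat.cast_nonneg _
            · intro m _
              rw [ind_neg fun h => h.1 hx]
          · rw [sum_ind]
            have hne : f x.1 - f x.2 ≠ 0 := sub_ne_zero.mpr fun h => hx (hinj h)
            have hlc : ¬ (((p : ℕ) : ℤ) ∣ (f x.1 - f x.2).leadingCoeff) := by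
              intro hdvd
              have e1 : (p : ℕ) ≤ (f x.1 - f x.2).leadingCoeff.natAbs :=
                Nat.le_of_dvd (Int.natAbs_pos.mpr (leadingCoeff_ne_zero.mpr hne)) (Int.natCast_dvd.mp hdvd)
              have e2 : (f x.1 - f x.2).leadingCoeff.natAbs ≤ dlc f :=
                single_le_sum (f := fun x : Fin g × Fin g => (f x.1 - f x.2).leadingCoeff.natAbs)
                  (fun _ _ => Nat.zero_le _) (Finset.mem_univ x)
              omega
            have hdeg : (f x.1 - f x.2).natDegree ≤ k := by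
              have e1 : ∀ i, (f i).natDegree ≤ k := fun i =>
                (single_le_sum (f := fun i => (f i).natDegree) (fun _ _ => Nat.zero_le _) (Finset.mem_univ i)).trans hk
              exact (natDegree_sub_le _ _).trans (max_le (e1 _) (e1 _))
            have e3 := few_zero (f x.1 - f x.2) p.2 hlc
              (@Finset.filter ℕ (fun m => x.1 ≠ x.2 ∧ (((f x.1 - f x.2).eval (m : ℤ) : ℤ) : ZMod (p : ℕ)) = 0)
                (Classical.decPred _) (range (p : ℕ))) (fun m hm => by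
                  rw [mf', mem_range] at hm
                  exact ⟨hm.1, hm.2.2⟩)
            have e4 := e3.trans hdeg
            have e5 : ((@Finset.filter ℕ (fun m => x.1 ≠ x.2 ∧ (((f x.1 - f x.2).eval (m : ℤ) : ℤ) : ZMod (p : ℕ)) = 0)
                (Classical.decPred _) (range (p : ℕ))).card : ℝ) ≤ k := by exact_mod_cast e4
            exact e5
      _ = g * (g ^ 2 * k) := by
          rw [sum_const, card_univ, Fintype.card_prod, Fintype.card_fin, nsmul_eq_mul]
          push_cast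
          ring
  have h3 : (0 : ℝ) ≤ g * (g ^ 2 * k) := by positivity
  rw [abs_le]
  constructor <;> linarith

end Pool.Agent.W2helper64.BH
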