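import Pool.Agent.W2helper64.BH.Prod
import Pool.Agent.W2helper64.RK.MainP

set_option autoImplicit false
set_option linter.unusedSectionVars false

/-!
Systems of polynomials: the weight of one candidate.
-/

namespace Pool.Agent.W2helper64.BH

open Finset Filter Topology Polynomial Pool.Agent.W2helper64.RS Pool.Agent.W2helper64.RK

/-- the logarithm of a value -/
noncomputable def lam {g : ℕ} (f : Fin g → ℤ[X]) (i : Fin g) (n : ℕ) : ℝ :=
  Real.log (((f i).eval (n : ℤ) : ℤ) : ℝ)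

open Classical in
/-- the indices for which `p` is relevant -/
noncomputable def rel {g : ℕ} (f : Fin g → ℤ[X]) (p n : ℕ) : Finset (Fin g) :=
  univ.filter fun i => 1 ≤ V p * lam f i n

open Classical in
/-- the dangerous classes -/
noncomputable def Ph {g : ℕ} (f : Fin g → ℤ[X]) (p : Nat.Primes) (n : ℕ) : Finset (ZMod (p : ℕ)) :=
  (rel f p n).image fun i => (((f i).eval (n : ℤ) : ℤ) : ZMod (p : ℕ))

theorem rel_card_le {g : ℕ} (f : Fin g → ℤ[X]) (p n : ℕ) : (rel f p n).card ≤ g := by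
  classical
  unfold rel
  refine (card_filter_le _ _).trans ?_
  rw [card_univ, Fintype.card_fin]

theorem Ph_card_le {g : ℕ} (f : Fin g → ℤ[X]) (p : Nat.Primes) (n : ℕ) : (Ph f p n).card ≤ (rel f p n).card := by
  classical
  exact card_image_le

theorem Ph_defect {g : ℕ} (f : Fin g → ℤ[X]) (p : Nat.Primes) (n : ℕ) :
    ((rel f p n).card : ℝ) - (Ph f p n).card ≤ g * ∑ x ∈ (univ : Finset (Fin g × Fin g)),
      (if x.1 ≠ x.2 ∧ (((p : ℕ) : ℤ) ∣ (f x.1).eval (n : ℤ) - (f x.2).eval (n : ℤ)) then (1 : ℝ) else 0) := by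
  classical
  have h0 : ∀ x ∈ (univ : Finset (Fin g × Fin g)), (0 : ℝ) ≤
      (if x.1 ≠ x.2 ∧ (((p : ℕ) : ℤ) ∣ (f x.1).eval (n : ℤ) - (f x.2).eval (n : ℤ)) then (1 : ℝ) else 0) := by
    intro x _
    split_ifs <;> norm_num
  have hg0 : (0 : ℝ) ≤ g := Nat.cast_nonneg _
  by_cases hinj : Set.InjOn (fun i => (((f i).eval (n : ℤ) : ℤ) : ZMod (p : ℕ))) (rel f p n)
  · have : (Ph f p n).card = (rel f p n).card := card_image_of_injOn hinj
    rw [this, sub_self]
    exact mul_nonneg hg0 (sum_nonneg h0)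
  · unfold Set.InjOn at hinj
    push Not at hinj
    obtain ⟨i, hi, j, hj, hij, hne⟩ := hinj
    have h1 : (1 : ℝ) ≤ ∑ x ∈ (univ : Finset (Fin g × Fin g)),
      (if x.1 ≠ x.2 ∧ (((p : ℕ) : ℤ) ∣ (f x.1).eval (n : ℤ) - (f x.2).eval (n : ℤ)) then (1 : ℝ) else 0) := by
      have h2 := single_le_sum h0 (Finset.mem_univ (i, j))
      rw [if_pos] at h2
      · exact h2
      · refine ⟨hne, ?_⟩
        exact (ZMod.intCast_eq_intCast_iff_dvd_sub _ _ _).mp hij.symm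
    have h3 : ((rel f p n).card : ℝ) ≤ g := by exact_mod_cast rel_card_le f p n
    have h4 : (0 : ℝ) ≤ ((Ph f p n).card : ℝ) := Nat.cast_nonneg _
    nlinarith

theorem pointwise {g : ℕ} (f : Fin g → ℤ[X]) {T u B : ℝ} {z n : ℕ} (hT : 1 ≤ T) (hz : 1 ≤ z) (hzg : 2 * g ≤ z)
    (hB0 : 0 ≤ B) (hlam1 : ∀ i, 1 ≤ lam f i n) (hlamT : ∀ i, lam f i n ≤ T)
    (hV : ∀ i, 1 ≤ V z * lam f i n)
    (hne : ∀ i j, i ≠ j → (f i).eval (n : ℤ) - (f j).eval (n : ℤ) ≠ 0)
    (hB : ∀ i j, i ≠ j → Real.log |(((f i).eval (n : ℤ) - (f j).eval (n : ℤ) : ℤ) : ℝ)| ≤ B)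
    (hu : |u| ≤ 1) :
    |∏ p ∈ (univ : Finset {x // x ∈ PX T}).filter (fun p : {x // x ∈ PX T} => z < ((p : Nat.Primes) : ℕ)),
        (1 - (1 - u) * ((Ph f p n).card : ℝ) / (((p : Nat.Primes) : ℕ) : ℝ)) -
      (1 / V z) ^ g * ∏ i, (1 / lam f i n)| ≤
      |u| * g * Real.log T + g * g ^ 2 * (2 * B) / z + g ^ 2 * (2 / z) + (1 / V z) ^ g * (g * (2 / z)) := by
  classical
  set K := (univ : Finset {x // x ∈ PX T}).filter (fun p : {x // x ∈ PX T} => z < ((p : Nat.Primes) : ℕ)) with hK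
  have hz0 : (0 : ℝ) < z := by exact_mod_cast hz
  have hg0 : (0 : ℝ) ≤ g := Nat.cast_nonneg _
  have hKz : ∀ p ∈ K, z < ((p : Nat.Primes) : ℕ) := fun p hp => (Finset.mem_filter.mp hp).2
  have hVz := V_pos z
  -- the first comparison
  have hfac : ∀ p ∈ K, (0 ≤ 1 - (1 - u) * ((Ph f p n).card : ℝ) / (((p : Nat.Primes) : ℕ) : ℝ) ∧
      1 - (1 - u) * ((Ph f p n).card : ℝ) / (((p : Nat.Primes) : ℕ) : ℝ) ≤ 1) ∧
      |(1 - (1 - u) * ((Ph f p n).card : ℝ) / (((p : Nat.Primes) : ℕ) : ℝ)) -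
        (1 - 1 / (((p : Nat.Primes) : ℕ) : ℝ)) ^ (rel f ((p : Nat.Primes) : ℕ) n).card| ≤
      |u| * (g / (((p : Nat.Primes) : ℕ) : ℝ)) + (((rel f ((p : Nat.Primes) : ℕ) n).card : ℝ) - (Ph f p n).card) /
        (((p : Nat.Primes) : ℕ) : ℝ) + (g : ℝ) ^ 2 / (((p : Nat.Primes) : ℕ) : ℝ) ^ 2 := by
    intro p hp
    have h1 : (z : ℝ) < (((p : Nat.Primes) : ℕ) : ℝ) := by exact_mod_cast hKz p hp
    have h2 : (2 * g : ℝ) ≤ z := by exact_mod_cast hzg
    have h3 : (1 : ℝ) ≤ z := by exact_mod_cast hz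
    exact fac_close (by linarith) (by linarith) (Ph_card_le f p n) (rel_card_le f _ n) hu
  have s1 : |∏ p ∈ K, (1 - (1 - u) * ((Ph f p n).card : ℝ) / (((p : Nat.Primes) : ℕ) : ℝ)) -
      ∏ p ∈ K, (1 - 1 / (((p : Nat.Primes) : ℕ) : ℝ)) ^ (rel f ((p : Nat.Primes) : ℕ) n).card| ≤
      |u| * g * Real.log T + g * g ^ 2 * (2 * B) / z + g ^ 2 * (2 / z) := by
    refine (abs_prod_sub K _ _ (fun p hp => (hfac p hp).1) (fun p hp => ?_)).trans ?_
    · exact ⟨pow_nonneg (fac_nonneg (p : Nat.Primes).2) _, pow_le_one₀ (fac_nonneg (p : Nat.Primes).2) (fac_le _)⟩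
    refine (sum_le_sum fun p hp => (hfac p hp).2).trans ?_
    rw [sum_add_distrib, sum_add_distrib]
    refine add_le_add (add_le_add ?_ ?_) ?_
    · rw [← mul_sum, mul_assoc]
      apply mul_le_mul_of_nonneg_left _ (abs_nonneg _)
      have : ∑ p ∈ K, (g : ℝ) / (((p : Nat.Primes) : ℕ) : ℝ) = g * ∑ p ∈ K, 1 / (((p : Nat.Primes) : ℕ) : ℝ) := by
        rw [mul_sum]
        exact sum_congr rfl fun p _ => by ring
      rw [this]
      exact mul_le_mul_of_nonneg_left (inv_sum_le hT K) hg0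
    · have h1 : ∀ p ∈ K, (((rel f ((p : Nat.Primes) : ℕ) n).card : ℝ) - (Ph f p n).card) /
          (((p : Nat.Primes) : ℕ) : ℝ) ≤ (((rel f ((p : Nat.Primes) : ℕ) n).card : ℝ) - (Ph f p n).card) / z := by
        intro p hp
        have h2 : (z : ℝ) < (((p : Nat.Primes) : ℕ) : ℝ) := by exact_mod_cast hKz p hp
        have h3 : ((Ph f p n).card : ℝ) ≤ (rel f ((p : Nat.Primes) : ℕ) n).card := by
          exact_mod_cast Ph_card_le f p n
        exact div_le_div_of_nonneg_left (by linarith) hz0 h2.le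
      refine (sum_le_sum h1).trans ?_
      rw [← sum_div]
      apply div_le_div_of_nonneg_right _ hz0.le
      refine (sum_le_sum fun (p : {x // x ∈ PX T}) _ => Ph_defect f (p : Nat.Primes) n).trans ?_
      rw [← mul_sum, sum_comm, mul_assoc]
      apply mul_le_mul_of_nonneg_left _ hg0
      have h2 : ∀ x ∈ (univ : Finset (Fin g × Fin g)), ∑ p ∈ K, (if x.1 ≠ x.2 ∧
          ((((p : Nat.Primes) : ℕ) : ℤ) ∣ (f x.1).eval (n : ℤ) - (f x.2).eval (n : ℤ)) then (1 : ℝ) else 0) ≤ 2 * B := by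
        intro x _
        by_cases hx : x.1 = x.2
        · rw [sum_eq_zero]
          · linarith
          · intro p _
            rw [if_neg (fun h => h.1 hx)]
        · have e1 : ∑ p ∈ K, (if x.1 ≠ x.2 ∧
            ((((p : Nat.Primes) : ℕ) : ℤ) ∣ (f x.1).eval (n : ℤ) - (f x.2).eval (n : ℤ)) then (1 : ℝ) else 0) =
            ((K.filter fun p : {x // x ∈ PX T} => x.1 ≠ x.2 ∧
            ((((p : Nat.Primes) : ℕ) : ℤ) ∣ (f x.1).eval (n : ℤ) - (f x.2).eval (n : ℤ))).card : ℝ) := by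
            rw [sum_boole]
          rw [e1]
          refine (card_dvd_le _ (hne x.1 x.2 hx) (fun p hp => (Finset.mem_filter.mp hp).2.2)).trans ?_
          have := hB x.1 x.2 hx
          linarith
      refine (sum_le_sum h2).trans (le_of_eq ?_)
      rw [sum_const, card_univ, Fintype.card_prod, Fintype.card_fin, nsmul_eq_mul]
      push_cast
      ring
    · have : ∑ p ∈ K, (g : ℝ) ^ 2 / (((p : Nat.Primes) : ℕ) : ℝ) ^ 2 =
          g ^ 2 * ∑ p ∈ K, (1 : ℝ) / (((p : Nat.Primes) : ℕ) : ℝ) ^ 2 := by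
        rw [mul_sum]
        exact sum_congr rfl fun p _ => by ring
      rw [this]
      exact mul_le_mul_of_nonneg_left (sq_sum_le hz K hKz) (by positivity)
  -- the product of the factors
  have s2 : ∏ p ∈ K, (1 - 1 / (((p : Nat.Primes) : ℕ) : ℝ)) ^ (rel f ((p : Nat.Primes) : ℕ) n).card =
      (1 / V z) ^ g * ∏ i, VV (lam f i n) := by
    have h1 : ∀ p ∈ K, (1 - 1 / (((p : Nat.Primes) : ℕ) : ℝ)) ^ (rel f ((p : Nat.Primes) : ℕ) n).card =
        ∏ i : Fin g, (if 1 ≤ V ((p : Nat.Primes) : ℕ) * lam f i n then 1 - 1 / (((p : Nat.Primes) : ℕ) : ℝ) else 1) := by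
      intro p _
      rw [← prod_filter, prod_const]
      rfl
    rw [prod_congr rfl h1, Finset.prod_comm]
    have h2 : ∀ i : Fin g, ∏ p ∈ K, (if 1 ≤ V ((p : Nat.Primes) : ℕ) * lam f i n then
        1 - 1 / (((p : Nat.Primes) : ℕ) : ℝ) else 1) = 1 / V z * VV (lam f i n) := by
      intro i
      rw [← VV_split (by linarith [hlam1 i]) (hlamT i) (hV i), ← mul_assoc, one_div, inv_mul_cancel₀ hVz.ne', one_mul]
    rw [prod_congr rfl fun i _ => h2 i, prod_mul_distrib, prod_const, card_univ, Fintype.card_fin]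
  have s3 : |∏ i : Fin g, VV (lam f i n) - ∏ i, (1 / lam f i n)| ≤ g * (2 / z) := by
    refine (abs_prod_sub univ _ _ (fun i _ => ⟨VV_nonneg _, VV_le_one _⟩) (fun i _ => ?_)).trans ?_
    · have := hlam1 i
      refine ⟨by positivity, ?_⟩
      rw [div_le_one (by linarith)]
      exact this
    refine (sum_le_sum fun i _ => VV_close (hlam1 i) hz (hV i)).trans (le_of_eq ?_)
    rw [sum_const, card_univ, Fintype.card_fin, nsmul_eq_mul]
  have hP0 : (0 : ℝ) ≤ (1 / V z) ^ g := by positivity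
  rw [s2] at s1
  set X1 := ∏ p ∈ K, (1 - (1 - u) * ((Ph f p n).card : ℝ) / (((p : Nat.Primes) : ℕ) : ℝ))
  have e1 : X1 - (1 / V z) ^ g * ∏ i, (1 / lam f i n) =
      (X1 - (1 / V z) ^ g * ∏ i, VV (lam f i n)) +
        (1 / V z) ^ g * (∏ i, VV (lam f i n) - ∏ i, (1 / lam f i n)) := by ring
  rw [e1]
  refine (abs_add_le _ _).trans (add_le_add s1 ?_)
  rw [abs_mul, abs_of_nonneg hP0]
  exact mul_le_mul_of_nonneg_left s3 hP0

end Pool.Agent.W2helper64.BH
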